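import Pool.Agent.H557.Average
import Pool.Agent.H557.Split

/-!
Project SI (helper557): parity of `p(n, k)` in short intervals, by iterated differences (van der
Corput). Definitions and statements of all steps. The character `chi : ZMod 2 → ℝ` (values `± 1`) is
in `Pool.Agent.H557.Average`, `act`, `DD`, `Phi`, `LL` in the files below `Pool.Agent.H557.Split`.
-/

set_option autoImplicit false

namespace Pool.Agent.H557.SI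

open Polynomial Finset

/-- the average of `chi (ψ n)` over `[x, x + N)` -/
noncomputable def av (x : ℤ) (N : ℕ) (ψ : ℤ → ZMod 2) : ℝ :=
  (∑ n ∈ range N, chi (ψ (x + n))) / N

/-- the average over all pairs of shifts from a list of families `σ` of shifts, indexed by `S` -/
noncomputable def PH {ι : Type} (S : Finset ι) (x : ℤ) (N : ℕ) : List (ι → ℕ) → (ℤ → ZMod 2) → ℝ
  | [], ψ => |av x N ψ|
  | σ :: σs, ψ =>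
    (∑ i ∈ S, ∑ j ∈ S, PH S x N σs (fun n => ψ (n + σ i) + ψ (n + σ j))) / (S.card : ℝ) ^ 2

/-- the same for a function of period `ℓ` and all shifts -/
noncomputable def gam (ℓ : ℕ) : ℕ → (ℤ → ZMod 2) → ℝ
  | 0, β => |∑ x ∈ range ℓ, chi (β x)| / ℓ
  | s + 1, β => (∑ u ∈ range ℓ, ∑ v ∈ range ℓ, gam ℓ s (fun n => β (n + u) + β (n + v))) /
      (ℓ : ℝ) ^ 2

/-- `ρ` is killed by the product of the differences with the steps `Λ` of the list -/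
def Kill : List ℕ → (ℤ → ZMod 2) → Prop
  | [], ρ => ∀ n, ρ n = 0
  | Λ :: Λs, ρ => Kill Λs (fun n => ρ (n + Λ) + ρ n)

/-- the index set: one digit `t ℓ < ℓ` for every `ℓ ∈ T` -/
def idx (T : Finset ℕ) : Finset (∀ ℓ ∈ T, ℕ) := T.pi fun ℓ => range ℓ

/-- the shift `Λ ∑_ℓ t_ℓ ∏_{m ≠ ℓ} m` -/
def shf (T : Finset ℕ) (Λ : ℕ) (t : ∀ ℓ ∈ T, ℕ) : ℕ :=
  Λ * ∑ ℓ ∈ T.attach, t ℓ.1 ℓ.2 * ∏ m ∈ T.erase ℓ.1, m

/-- iterated van der Corput inequality -/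
def S_vdc : Prop := ∀ (ι : Type) (S : Finset ι) (x : ℤ) (N M : ℕ) (σs : List (ι → ℕ))
  (ψ : ℤ → ZMod 2), S.Nonempty → 0 < N → (∀ σ ∈ σs, ∀ i ∈ S, σ i ≤ M) →
  |av x N ψ| ^ (2 ^ σs.length) ≤ PH S x N σs ψ + 8 ^ σs.length * (6 * M / N)

/-- functions which are not close to constants -/
def S_gam : Prop := ∀ (ℓ : ℕ), 0 < ℓ → Odd ℓ → ∀ (s W : ℕ) (β : ℤ → ZMod 2),
  (∀ n, β (n + ℓ) = β n) →
  (∀ c : ZMod 2, W < ((range ℓ).filter fun x : ℕ => β (x : ℤ) ≠ c).card) →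
  0 ≤ gam ℓ s β ∧ gam ℓ s β ≤ 1 - 2 * W / (2 ^ s * ℓ)

/-- one average over all digits is a product -/
def S_one : Prop := ∀ (T : Finset ℕ), (∀ ℓ ∈ T, ℓ.Prime) → ∀ (x : ℤ) (N : ℕ), 0 < N →
  ∀ β : ℕ → ℤ → ZMod 2, (∀ ℓ ∈ T, ∀ n, β ℓ (n + ℓ) = β ℓ n) →
  |av x N (fun n => ∑ ℓ ∈ T, β ℓ n)| ≤ ∏ ℓ ∈ T, gam ℓ 0 (β ℓ) + 2 * (T.card * ∏ ℓ ∈ T, ℓ : ℕ) / N

/-- evaluation of the iterated average -/
def S_eval : Prop := ∀ (T : Finset ℕ), (∀ ℓ ∈ T, ℓ.Prime) → ∀ (x : ℤ) (N : ℕ), 0 < N →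
  ∀ (Λs : List ℕ), (∀ Λ ∈ Λs, ∀ ℓ ∈ T, Nat.Coprime ℓ Λ) →
  ∀ (β : ℕ → ℤ → ZMod 2) (ρ : ℤ → ZMod 2), (∀ ℓ ∈ T, ∀ n, β ℓ (n + ℓ) = β ℓ n) → Kill Λs ρ →
  PH (idx T) x N (Λs.map (shf T)) (fun n => ∑ ℓ ∈ T, β ℓ n + ρ n) ≤
    ∏ ℓ ∈ T, gam ℓ Λs.length (β ℓ) + 2 * (T.card * ∏ ℓ ∈ T, ℓ : ℕ) / N

/-- a small common multiple of the numbers in an interval -/
def S_blk : Prop := ∀ x b : ℕ, 1 ≤ b → ∃ P : ℕ, 0 < P ∧ (∀ i ∈ Icc (x + 1) (x + b), i ∣ P) ∧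
  Real.log P ≤ b * (13 + Real.log ((x + b : ℕ) / b))

/-- steps which kill everything except the components of the primes of `T` -/
def S_steps : Prop := ∃ C : ℝ, 0 < C ∧ ∀ k s : ℕ, 2 ≤ k → 1 ≤ s → s ≤ k → ∀ T : Finset ℕ,
  (∀ ℓ ∈ T, ℓ.Prime ∧ ℓ ≤ k ∧ k < 2 * ℓ ∧ ℓ ≠ 2) → ∃ Λs : List ℕ, Λs.length = s ∧
    (∀ Λ ∈ Λs, 0 < Λ ∧ (∀ ℓ ∈ T, Nat.Coprime ℓ Λ) ∧
      Real.log Λ ≤ C * (k * (1 + Real.log s) / s)) ∧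
    DD k ∣ (Λs.map fun Λ => (1 - X ^ Λ : (ZMod 2)[X])).prod * ∏ ℓ ∈ T, Phi ℓ

end Pool.Agent.H557.SI
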