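import Pool.Agent.H557.Bias
import Pool.Agent.H557.SI.Stm

/-!
Decomposition of `act A (cc k)` into periodic parts for the primes of `T` and a part killed by
differences.
-/

set_option autoImplicit false

namespace Pool.Agent.H557.SI

open Polynomial Finset

theorem Kill_zero (Λs : List ℕ) : Kill Λs (fun _ => 0) := by
  induction Λs with
  | nil => intro n; rfl
  | cons Λ Λs ih =>
    show Kill Λs _
    simpa using ih

theorem Kill_add (Λs : List ℕ) {f g : ℤ → ZMod 2} (hf : Kill Λs f) (hg : Kill Λs g) :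
    Kill Λs (fun n => f n + g n) := by
  induction Λs generalizing f g with
  | nil =>
    intro n
    have h1 : f n = 0 := hf n
    have h2 : g n = 0 := hg n
    show f n + g n = 0
    rw [h1, h2, add_zero]
  | cons Λ Λs ih =>
    have h1 : Kill Λs (fun n => f (n + Λ) + f n) := hf
    have h2 : Kill Λs (fun n => g (n + Λ) + g n) := hg
    have h3 := ih h1 h2
    show Kill Λs (fun n => (f (n + Λ) + g (n + Λ)) + (f n + g n))
    have e : (fun n => (f (n + Λ) + g (n + Λ)) + (f n + g n)) =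
        (fun n => (f (n + Λ) + f n) + (g (n + Λ) + g n)) := by
      funext n; ring
    rw [e]
    exact h3

theorem Kill_shift (Λs : List ℕ) {f : ℤ → ZMod 2} (hf : Kill Λs f) (a : ℤ) :
    Kill Λs (fun n => f (n + a)) := by
  induction Λs generalizing f with
  | nil =>
    intro n
    exact hf (n + a)
  | cons Λ Λs ih =>
    have h1 : Kill Λs (fun n => f (n + Λ) + f n) := hf
    have h2 := ih h1
    show Kill Λs (fun n => f (n + Λ + a) + f (n + a))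
    have e : (fun n : ℤ => f (n + Λ + a) + f (n + a)) =
        (fun n : ℤ => f (n + a + Λ) + f (n + a)) := by
      funext n
      rw [show n + (Λ : ℤ) + a = n + a + Λ by ring]
    rw [e]
    exact h2

theorem Kill_sum (Λs : List ℕ) (s : ℕ) (f : ℕ → ℤ → ZMod 2) (hf : ∀ j, Kill Λs (f j)) :
    Kill Λs (fun n => ∑ j ∈ range s, f j n) := by
  induction s with
  | zero =>
    simp only [Finset.range_zero, Finset.sum_empty]
    exact Kill_zero Λs
  | succ s ih =>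
    simp only [Finset.sum_range_succ]
    exact Kill_add Λs ih (hf s)

theorem two_eq (a : ZMod 2) : a + a = 0 := by
  revert a; decide

theorem telescope (ρ : ℤ → ZMod 2) (Λ : ℤ) (n : ℤ) (q : ℕ) :
    ρ (n + q * Λ) + ρ n = ∑ j ∈ range q, (ρ (n + j * Λ + Λ) + ρ (n + j * Λ)) := by
  induction q with
  | zero =>
    simp only [Finset.range_zero, Finset.sum_empty, Nat.cast_zero, zero_mul, add_zero]
    exact two_eq _
  | succ q ih =>
    rw [Finset.sum_range_succ, ← ih]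
    have h : n + ((q + 1 : ℕ) : ℤ) * Λ = n + q * Λ + Λ := by push_cast; ring
    rw [h]
    have := two_eq (ρ (n + q * Λ))
    linear_combination -this

theorem Kill_sub (Λs : List ℕ) {ρ : ℤ → ZMod 2} (hρ : Kill Λs ρ) (q : ℕ) (r0 : ℤ) :
    Kill Λs (fun m => ρ (r0 + q * m)) := by
  induction Λs generalizing ρ with
  | nil =>
    intro n
    exact hρ _
  | cons Λ Λs ih =>
    have h1 : Kill Λs (fun n => ρ (n + Λ) + ρ n) := hρ
    show Kill Λs (fun m => ρ (r0 + q * (m + Λ)) + ρ (r0 + q * m))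
    have h2 : Kill Λs (fun n => ∑ j ∈ range q, (ρ (n + j * Λ + Λ) + ρ (n + j * Λ))) := by
      refine Kill_sum Λs q (fun j n => ρ (n + j * Λ + Λ) + ρ (n + j * Λ)) fun j => ?_
      exact Kill_shift Λs h1 (j * Λ)
    have h3 := ih h2
    have e : (fun m : ℤ => ρ (r0 + q * (m + Λ)) + ρ (r0 + q * m)) =
        (fun m : ℤ => ∑ j ∈ range q, (ρ (r0 + q * m + j * Λ + Λ) + ρ (r0 + q * m + j * Λ))) := by
      funext m
      rw [← telescope ρ Λ (r0 + q * m) q]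
      rw [show r0 + (q : ℤ) * (m + Λ) = r0 + q * m + q * Λ by ring]
    rw [e]
    exact h3

theorem Kill_of_act (Λs : List ℕ) {ρ : ℤ → ZMod 2}
    (h : act (Λs.map fun Λ => (1 - X ^ Λ : (ZMod 2)[X])).prod ρ = 0) : Kill Λs ρ := by
  induction Λs generalizing ρ with
  | nil =>
    simp only [List.map_nil, List.prod_nil, act_one] at h
    intro n
    rw [h]
    rfl
  | cons Λ Λs ih =>
    show Kill Λs (fun n => ρ (n + Λ) + ρ n)
    apply ih
    rw [List.map_cons, List.prod_cons, mul_comm, act_mul] at h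
    funext n
    have h1 := congrFun h (n + Λ)
    rw [act_apply] at h1 ⊢
    have h2 : (0 : ℤ → ZMod 2) (n + Λ) = 0 := rfl
    rw [h2] at h1
    show _ = (0 : ZMod 2)
    rw [← h1]
    refine Finset.sum_congr rfl fun i _ => ?_
    rw [act_one_sub_X_pow]
    rw [show n + (Λ : ℤ) - (i : ℤ) - (Λ : ℤ) = n - i by ring,
      show n + (Λ : ℤ) - (i : ℤ) = n - i + Λ by ring]
    have := two_eq (ρ (n - i))
    congr 1
    linear_combination this

theorem act_sum_right {ι : Type*} (A : (ZMod 2)[X]) (s : Finset ι) (f : ι → ℤ → ZMod 2) :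
    act A (fun n => ∑ i ∈ s, f i n) = fun n => ∑ i ∈ s, act A (f i) n := by
  classical
  funext n
  rw [act_apply]
  simp only [act_apply, Finset.mul_sum]
  rw [Finset.sum_comm]

theorem card_inj {ℓ : ℕ} (hℓ : 0 < ℓ) (P : ℤ → Prop) [DecidablePred P]
    (hP : ∀ n, P (n + ℓ) ↔ P n) (a : ℕ) (ha : Nat.Coprime ℓ a) (r0 : ℤ) :
    ((range ℓ).filter fun m : ℕ => P (r0 + a * m)).card ≤
      ((range ℓ).filter fun x : ℕ => P (x : ℤ)).card := by
  have hP2 : ∀ n m : ℤ, P (n + ℓ * m) ↔ P n := by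
    intro n m
    have := periodic_mul_int (f := P) (P := ℓ) (fun n => propext (hP n)) n m
    rw [this]
  have hℓ' : (ℓ : ℤ) ≠ 0 := by exact_mod_cast hℓ.ne'
  refine Finset.card_le_card_of_injOn (fun m : ℕ => ((r0 + a * m) % (ℓ : ℤ)).toNat) ?_ ?_
  · intro m hm
    rw [Finset.mem_coe, Finset.mem_filter] at hm
    rw [Finset.mem_coe, Finset.mem_filter, Finset.mem_range]
    have h1 := Int.emod_nonneg (r0 + a * m) hℓ'
    have h2 := Int.emod_lt_of_pos (r0 + a * m) (by exact_mod_cast hℓ : (0 : ℤ) < ℓ)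
    refine ⟨by
      show ((r0 + a * m) % (ℓ : ℤ)).toNat < ℓ
      omega, ?_⟩
    show P (((((r0 + a * m) % (ℓ : ℤ)).toNat : ℕ)) : ℤ)
    rw [Int.toNat_of_nonneg h1]
    rw [← hP2 _ ((r0 + a * m) / ℓ), Int.emod_add_mul_ediv]
    exact hm.2
  · intro m hm m' hm' h
    rw [Finset.mem_coe, Finset.mem_filter, Finset.mem_range] at hm hm'
    have h' : ((r0 + a * m) % (ℓ : ℤ)).toNat = ((r0 + a * m') % (ℓ : ℤ)).toNat := h
    have h1 := Int.emod_nonneg (r0 + a * m) hℓ'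
    have h2 := Int.emod_nonneg (r0 + a * m') hℓ'
    have h3 : (r0 + a * m) % (ℓ : ℤ) = (r0 + a * m') % (ℓ : ℤ) := by omega
    have h4 : (ℓ : ℤ) ∣ (a : ℤ) * (m' - m) := by
      have := Int.ModEq.dvd (show (r0 + a * m) ≡ (r0 + a * m') [ZMOD ℓ] from h3)
      rw [show r0 + (a : ℤ) * m' - (r0 + a * m) = a * (m' - m) by ring] at this
      exact this
    have h5 : (ℓ : ℤ) ∣ (m' : ℤ) - m := by
      refine IsCoprime.dvd_of_dvd_mul_left ?_ h4
      exact Nat.isCoprime_iff_coprime.mpr ha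
    have h6 : (m' : ℤ) - m = 0 := by
      refine Int.eq_zero_of_abs_lt_dvd h5 ?_
      rw [abs_lt]
      constructor <;> omega
    omega

theorem card_eq {ℓ : ℕ} (hℓ : 0 < ℓ) (P : ℤ → Prop) [DecidablePred P]
    (hP : ∀ n, P (n + ℓ) ↔ P n) (a : ℕ) (ha : Nat.Coprime ℓ a) (r0 : ℤ) :
    ((range ℓ).filter fun m : ℕ => P (r0 + a * m)).card =
      ((range ℓ).filter fun x : ℕ => P (x : ℤ)).card := by
  have h1 := card_inj hℓ P hP a ha r0
  have h2 := card_inj hℓ (fun n => ¬ P n) (fun n => not_congr (hP n)) a ha r0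
  have h3 := Finset.card_filter_add_card_filter_not (s := range ℓ) (fun m : ℕ => P (r0 + a * m))
  have h4 := Finset.card_filter_add_card_filter_not (s := range ℓ) (fun x : ℕ => P (x : ℤ))
  omega

theorem eq_zero_of_coprime {A B : (ZMod 2)[X]} (h : IsCoprime A B) {f : ℤ → ZMod 2}
    (hA : act A f = 0) (hB : act B f = 0) : f = 0 := by
  obtain ⟨a, b, hab⟩ := h
  rw [← act_one f, ← hab, act_add_left, act_mul, act_mul, hA, hB, act_zero, act_zero, add_zero]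

theorem eq_zero_of_prod (Qf : ℕ → ℕ) (T : Finset ℕ)
    (hc : ∀ ℓ ∈ T, IsCoprime (Phi ℓ) (1 - X ^ Qf ℓ)) {f : ℤ → ZMod 2}
    (hP : act (∏ ℓ ∈ T, Phi ℓ) f = 0) (hQ : ∀ ℓ ∈ T, act (1 - X ^ Qf ℓ) f = 0) : f = 0 := by
  classical
  induction T using Finset.induction with
  | empty =>
    rw [Finset.prod_empty, act_one] at hP
    exact hP
  | insert ℓ T hℓ ih =>
    rw [Finset.prod_insert hℓ, act_mul] at hP
    refine ih (fun m hm => hc m (Finset.mem_insert_of_mem hm)) ?_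
      (fun m hm => hQ m (Finset.mem_insert_of_mem hm))
    refine eq_zero_of_coprime (hc ℓ (Finset.mem_insert_self _ _)) hP ?_
    rw [← act_mul, mul_comm, act_mul, hQ ℓ (Finset.mem_insert_self _ _), act_zero]

/-- The decomposition. -/
theorem ann {L W Dp k : ℕ} (T : Finset ℕ)
    (hT : ∀ ℓ ∈ T, ℓ.Prime ∧ ℓ ≤ k ∧ k < 2 * ℓ ∧ ℓ ≠ 2) (hbad : ∀ ℓ ∈ T, ¬ Bad L W Dp k ℓ)
    (Λs : List ℕ)
    (hΛ : DD k ∣ (Λs.map fun Λ => (1 - X ^ Λ : (ZMod 2)[X])).prod * ∏ ℓ ∈ T, Phi ℓ)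
    (hk : 1 ≤ k) {A : (ZMod 2)[X]} (hA : A ≠ 0) (hd : A.natDegree < Dp)
    (hs : A.support.card ≤ L) :
    ∃ (β : ℕ → ℤ → ZMod 2) (ρ : ℤ → ZMod 2), (∀ ℓ ∈ T, ∀ n, β ℓ (n + ℓ) = β ℓ n) ∧ Kill Λs ρ ∧
      (∀ n, act A (cc k) n = ∑ ℓ ∈ T, β ℓ n + ρ n) ∧
      ∀ ℓ ∈ T, ∀ c : ZMod 2, W < ((range ℓ).filter fun x : ℕ => β ℓ (x : ℤ) ≠ c).card := by
  classical
  set ψ := act A (cc k) with hψ
  have hψP : ∀ n : ℤ, ψ (n + PP k) = ψ n := act_periodic (cc_periodic k)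
  have hdiv : ∀ ℓ ∈ T, ℓ ∣ PP k := fun ℓ hℓ => dvd_PP (hT ℓ hℓ).1.one_le (hT ℓ hℓ).2.1
  have hmul : ∀ ℓ ∈ T, ℓ * (PP k / ℓ) = PP k := fun ℓ hℓ => Nat.mul_div_cancel' (hdiv ℓ hℓ)
  have hcop : ∀ ℓ ∈ T, Nat.Coprime ℓ (PP k / ℓ) := fun ℓ hℓ =>
    coprime_PP_div (hT ℓ hℓ).1 (hT ℓ hℓ).2.2.2 (hT ℓ hℓ).2.1 (hT ℓ hℓ).2.2.1
  have hch : ∀ ℓ : ℕ, ∃ (β : ZMod ℓ → ZMod 2) (r : ℤ → ZMod 2), ℓ ∈ T →
      ((∀ n, r (n + (PP k / ℓ : ℕ)) = r n) ∧ ∀ n : ℤ, ψ n = β (n : ZMod ℓ) + r n) := by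
    intro ℓ
    by_cases hℓ : ℓ ∈ T
    · have h1 : PP k ∣ ℓ * (PP k / ℓ) := by rw [hmul ℓ hℓ]
      have h2 := split_of_dvd (hT ℓ hℓ).1 (hT ℓ hℓ).2.1 (hT ℓ hℓ).2.2.1 h1 A
      obtain ⟨β, r, hr, hdec⟩ := decomp h2 (hcop ℓ hℓ) (by
        intro n
        rw [hmul ℓ hℓ]
        exact hψP n)
      exact ⟨β, r, fun _ => ⟨hr, hdec⟩⟩
    · exact ⟨fun _ => 0, fun _ => 0, fun h => absurd h hℓ⟩
  choose β₀ r₀ hβr using hch
  set cst : ℕ → ZMod 2 := fun ℓ => ∑ x ∈ range ℓ, β₀ ℓ ((x : ℕ) : ZMod ℓ) with hcst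
  set β : ℕ → ℤ → ZMod 2 := fun ℓ n => β₀ ℓ ((n : ℤ) : ZMod ℓ) + cst ℓ with hβ
  have hper : ∀ ℓ : ℕ, ∀ n : ℤ, β ℓ (n + ℓ) = β ℓ n := by
    intro ℓ n
    simp only [hβ]
    push_cast
    simp
  -- killed by Phi
  have hPhi : ∀ ℓ ∈ T, act (Phi ℓ) (β ℓ) = 0 := by
    intro ℓ hℓ
    have : NeZero ℓ := ⟨(hT ℓ hℓ).1.ne_zero⟩
    funext n
    unfold Phi
    rw [act_sum]
    have e1 : ∀ i ∈ range ℓ, act (X ^ i) (β ℓ) n = β₀ ℓ ((n : ZMod ℓ) - (i : ZMod ℓ)) + cst ℓ := by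
      intro i _
      rw [act_X_pow]
      simp only [hβ]
      push_cast
      rfl
    rw [Finset.sum_congr rfl e1, Finset.sum_add_distrib, Finset.sum_const, Finset.card_range]
    have e2 : ∀ g : ZMod ℓ → ZMod 2, ∑ i ∈ range ℓ, g ((i : ℕ) : ZMod ℓ) = ∑ x : ZMod ℓ, g x := by
      intro g
      refine Finset.sum_bij (fun i _ => ((i : ℕ) : ZMod ℓ)) (fun _ _ => Finset.mem_univ _) ?_ ?_ ?_
      · intro a ha b hb hab
        have h1 := (ZMod.natCast_eq_natCast_iff a b ℓ).mp hab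
        have h2 : a % ℓ = b % ℓ := h1
        rw [Nat.mod_eq_of_lt (Finset.mem_range.mp ha),
          Nat.mod_eq_of_lt (Finset.mem_range.mp hb)] at h2
        exact h2
      · intro b _
        exact ⟨b.val, Finset.mem_range.mpr (ZMod.val_lt b), ZMod.natCast_zmod_val b⟩
      · intro a _
        rfl
    have e3 : ∑ i ∈ range ℓ, β₀ ℓ ((n : ZMod ℓ) - (i : ZMod ℓ)) = cst ℓ := by
      rw [e2 (fun x => β₀ ℓ ((n : ZMod ℓ) - x))]
      simp only [hcst]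
      rw [e2 (fun x => β₀ ℓ x)]
      exact Fintype.sum_equiv (Equiv.subLeft (n : ZMod ℓ)) _ _ (fun x => rfl)
    rw [e3, nsmul_eq_mul]
    have hodd : ((ℓ : ℕ) : ZMod 2) = 1 := by
      have h1 : Odd ℓ := (hT ℓ hℓ).1.odd_of_ne_two (hT ℓ hℓ).2.2.2
      exact (ZMod.natCast_eq_one_iff_odd).mpr h1
    rw [hodd, one_mul]
    exact two_eq _
  set ρ : ℤ → ZMod 2 := fun n => ψ n + ∑ ℓ ∈ T, β ℓ n with hρ
  -- periodicity of ρ
  have hρper : ∀ ℓ ∈ T, ∀ n : ℤ, ρ (n + (PP k / ℓ : ℕ)) = ρ n := by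
    intro ℓ hℓ n
    have h1 : ∀ n : ℤ, ρ n = (r₀ ℓ n + cst ℓ) + ∑ m ∈ T.erase ℓ, β m n := by
      intro n
      simp only [hρ]
      rw [← Finset.add_sum_erase T (fun m => β m n) hℓ, (hβr ℓ hℓ).2 n]
      simp only [hβ]
      have := two_eq (β₀ ℓ (n : ZMod ℓ))
      linear_combination this
    rw [h1, h1, (hβr ℓ hℓ).1]
    congr 1
    refine Finset.sum_congr rfl fun m hm => ?_
    have hmT := Finset.mem_of_mem_erase hm
    have hne := Finset.ne_of_mem_erase hm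
    have h2 : m ∣ ℓ * (PP k / ℓ) := by
      rw [hmul ℓ hℓ]
      exact hdiv m hmT
    have h3 : Nat.Coprime m ℓ := (Nat.coprime_primes (hT m hmT).1 (hT ℓ hℓ).1).mpr hne
    obtain ⟨c, hc⟩ := h3.dvd_of_dvd_mul_left h2
    rw [hc]
    push_cast
    exact periodic_mul (f := β m) (hper m) n c
  -- the killed function
  set θ := act (Λs.map fun Λ => (1 - X ^ Λ : (ZMod 2)[X])).prod ρ with hθ
  have hθ0 : θ = 0 := by
    refine eq_zero_of_prod (fun ℓ => PP k / ℓ) T ?_ ?_ ?_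
    · intro ℓ hℓ
      exact Phi_coprime (hT ℓ hℓ).1.one_lt ((hT ℓ hℓ).1.odd_of_ne_two (hT ℓ hℓ).2.2.2) (hcop ℓ hℓ)
    · rw [hθ, ← act_mul, mul_comm]
      have e1 : ρ = ψ + fun n => ∑ ℓ ∈ T, β ℓ n := rfl
      rw [e1, act_add]
      have e2 : act ((Λs.map fun Λ => (1 - X ^ Λ : (ZMod 2)[X])).prod * ∏ ℓ ∈ T, Phi ℓ) ψ = 0 := by
        obtain ⟨c, hc⟩ := hΛ
        rw [hc, hψ, ← act_mul, show DD k * c * A = (c * A) * DD k by ring, act_mul,
          act_DD_cc hk, act_zero]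
      rw [e2, zero_add, act_sum_right]
      funext n
      refine Finset.sum_eq_zero fun ℓ hℓ => ?_
      rw [← Finset.mul_prod_erase T (fun ℓ => Phi ℓ) hℓ]
      rw [show (Λs.map fun Λ => (1 - X ^ Λ : (ZMod 2)[X])).prod *
        (Phi ℓ * ∏ x ∈ T.erase ℓ, Phi x) = ((Λs.map fun Λ => (1 - X ^ Λ : (ZMod 2)[X])).prod *
        ∏ x ∈ T.erase ℓ, Phi x) * Phi ℓ by ring, act_mul, hPhi ℓ hℓ, act_zero]
      rfl
    · intro ℓ hℓ
      rw [hθ, ← act_mul, mul_comm, act_mul]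
      have : act (1 - X ^ (PP k / ℓ)) ρ = 0 := by
        funext n
        rw [act_one_sub_X_pow]
        have h1 := hρper ℓ hℓ (n - (PP k / ℓ : ℕ))
        rw [sub_add_cancel] at h1
        rw [h1, sub_self]
        rfl
      rw [this, act_zero]
  refine ⟨β, ρ, fun ℓ _ n => hper ℓ n, Kill_of_act Λs hθ0, ?_, ?_⟩
  · intro n
    simp only [hρ]
    have := two_eq (∑ ℓ ∈ T, β ℓ n)
    linear_combination -this
  · intro ℓ hℓ c
    have h1 : PP k ∣ ℓ * (PP k / ℓ) := by rw [hmul ℓ hℓ]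
    have h2 := spread (hT ℓ hℓ).1 (hT ℓ hℓ).2.1 (hT ℓ hℓ).2.2.1 (hcop ℓ hℓ) h1 (hbad ℓ hℓ) hA hd hs
      0 (c + r₀ ℓ 0 + cst ℓ)
    refine lt_of_lt_of_le h2 ?_
    have h3 := card_inj (hT ℓ hℓ).1.pos (fun n : ℤ => β ℓ n ≠ c) (fun n => by rw [hper ℓ n])
      (PP k / ℓ) (hcop ℓ hℓ) 0
    refine le_trans (Finset.card_le_card ?_) h3
    intro t ht
    rw [Finset.mem_filter] at ht ⊢
    refine ⟨ht.1, ?_⟩
    intro h4
    apply ht.2
    have h5 := (hβr ℓ hℓ).2 (0 + (PP k / ℓ : ℕ) * t)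
    have h6 : r₀ ℓ (0 + (PP k / ℓ : ℕ) * t) = r₀ ℓ 0 :=
      periodic_mul (f := r₀ ℓ) (hβr ℓ hℓ).1 0 t
    rw [h6] at h5
    show ψ (0 + (PP k / ℓ : ℕ) * t) = c + r₀ ℓ 0 + cst ℓ
    rw [h5]
    have h7 : β₀ ℓ ((0 + ((PP k / ℓ : ℕ) : ℤ) * (t : ℤ) : ℤ) : ZMod ℓ) + cst ℓ = c := h4
    have := two_eq (cst ℓ)
    linear_combination h7 - this

end Pool.Agent.H557.SI
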