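import Pool.Agent.H557.SI.Stm2

/-! # SI2-ASM: steps from the grouping (helper945 for helper557) -/

set_option autoImplicit false

namespace Pool.Agent.H557.SI.ASM

open Polynomial Finset
open Pool.Agent.H557

theorem exists_pow (b : ℕ) (hb : 1 ≤ b) : ∃ m : ℕ, b ≤ 2 ^ m ∧ 2 ^ m ≤ 2 * b := by
  induction b, hb using Nat.le_induction with
  | base => exact ⟨0, by norm_num, by norm_num⟩
  | succ b hb ih =>
    obtain ⟨m, h1, h2⟩ := ih
    by_cases h : b + 1 ≤ 2 ^ m
    · exact ⟨m, h, by omega⟩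
    · refine ⟨m + 1, ?_, ?_⟩
      · rw [pow_succ]; omega
      · rw [pow_succ]; omega

theorem list_prod {M : Type} [CommMonoid M] (g : ℕ → M) (s : ℕ) :
    ((List.range s).map g).prod = ∏ j ∈ range s, g j := by
  induction s with
  | zero => simp
  | succ n ih =>
    rw [List.range_succ, List.map_append, List.prod_append, ih, prod_range_succ]
    simp

theorem prod_dvd' (s : Finset ℕ) (h : ℕ → ℕ) (L m : ℕ) (hL : ∀ i ∈ s, h i ∣ L)
    (hm : s.card ≤ 2 ^ m) :
    ∏ i ∈ s, (1 - X ^ h i : (ZMod 2)[X]) ∣ 1 - X ^ (2 ^ m * L) := by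
  have h1 : ∏ i ∈ s, (1 - X ^ h i : (ZMod 2)[X]) ∣ ∏ _i ∈ s, (1 - X ^ L) := by
    apply Finset.prod_dvd_prod_of_dvd
    intro i hi
    obtain ⟨c, hc⟩ := hL i hi
    rw [hc, pow_mul]
    exact one_sub_dvd_one_sub_pow _ _
  rw [Finset.prod_const] at h1
  refine h1.trans ((pow_dvd_pow _ hm).trans ?_)
  rw [one_sub_pow_two_pow, ← pow_mul, mul_comm L]

/-- the exponents with the primes of `T` replaced by `1` -/
def hh (T : Finset ℕ) (i : ℕ) : ℕ := if i ∈ T then 1 else i

theorem one_eq (T : Finset ℕ) (i : ℕ) :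
    (1 - X ^ i : (ZMod 2)[X]) = (1 - X ^ hh T i) * (if i ∈ T then Phi i else 1) := by
  unfold hh
  split_ifs
  · rw [pow_one, mul_comm, Phi_mul]
  · rw [mul_one]

/-- the groups, the primes of `T` being put into the group `0` -/
def gg (T : Finset ℕ) (g : ℕ → ℕ) (i : ℕ) : ℕ := if i ∈ T then 0 else g i

theorem log_two_mul_le (k s : ℕ) (hk : 2 ≤ k) (hs : 1 ≤ s) (h8 : 8 ^ s ≤ k) :
    Real.log (2 * (k : ℝ)) ≤ 4 * (k / s) := by
  have hk0 : (0 : ℝ) < k := by
    have : 0 < k := by omega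
    exact_mod_cast this
  have hs0 : (0 : ℝ) < s := by exact_mod_cast hs
  have hs1 : (s : ℝ) ≤ Real.log k := by
    have h1 : Real.log ((8 : ℝ) ^ s) ≤ Real.log k :=
      Real.log_le_log (by positivity) (by exact_mod_cast h8)
    rw [Real.log_pow] at h1
    have h2 : (1 : ℝ) ≤ Real.log 8 := by
      rw [Real.le_log_iff_exp_le (by norm_num)]
      have := Real.exp_one_lt_d9
      linarith
    have h3 : (s : ℝ) * 1 ≤ s * Real.log 8 := mul_le_mul_of_nonneg_left h2 hs0.le
    linarith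
  have hq0 : 0 < √(k : ℝ) := Real.sqrt_pos.mpr hk0
  have hq : √(k : ℝ) * √(k : ℝ) = k := Real.mul_self_sqrt hk0.le
  have hl : Real.log k ≤ 2 * √(k : ℝ) - 2 := by
    have h1 := Real.log_le_sub_one_of_pos hq0
    rw [Real.log_sqrt hk0.le] at h1
    linarith
  have hl2 : Real.log (2 * (k : ℝ)) ≤ 2 * √(k : ℝ) := by
    rw [Real.log_mul (by norm_num) hk0.ne']
    have h1 := Real.log_le_sub_one_of_pos (x := (2 : ℝ)) (by norm_num)
    linarith
  have hl0 : 0 ≤ Real.log (2 * (k : ℝ)) := by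
    apply Real.log_nonneg
    have : (1 : ℝ) ≤ k := by
      have : 1 ≤ k := by omega
      exact_mod_cast this
    linarith
  rw [← mul_div_assoc, le_div_iff₀ hs0]
  calc Real.log (2 * (k : ℝ)) * s ≤ (2 * √(k : ℝ)) * (2 * √(k : ℝ)) := by
        refine mul_le_mul hl2 (by linarith) hs0.le (by positivity)
    _ = 4 * k := by rw [← hq]; ring_nf; rw [Real.sq_sqrt (by positivity)]

theorem main : S_grp → S_steps2 := by
  rintro ⟨C, hC, hgrp⟩
  refine ⟨C + 4, by linarith, fun k s hk hs h8 T hT => ?_⟩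
  obtain ⟨g, R, hR, hg⟩ := hgrp k s hk hs h8 T hT
  obtain ⟨m, hm1, hm2⟩ := exists_pow k (by omega)
  refine ⟨(List.range s).map fun j => 2 ^ m * R j, by simp, ?_, ?_⟩
  · intro Λ hΛ
    rw [List.mem_map] at hΛ
    obtain ⟨j, hj, rfl⟩ := hΛ
    rw [List.mem_range] at hj
    obtain ⟨hR0, hRc, hRl⟩ := hR j hj
    refine ⟨by positivity, fun ℓ hℓ => ?_, ?_⟩
    · obtain ⟨hp, _, h2, hne⟩ := hT ℓ hℓ
      refine Nat.Coprime.mul_right ?_ (hRc ℓ hℓ)
      exact Nat.Coprime.pow_right m ((Nat.coprime_primes hp Nat.prime_two).mpr hne)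
    · have hk0 : (0 : ℝ) < k := by
        have : 0 < k := by omega
        exact_mod_cast this
      have hRR : (0 : ℝ) < R j := by exact_mod_cast hR0
      have h1 : Real.log ((2 ^ m * R j : ℕ) : ℝ) ≤ Real.log (2 * k) + Real.log (R j) := by
        rw [← Real.log_mul (by positivity) (by positivity)]
        refine Real.log_le_log (by positivity) ?_
        have h2 : 2 ^ m * R j ≤ 2 * k * R j := Nat.mul_le_mul_right _ hm2
        exact_mod_cast h2
      have h3 := log_two_mul_le k s hk hs h8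
      calc Real.log ((2 ^ m * R j : ℕ) : ℝ) ≤ 4 * (k / s) + C * (k / s) := by linarith
        _ = (C + 4) * (k / s) := by ring
  · rw [List.map_map, list_prod]
    have hD : DD k = (∏ i ∈ Icc 1 k, (1 - X ^ hh T i : (ZMod 2)[X])) * ∏ ℓ ∈ T, Phi ℓ := by
      unfold DD
      rw [Finset.prod_congr rfl fun i _ => one_eq T i, prod_mul_distrib]
      congr 1
      rw [Finset.prod_ite_mem]
      congr 1
      rw [Finset.inter_eq_right]
      intro ℓ hℓ
      obtain ⟨hp, h1, _, _⟩ := hT ℓ hℓ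
      exact mem_Icc.mpr ⟨hp.one_le, h1⟩
    rw [hD]
    refine mul_dvd_mul_right ?_ _
    have hmaps : ∀ i ∈ Icc 1 k, gg T g i ∈ range s := by
      intro i hi
      rw [mem_range]
      unfold gg
      split_ifs with h
      · omega
      · exact (hg i hi h).1
    rw [← Finset.prod_fiberwise_of_maps_to hmaps]
    apply Finset.prod_dvd_prod_of_dvd
    intro j _
    refine prod_dvd' _ (hh T) (R j) m ?_ ?_
    · intro i hi
      rw [mem_filter] at hi
      obtain ⟨hi1, hi2⟩ := hi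
      unfold gg at hi2
      unfold hh
      split_ifs at hi2 ⊢ with h
      · exact one_dvd _
      · rw [← hi2]
        exact (hg i hi1 h).2
    · refine (card_filter_le _ _).trans ?_
      rw [Nat.card_Icc]
      omega

end Pool.Agent.H557.SI.ASM
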