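import Pool.Agent.H557.SI.Stm

/-!
# Task SI-BLK: a small common multiple of the numbers in an interval (helper597)
-/

set_option autoImplicit false

namespace Pool.Agent.H557.SI.BLK

open Finset Nat

theorem LL_log (k : ℕ) : Real.log (LL k) ≤ 5.4 * k := by
  have h1 : Chebyshev.psi (k : ℝ) = Real.log (LL k) := Chebyshev.psi_eq_log_lcmUpto k
  have h2 := Chebyshev.psi_le_const_mul_self (x := (k : ℝ)) (Nat.cast_nonneg k)
  rw [h1] at h2
  have hlog4 : Real.log 4 ≤ 1.39 := by
    rw [show (4 : ℝ) = 2 ^ 2 by norm_num, Real.log_pow]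
    have := Real.log_two_lt_d9
    push_cast
    linarith
  have h5 : (0 : ℝ) ≤ k := Nat.cast_nonneg k
  nlinarith

theorem dvd_LL {i b : ℕ} (h1 : 1 ≤ i) (h2 : i ≤ b) : i ∣ LL b :=
  Finset.dvd_lcm (f := id) (mem_Icc.2 ⟨h1, h2⟩)

theorem choose_dvd {n j b : ℕ} (hj : j ≤ n) (hn : n ≤ b) : n.choose j ∣ LL b := by
  rcases Nat.eq_zero_or_pos n with h0 | h0
  · subst h0
    have : j = 0 := by omega
    subst this
    rw [Nat.choose_self]
    exact one_dvd _
  · rw [← Nat.factorization_prime_le_iff_dvd (Nat.choose_pos hj).ne' (LL_pos b).ne']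
    intro p hp
    rw [← hp.pow_dvd_iff_le_factorization (LL_pos b).ne']
    exact dvd_LL (Nat.pow_pos hp.pos) ((Nat.pow_factorization_choose_le h0).trans hn)

theorem key (x j d : ℕ) :
    (x + j + 1) * (x + j).choose j * (x + j + 1 + d).choose d =
      (j + d + 1) * (j + d).choose j * (x + (j + d + 1)).choose (j + d + 1) := by
  have e1 := Nat.choose_mul_factorial_mul_factorial (Nat.le_add_left j x)
  have e2 := Nat.choose_mul_factorial_mul_factorial (Nat.le_add_left d (x + j + 1))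
  have e3 := Nat.choose_mul_factorial_mul_factorial (Nat.le_add_right j d)
  have e4 := Nat.choose_mul_factorial_mul_factorial (Nat.le_add_left (j + d + 1) x)
  rw [Nat.add_sub_cancel] at e1 e2 e4
  rw [Nat.add_sub_cancel_left] at e3
  have e5 : (x + j + 1 + d)! = (x + (j + d + 1))! := by
    congr 1
    ring
  refine Nat.eq_of_mul_eq_mul_right (by positivity : 0 < j ! * x ! * d !) ?_
  calc (x + j + 1) * (x + j).choose j * (x + j + 1 + d).choose d * (j ! * x ! * d !)
      = ((x + j + 1) * ((x + j).choose j * j ! * x !)) * ((x + j + 1 + d).choose d * d !) := by ring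
    _ = (x + j + 1)! * ((x + j + 1 + d).choose d * d !) := by
        rw [e1, ← Nat.factorial_succ]
    _ = (x + j + 1 + d).choose d * d ! * (x + j + 1)! := by ring
    _ = (x + (j + d + 1))! := by rw [e2, e5]
    _ = (x + (j + d + 1)).choose (j + d + 1) * (j + d + 1)! * x ! := e4.symm
    _ = (x + (j + d + 1)).choose (j + d + 1) * ((j + d + 1) * ((j + d).choose j * j ! * d !)) *
        x ! := by
        rw [e3, ← Nat.factorial_succ]
    _ = _ := by ring

theorem log_choose_le (x b : ℕ) (hb : 1 ≤ b) :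
    Real.log ((x + b).choose b) ≤ b * (1 + Real.log ((x + b : ℕ) / b)) := by
  have hb0 : (0 : ℝ) < b := by exact_mod_cast hb
  have hxb : (0 : ℝ) < ((x + b : ℕ) : ℝ) := by exact_mod_cast (by omega : 0 < x + b)
  have h1 : ((x + b).choose b : ℝ) ≤ ((x + b : ℕ) : ℝ) ^ b / (b ! : ℝ) :=
    Nat.choose_le_pow_div b (x + b)
  have h2 := Real.pow_div_factorial_le_exp (b : ℝ) hb0.le b
  have hf : (0 : ℝ) < (b ! : ℝ) := by exact_mod_cast Nat.factorial_pos b
  have h3 : ((x + b).choose b : ℝ) ≤ Real.exp b * (((x + b : ℕ) : ℝ) / b) ^ b := by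
    refine h1.trans ?_
    calc ((x + b : ℕ) : ℝ) ^ b / (b ! : ℝ) = ((b : ℝ) ^ b / (b ! : ℝ)) * (((x + b : ℕ) : ℝ) / b) ^ b := by
          rw [div_pow]
          field_simp
      _ ≤ _ := mul_le_mul_of_nonneg_right h2 (by positivity)
  have hc : (0 : ℝ) < ((x + b).choose b : ℝ) := by
    exact_mod_cast Nat.choose_pos (Nat.le_add_left b x)
  refine (Real.log_le_log hc h3).trans (le_of_eq ?_)
  rw [Real.log_mul (Real.exp_pos _).ne' (pow_pos (div_pos hxb hb0) b).ne', Real.log_exp,
    Real.log_pow]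
  ring

theorem main : S_blk := by
  intro x b hb
  have hc : 0 < (x + b).choose b := Nat.choose_pos (Nat.le_add_left b x)
  have hL := LL_pos b
  refine ⟨(x + b).choose b * (LL b * LL b), by positivity, fun i hi => ?_, ?_⟩
  · rw [mem_Icc] at hi
    obtain ⟨j, hj⟩ : ∃ j, i = x + j + 1 := ⟨i - x - 1, by omega⟩
    obtain ⟨d, hd⟩ : ∃ d, b = j + d + 1 := ⟨b - j - 1, by omega⟩
    have h1 : i ∣ (j + d + 1) * (j + d).choose j * (x + (j + d + 1)).choose (j + d + 1) := by
      rw [← key, hj]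
      exact (dvd_mul_right _ _).mul_right _
    rw [← hd] at h1
    refine h1.trans ?_
    rw [mul_comm ((x + b).choose b)]
    exact mul_dvd_mul (mul_dvd_mul (dvd_LL hb le_rfl) (choose_dvd (by omega) (by omega)))
      dvd_rfl
  · have h1 := log_choose_le x b hb
    have h2 := LL_log b
    have hc' : (((x + b).choose b : ℕ) : ℝ) ≠ 0 := by exact_mod_cast hc.ne'
    have hL' : ((LL b : ℕ) : ℝ) ≠ 0 := by exact_mod_cast hL.ne'
    have hb0 : (0 : ℝ) ≤ b := Nat.cast_nonneg b
    rw [Nat.cast_mul, Nat.cast_mul, Real.log_mul hc' (mul_ne_zero hL' hL'), Real.log_mul hL' hL']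
    have h3 : (b : ℝ) * (13 + Real.log ((x + b : ℕ) / b)) =
        b * (1 + Real.log ((x + b : ℕ) / b)) + 12 * b := by ring
    rw [h3]
    linarith

end Pool.Agent.H557.SI.BLK
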