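import Pool.Agent.H557.SI.Num
import Pool.Agent.H557.Final

set_option autoImplicit false

namespace Pool.Agent.H557.SI

open Polynomial Finset

/-- Counting patterns along a progression from bias bounds. -/
theorem pattern_count' {k q : ℕ} (r0 : ℤ) (N : ℕ) (hN : 0 < N) (D : Finset ℕ) (w : ℕ → ZMod 2)
    (ε : ℝ) (hε : ∀ B ⊆ D, B.Nonempty →
      |av 0 N (fun m => ∑ d ∈ B, cc k (r0 + q * m + d))| ≤ ε) (hε0 : 0 ≤ ε) :
    |2 ^ D.card * (((Finset.range N).filter
        (fun m : ℕ => ∀ d ∈ D, cc k (r0 + q * m + d) = w d)).card : ℝ) - N| ≤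
      2 ^ D.card * (N * ε) := by
  classical
  have hN0 : (0 : ℝ) < N := by exact_mod_cast hN
  have hind : ∀ n : ℕ, (if (∀ d ∈ D, cc k (r0 + q * n + d) = w d)
      then (1 : ℝ) else 0) * 2 ^ D.card = ∏ d ∈ D, (1 + chi (cc k (r0 + q * n + d) + w d)) := by
    intro n
    by_cases h2 : ∀ d ∈ D, cc k (r0 + q * n + d) = w d
    · rw [if_pos h2, one_mul]
      rw [Finset.prod_congr rfl (g := fun _ => (2 : ℝ))]
      · rw [Finset.prod_const]
      · intro d hd
        rw [h2 d hd]
        rw [two_eq, chi_zero]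
        norm_num
    · rw [if_neg h2, zero_mul]
      push Not at h2
      obtain ⟨d, hd, hne⟩ := h2
      symm
      apply Finset.prod_eq_zero hd
      have : ∀ a b : ZMod 2, a ≠ b → ¬ a + b = 0 := by decide
      unfold chi
      rw [if_neg (this _ _ hne)]
      norm_num
  have hcount : (((Finset.range N).filter
        (fun m : ℕ => ∀ d ∈ D, cc k (r0 + q * m + d) = w d)).card : ℝ) =
      ∑ n ∈ Finset.range N, (if (∀ d ∈ D, cc k (r0 + q * (n : ℕ) + d) = w d)
        then (1 : ℝ) else 0) := by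
    rw [Finset.sum_boole]
  have hexp : 2 ^ D.card * (((Finset.range N).filter
        (fun m : ℕ => ∀ d ∈ D, cc k (r0 + q * m + d) = w d)).card : ℝ) =
      ∑ B ∈ D.powerset, chi (∑ d ∈ B, w d) * ∑ n ∈ Finset.range N,
        chi (∑ d ∈ B, cc k (r0 + q * (n : ℕ) + d)) := by
    rw [hcount, Finset.mul_sum]
    calc ∑ n ∈ Finset.range N, 2 ^ D.card * (if (∀ d ∈ D, cc k (r0 + q * (n : ℕ) + d) = w d)
          then (1 : ℝ) else 0)
        = ∑ n ∈ Finset.range N, ∑ B ∈ D.powerset, chi (∑ d ∈ B, w d) *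
          (chi (∑ d ∈ B, cc k (r0 + q * (n : ℕ) + d))) := by
          refine Finset.sum_congr rfl fun n _ => ?_
          rw [mul_comm, hind n, Finset.prod_one_add]
          refine Finset.sum_congr rfl fun B _ => ?_
          rw [← chi_sum, Finset.sum_add_distrib, chi_add]
          ring
      _ = _ := by
          rw [Finset.sum_comm]
          refine Finset.sum_congr rfl fun B _ => ?_
          rw [Finset.mul_sum]
  rw [hexp, ← Finset.add_sum_erase _ _ (Finset.empty_mem_powerset D)]
  have h0 : chi (∑ d ∈ (∅ : Finset ℕ), w d) * ∑ n ∈ Finset.range N,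
        chi (∑ d ∈ (∅ : Finset ℕ), cc k (r0 + q * (n : ℕ) + d)) = N := by
    simp only [Finset.sum_empty, chi_zero, one_mul, Finset.sum_const, Finset.card_range,
      nsmul_eq_mul, mul_one]
  rw [h0, add_sub_cancel_left]
  refine (Finset.abs_sum_le_sum_abs _ _).trans ?_
  calc ∑ B ∈ D.powerset.erase ∅, |chi (∑ d ∈ B, w d) * ∑ n ∈ Finset.range N,
        chi (∑ d ∈ B, cc k (r0 + q * (n : ℕ) + d))|
      ≤ ∑ _B ∈ D.powerset.erase ∅, (N : ℝ) * ε := by
        refine Finset.sum_le_sum fun B hB => ?_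
        rw [abs_mul, abs_chi, one_mul]
        rw [Finset.mem_erase, Finset.mem_powerset] at hB
        have h1 := hε B hB.2 (Finset.nonempty_iff_ne_empty.mpr hB.1)
        unfold av at h1
        rw [abs_div, abs_of_pos hN0, div_le_iff₀ hN0] at h1
        simp only [zero_add] at h1
        linarith
    _ = ((D.powerset.erase ∅).card : ℝ) * (N * ε) := by
        rw [Finset.sum_const, nsmul_eq_mul]
    _ ≤ 2 ^ D.card * (N * ε) := by
        apply mul_le_mul_of_nonneg_right _ (by positivity)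
        have : (D.powerset.erase ∅).card ≤ 2 ^ D.card := by
          rw [← Finset.card_powerset]
          exact Finset.card_le_card (Finset.erase_subset _ _)
        exact_mod_cast this

/-- The members of a residue class in an interval form a progression. -/
theorem progression {q : ℕ} (hq : 0 < q) (ρ x N : ℕ) (hN : q ≤ N) :
    ∃ r0 N' : ℕ, (N : ℝ) / q - 1 ≤ N' ∧ (N' : ℝ) ≤ N / q + 1 ∧
      ∀ (p : ℕ → Prop) [DecidablePred p],
        ((Finset.Ico x (x + N)).filter fun n => n ≡ ρ [MOD q] ∧ p n).card =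
          ((Finset.range N').filter fun m => p (r0 + q * m)).card := by
  obtain ⟨δ, hδ⟩ : ∃ δ, δ = (ρ + (q - 1) * x) % q := ⟨_, rfl⟩
  have hδq : δ < q := by rw [hδ]; exact Nat.mod_lt _ hq
  have hr : x + δ ≡ ρ [MOD q] := by
    have h1 : δ ≡ ρ + (q - 1) * x [MOD q] := by
      rw [hδ]
      exact Nat.mod_modEq _ _
    have h2 : x + δ ≡ x + (ρ + (q - 1) * x) [MOD q] := Nat.ModEq.add_left x h1
    have h3 : x + (ρ + (q - 1) * x) = ρ + q * x := by
      obtain ⟨q', rfl⟩ : ∃ q', q = q' + 1 := ⟨q - 1, by omega⟩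
      rw [Nat.add_sub_cancel]
      ring
    rw [h3] at h2
    refine h2.trans ?_
    have h4 : ρ + q * x ≡ ρ + 0 [MOD q] :=
      Nat.ModEq.add_left ρ ((Nat.modEq_zero_iff_dvd).mpr (dvd_mul_right q x))
    simpa using h4
  obtain ⟨N', hN'⟩ : ∃ N', N' = (N - δ + q - 1) / q := ⟨_, rfl⟩
  have hiff : ∀ m : ℕ, m < N' ↔ δ + q * m < N := by
    intro m
    rw [hN', Nat.lt_iff_add_one_le, Nat.le_div_iff_mul_le hq]
    have : (m + 1) * q = q * m + q := by ring
    rw [this]
    omega
  have hq0 : (0 : ℝ) < q := by exact_mod_cast hq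
  refine ⟨x + δ, N', ?_, ?_, ?_⟩
  · have h1 : ¬ N' < N' := lt_irrefl _
    rw [hiff] at h1
    have h2 : N ≤ q * N' + q := by omega
    have h3 : (N : ℝ) ≤ q * N' + q := by exact_mod_cast h2
    rw [sub_le_iff_le_add, div_le_iff₀ hq0]
    linarith
  · have h1 : N' * q ≤ N - δ + q - 1 := by
      rw [hN']
      exact Nat.div_mul_le_self _ _
    have h2 : N' * q ≤ N + q := by omega
    have h3 : (N' : ℝ) * q ≤ N + q := by exact_mod_cast h2
    have h4 : (N : ℝ) / q + 1 = (N + q) / q := by field_simp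
    rw [h4, le_div_iff₀ hq0]
    exact h3
  · intro p _
    symm
    refine Finset.card_bij (fun m _ => x + δ + q * m) ?_ ?_ ?_
    · intro m hm
      rw [Finset.mem_filter, Finset.mem_range, hiff] at hm
      rw [Finset.mem_filter, Finset.mem_Ico]
      refine ⟨⟨by omega, by omega⟩, ?_, hm.2⟩
      have h4 : x + δ + q * m ≡ x + δ + 0 [MOD q] :=
        Nat.ModEq.add_left _ ((Nat.modEq_zero_iff_dvd).mpr (dvd_mul_right q m))
      rw [add_zero] at h4
      exact h4.trans hr
    · intro a _ b _ hab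
      have h1 : q * a = q * b := by
        have : x + δ + q * a = x + δ + q * b := hab
        omega
      exact Nat.eq_of_mul_eq_mul_left hq h1
    · intro n hn
      rw [Finset.mem_filter, Finset.mem_Ico] at hn
      obtain ⟨⟨hn1, hn2⟩, hn3, hn4⟩ := hn
      have h1 : n ≡ x + δ [MOD q] := hn3.trans hr.symm
      have hge : x + δ ≤ n := by
        by_contra hlt
        push Not at hlt
        have h2 : q ∣ x + δ - n := (Nat.modEq_iff_dvd' hlt.le).mp h1
        have h3 := Nat.le_of_dvd (by omega) h2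
        omega
      have h2 : q ∣ n - (x + δ) := (Nat.modEq_iff_dvd' hge).mp h1.symm
      obtain ⟨m, hm⟩ := h2
      have hnm : x + δ + q * m = n := by omega
      refine ⟨m, ?_, hnm⟩
      rw [Finset.mem_filter, Finset.mem_range, hiff]
      refine ⟨by omega, ?_⟩
      rw [hnm]
      exact hn4

end Pool.Agent.H557.SI
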