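import Pool.Agent.H557.SI.Stm

/-!
Project SI (helper557): evaluation of the iterated average (helper707).
-/

set_option autoImplicit false

namespace Pool.Agent.H557.SI.EVAL

open Finset

theorem kill_zero : ∀ L : List ℕ, Kill L (fun _ => 0)
  | [] => fun _ => rfl
  | Λ :: L => by
    show Kill L (fun n : ℤ => (0 : ZMod 2) + 0)
    rw [add_zero]
    exact kill_zero L

theorem kill_add : ∀ (L : List ℕ) (ρ ρ' : ℤ → ZMod 2), Kill L ρ → Kill L ρ' →
    Kill L (fun n => ρ n + ρ' n)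
  | [], ρ, ρ', h, h' => fun n => by
    show ρ n + ρ' n = 0
    rw [h n, h' n, add_zero]
  | Λ :: L, ρ, ρ', h, h' => by
    have := kill_add L _ _ h h'
    show Kill L (fun n : ℤ => (ρ (n + Λ) + ρ' (n + Λ)) + (ρ n + ρ' n))
    have e : (fun n : ℤ => (ρ (n + Λ) + ρ' (n + Λ)) + (ρ n + ρ' n)) =
        fun n : ℤ => (ρ (n + Λ) + ρ n) + (ρ' (n + Λ) + ρ' n) := by
      funext n
      ring
    rw [e]
    exact this

theorem kill_shift : ∀ (L : List ℕ) (ρ : ℤ → ZMod 2) (c : ℤ), Kill L ρ →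
    Kill L (fun n => ρ (n + c))
  | [], ρ, c, h => fun n => h _
  | Λ :: L, ρ, c, h => by
    have := kill_shift L _ c h
    show Kill L (fun n : ℤ => ρ (n + Λ + c) + ρ (n + c))
    have e : (fun n : ℤ => ρ (n + Λ + c) + ρ (n + c)) =
        fun n : ℤ => ρ (n + c + Λ) + ρ (n + c) := by
      funext n
      rw [add_right_comm]
    rw [e]
    exact this

theorem kill_tel (L : List ℕ) (Λ : ℕ) (ρ : ℤ → ZMod 2) (h : Kill (Λ :: L) ρ) (m : ℕ) :
    Kill L (fun n => ρ (n + ((Λ * m : ℕ) : ℤ)) + ρ n) := by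
  have h2 : ∀ a : ZMod 2, a + a = 0 := by decide
  induction m with
  | zero =>
    have e : (fun n : ℤ => ρ (n + ((Λ * 0 : ℕ) : ℤ)) + ρ n) = fun _ => 0 := by
      funext n
      simp [h2]
    rw [e]
    exact kill_zero L
  | succ m ih =>
    have h1 := kill_shift L _ ((Λ * m : ℕ) : ℤ) h
    have h3 := kill_add L _ _ h1 ih
    have e : (fun n : ℤ => ρ (n + ((Λ * (m + 1) : ℕ) : ℤ)) + ρ n) = fun n : ℤ =>
        (ρ (n + ((Λ * m : ℕ) : ℤ) + Λ) + ρ (n + ((Λ * m : ℕ) : ℤ))) +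
          (ρ (n + ((Λ * m : ℕ) : ℤ)) + ρ n) := by
      funext n
      have e1 : n + ((Λ * (m + 1) : ℕ) : ℤ) = n + ((Λ * m : ℕ) : ℤ) + Λ := by
        push_cast
        ring
      rw [e1]
      have := h2 (ρ (n + ((Λ * m : ℕ) : ℤ)))
      rw [add_assoc (ρ (n + ((Λ * m : ℕ) : ℤ) + Λ)), ← add_assoc (ρ (n + ((Λ * m : ℕ) : ℤ))) _ (ρ n),
        this, zero_add]
    rw [e]
    exact h3

theorem kill_two (L : List ℕ) (Λ : ℕ) (ρ : ℤ → ZMod 2) (h : Kill (Λ :: L) ρ) (m m' : ℕ) :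
    Kill L (fun n => ρ (n + ((Λ * m : ℕ) : ℤ)) + ρ (n + ((Λ * m' : ℕ) : ℤ))) := by
  have h2 : ∀ a : ZMod 2, a + a = 0 := by decide
  have h1 := kill_add L _ _ (kill_tel L Λ ρ h m) (kill_tel L Λ ρ h m')
  have e : (fun n : ℤ => ρ (n + ((Λ * m : ℕ) : ℤ)) + ρ (n + ((Λ * m' : ℕ) : ℤ))) =
      fun n : ℤ => (ρ (n + ((Λ * m : ℕ) : ℤ)) + ρ n) + (ρ (n + ((Λ * m' : ℕ) : ℤ)) + ρ n) := by
    funext n
    have := h2 (ρ n)
    rw [add_assoc (ρ (n + ((Λ * m : ℕ) : ℤ))), add_comm (ρ (n + ((Λ * m' : ℕ) : ℤ))) (ρ n),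
      ← add_assoc (ρ n), this, zero_add]
  rw [e]
  exact h1

theorem per_mul {α : Type} (f : ℤ → α) (l : ℕ) (h : ∀ n, f (n + l) = f n) (n : ℤ) (q : ℕ) :
    f (n + ((l * q : ℕ) : ℤ)) = f n := by
  induction q with
  | zero => simp
  | succ q ih =>
    rw [← ih, ← h (n + ((l * q : ℕ) : ℤ))]
    congr 1
    push_cast
    ring

theorem reidx (l c : ℕ) (hl : 0 < l) (hc : Nat.Coprime l c) (H : ℕ → ℝ)
    (hH : ∀ n, H (n % l) = H n) : ∑ u ∈ range l, H (c * u) = ∑ u ∈ range l, H u := by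
  classical
  have hinj : Set.InjOn (fun u => c * u % l) (range l : Set ℕ) := by
    intro u hu v hv huv
    rw [mem_coe, mem_range] at hu hv
    have h1 : c * u ≡ c * v [MOD l] := huv
    have h2 : u ≡ v [MOD l] := Nat.ModEq.cancel_left_of_coprime hc h1
    unfold Nat.ModEq at h2
    rwa [Nat.mod_eq_of_lt hu, Nat.mod_eq_of_lt hv] at h2
  have him : (range l).image (fun u => c * u % l) = range l := by
    apply eq_of_subset_of_card_le
    · intro x hx
      rw [mem_image] at hx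
      obtain ⟨u, -, rfl⟩ := hx
      rw [mem_range]
      exact Nat.mod_lt _ hl
    · rw [card_image_of_injOn hinj]
  calc ∑ u ∈ range l, H (c * u) = ∑ u ∈ range l, H (c * u % l) :=
        sum_congr rfl fun u _ => (hH _).symm
    _ = ∑ x ∈ (range l).image (fun u => c * u % l), H x := (sum_image hinj).symm
    _ = ∑ u ∈ range l, H u := by rw [him]

open scoped Classical in
/-- the digits as a function of all natural numbers -/
noncomputable def ex (T : Finset ℕ) (t : ∀ l ∈ T, ℕ) (l : ℕ) : ℕ := if h : l ∈ T then t l h else 0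

theorem ex_mem (T : Finset ℕ) (t : ∀ l ∈ T, ℕ) (l : ℕ) (h : l ∈ T) : ex T t l = t l h := by
  unfold ex
  rw [dif_pos h]

theorem prod2 (T : Finset ℕ) (g : ℕ → ℕ → ℕ → ℝ) :
    ∑ t ∈ idx T, ∑ t' ∈ idx T, ∏ l ∈ T, g l (ex T t l) (ex T t' l) =
      ∏ l ∈ T, ∑ u ∈ range l, ∑ v ∈ range l, g l u v := by
  rw [prod_sum]
  unfold idx
  refine sum_congr rfl fun t _ => ?_
  have e : ∏ x ∈ T.attach, ∑ v ∈ range x.1, g x.1 (t x.1 x.2) v =
      ∏ l ∈ T, ∑ v ∈ range l, g l (ex T t l) v := by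
    rw [← prod_attach T (fun l => ∑ v ∈ range l, g l (ex T t l) v)]
    refine prod_congr rfl fun x _ => ?_
    rw [ex_mem T t x.1 x.2]
  rw [e, prod_sum]
  refine sum_congr rfl fun t' _ => ?_
  rw [← prod_attach T (fun l => g l (ex T t l) (ex T t' l))]
  refine prod_congr rfl fun x _ => ?_
  rw [ex_mem T t' x.1 x.2]

theorem shf_eq (T : Finset ℕ) (Λ : ℕ) (t : ∀ l ∈ T, ℕ) (l : ℕ) (hl : l ∈ T) :
    ∃ q : ℕ, shf T Λ t = Λ * (∏ m ∈ T.erase l, m) * ex T t l + l * q := by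
  classical
  have h1 : ∑ x ∈ T.attach, t x.1 x.2 * ∏ m ∈ T.erase x.1, m =
      ∑ a ∈ T, ex T t a * ∏ m ∈ T.erase a, m := by
    rw [← sum_attach T (fun a => ex T t a * ∏ m ∈ T.erase a, m)]
    refine sum_congr rfl fun x _ => ?_
    rw [ex_mem T t x.1 x.2]
  have h2 : ∃ q, ∑ a ∈ T.erase l, ex T t a * ∏ m ∈ T.erase a, m = l * q := by
    have : l ∣ ∑ a ∈ T.erase l, ex T t a * ∏ m ∈ T.erase a, m := by
      refine dvd_sum fun a ha => ?_
      rw [mem_erase] at ha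
      apply Dvd.dvd.mul_left
      apply dvd_prod_of_mem
      rw [mem_erase]
      exact ⟨ha.1.symm, hl⟩
    exact this
  obtain ⟨q, hq⟩ := h2
  refine ⟨Λ * q, ?_⟩
  unfold shf
  rw [h1, ← add_sum_erase T _ hl, hq]
  ring

theorem main : S_one → S_eval := by
  classical
  intro h1 T hT x N hN Λs
  induction Λs with
  | nil =>
    intro _ β ρ hβ hρ
    have e : (fun n => ∑ l ∈ T, β l n + ρ n) = fun n => ∑ l ∈ T, β l n := by
      funext n
      rw [hρ n, add_zero]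
    rw [e]
    exact h1 T hT x N hN β hβ
  | cons Λ L ih =>
    intro hΛ β ρ hβ hρ
    have hΛ1 : ∀ l ∈ T, Nat.Coprime l Λ := hΛ Λ List.mem_cons_self
    have hΛ2 : ∀ Λ ∈ L, ∀ l ∈ T, Nat.Coprime l Λ := fun m hm => hΛ m (List.mem_cons_of_mem _ hm)
    obtain ⟨R, hR⟩ : ∃ R : ℕ → ℕ, ∀ l, R l = ∏ m ∈ T.erase l, m := ⟨_, fun _ => rfl⟩
    obtain ⟨E, hE⟩ : ∃ E : ℝ, E = 2 * (T.card * ∏ l ∈ T, l : ℕ) / N := ⟨_, rfl⟩
    obtain ⟨g, hg⟩ : ∃ g : ℕ → ℕ → ℕ → ℝ, ∀ l u v, g l u v = gam l L.length (fun n =>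
      β l (n + ((Λ * R l * u : ℕ) : ℤ)) + β l (n + ((Λ * R l * v : ℕ) : ℤ))) :=
      ⟨_, fun _ _ _ => rfl⟩
    have key : ∀ t t' : ∀ l ∈ T, ℕ, PH (idx T) x N (L.map (shf T))
        (fun n => (fun n => ∑ l ∈ T, β l n + ρ n) (n + (shf T Λ t : ℤ)) +
          (fun n => ∑ l ∈ T, β l n + ρ n) (n + (shf T Λ t' : ℤ))) ≤
        ∏ l ∈ T, g l (ex T t l) (ex T t' l) + E := by
      intro t t'
      have hs : ∀ t : ∀ l ∈ T, ℕ, ∀ l ∈ T, ∀ n : ℤ, β l (n + (shf T Λ t : ℤ)) =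
          β l (n + ((Λ * R l * ex T t l : ℕ) : ℤ)) := by
        intro t l hl n
        obtain ⟨q, hq⟩ := shf_eq T Λ t l hl
        rw [hq, hR, Nat.cast_add, ← add_assoc]
        exact per_mul (β l) l (hβ l hl) _ q
      have e : (fun n => (fun n => ∑ l ∈ T, β l n + ρ n) (n + (shf T Λ t : ℤ)) +
          (fun n => ∑ l ∈ T, β l n + ρ n) (n + (shf T Λ t' : ℤ))) =
          fun n => ∑ l ∈ T, (fun (l : ℕ) (n : ℤ) => β l (n + ((Λ * R l * ex T t l : ℕ) : ℤ)) +
            β l (n + ((Λ * R l * ex T t' l : ℕ) : ℤ))) l n +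
            (fun n => ρ (n + (shf T Λ t : ℤ)) + ρ (n + (shf T Λ t' : ℤ))) n := by
        funext n
        show (∑ l ∈ T, β l (n + (shf T Λ t : ℤ)) + ρ (n + (shf T Λ t : ℤ))) +
          (∑ l ∈ T, β l (n + (shf T Λ t' : ℤ)) + ρ (n + (shf T Λ t' : ℤ))) =
          ∑ l ∈ T, (β l (n + ((Λ * R l * ex T t l : ℕ) : ℤ)) +
            β l (n + ((Λ * R l * ex T t' l : ℕ) : ℤ))) +
            (ρ (n + (shf T Λ t : ℤ)) + ρ (n + (shf T Λ t' : ℤ)))
        rw [sum_add_distrib, sum_congr rfl fun l hl => hs t l hl n,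
          sum_congr rfl fun l hl => hs t' l hl n]
        ring
      rw [e]
      have h3 := ih hΛ2 (fun (l : ℕ) (n : ℤ) => β l (n + ((Λ * R l * ex T t l : ℕ) : ℤ)) +
            β l (n + ((Λ * R l * ex T t' l : ℕ) : ℤ)))
            (fun n => ρ (n + (shf T Λ t : ℤ)) + ρ (n + (shf T Λ t' : ℤ))) (by
        intro l hl n
        show β l (n + l + ((Λ * R l * ex T t l : ℕ) : ℤ)) +
            β l (n + l + ((Λ * R l * ex T t' l : ℕ) : ℤ)) = _
        rw [add_right_comm, hβ l hl, add_right_comm, hβ l hl]) (by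
        unfold shf
        exact kill_two L Λ ρ hρ _ _)
      refine h3.trans ?_
      rw [hE]
      apply le_of_eq
      congr 1
      refine prod_congr rfl fun l _ => ?_
      rw [hg]
    have hcard : ((idx T).card : ℝ) = ∏ l ∈ T, (l : ℝ) := by
      unfold idx
      rw [card_pi, Nat.cast_prod]
      simp
    have hpos : ∀ l ∈ T, (0 : ℝ) < l := fun l hl => by
      exact_mod_cast (hT l hl).pos
    have hcp : (0 : ℝ) < (idx T).card := by
      rw [hcard]
      exact prod_pos hpos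
    show (∑ i ∈ idx T, ∑ j ∈ idx T, PH (idx T) x N (L.map (shf T))
        (fun n => (fun n => ∑ l ∈ T, β l n + ρ n) (n + (shf T Λ i : ℤ)) +
          (fun n => ∑ l ∈ T, β l n + ρ n) (n + (shf T Λ j : ℤ)))) / ((idx T).card : ℝ) ^ 2 ≤
      ∏ l ∈ T, gam l (L.length + 1) (β l) + 2 * (T.card * ∏ l ∈ T, l : ℕ) / N
    rw [← hE, div_le_iff₀ (by positivity)]
    refine (sum_le_sum fun i _ => sum_le_sum fun j _ => key i j).trans ?_
    have e1 : ∑ i ∈ idx T, ∑ j ∈ idx T, (∏ l ∈ T, g l (ex T i l) (ex T j l) + E) =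
        ∏ l ∈ T, (∑ u ∈ range l, ∑ v ∈ range l, g l u v) + E * ((idx T).card : ℝ) ^ 2 := by
      rw [← prod2]
      simp only [sum_add_distrib, sum_const, nsmul_eq_mul]
      ring
    have e2 : (∏ l ∈ T, gam l (L.length + 1) (β l)) * ((idx T).card : ℝ) ^ 2 =
        ∏ l ∈ T, (∑ u ∈ range l, ∑ v ∈ range l, g l u v) := by
      rw [hcard, ← prod_pow, ← prod_mul_distrib]
      refine prod_congr rfl fun l hl => ?_
      have hl0 := hpos l hl
      have hlp := (hT l hl).pos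
      have hco : Nat.Coprime l (Λ * R l) := by
        apply Nat.Coprime.mul_right (hΛ1 l hl)
        rw [hR]
        apply Nat.Coprime.prod_right
        intro m hm
        rw [mem_erase] at hm
        exact (Nat.coprime_primes (hT l hl) (hT m hm.2)).2 hm.1.symm
      show (∑ u ∈ range l, ∑ v ∈ range l, gam l L.length (fun n => β l (n + u) + β l (n + v))) /
        (l : ℝ) ^ 2 * (l : ℝ) ^ 2 = _
      rw [div_mul_cancel₀ _ (by positivity)]
      have hm : ∀ (a : ℕ) (n : ℤ), β l (n + ((a % l : ℕ) : ℤ)) = β l (n + a) := by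
        intro a n
        conv_rhs => rw [← Nat.mod_add_div a l]
        rw [Nat.cast_add, ← add_assoc]
        exact (per_mul (β l) l (hβ l hl) _ _).symm
      have r1 := reidx l (Λ * R l) hlp hco (fun a => ∑ v ∈ range l,
        gam l L.length (fun n => β l (n + a) + β l (n + v))) (by
          intro a
          simp only [hm])
      rw [← r1]
      refine sum_congr rfl fun u _ => ?_
      have r2 := reidx l (Λ * R l) hlp hco (fun a =>
        gam l L.length (fun n => β l (n + ((Λ * R l * u : ℕ) : ℤ)) + β l (n + a))) (by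
          intro a
          simp only [hm])
      show ∑ v ∈ range l, gam l L.length (fun n => β l (n + ((Λ * R l * u : ℕ) : ℤ)) + β l (n + v)) = _
      rw [← r2]
      refine sum_congr rfl fun v _ => ?_
      rw [hg]
    rw [e1, add_mul, e2]

end Pool.Agent.H557.SI.EVAL
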