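import Pool.Agent.H557.SI.Stm

/-!
# Functions far from constants stay far after differences (task SI-GAM of helper557), by helper663
-/

set_option autoImplicit false

namespace Pool.Agent.H557.SI.GAM

open Finset

/-- the indicator function of `a ≠ 0` -/
noncomputable def e (a : ZMod 2) : ℝ := if a = 0 then 0 else 1

theorem z2 : ∀ a : ZMod 2, a = 0 ∨ a = 1 := by decide

theorem e_zero : e 0 = 0 := if_pos rfl

theorem e_one : e 1 = 1 := if_neg (by decide)

theorem e_nonneg (a : ZMod 2) : 0 ≤ e a := by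
  rcases z2 a with rfl | rfl
  · rw [e_zero]
  · rw [e_one]; norm_num

theorem e_le (a : ZMod 2) : e a ≤ 1 := by
  rcases z2 a with rfl | rfl
  · rw [e_zero]; norm_num
  · rw [e_one]

theorem one_add : (1 : ZMod 2) + 1 = 0 := by decide

theorem e_add (a b : ZMod 2) : e (a + b) = e a + e b - 2 * (e a * e b) := by
  rcases z2 a with rfl | rfl <;> rcases z2 b with rfl | rfl <;>
    (simp [e_zero, e_one, one_add]; try norm_num)

theorem e_add_le (a b : ZMod 2) : e (a + b) ≤ e a + e b := by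
  rw [e_add]
  nlinarith [e_nonneg a, e_nonneg b, mul_nonneg (e_nonneg a) (e_nonneg b)]

theorem e_add_le' (a b : ZMod 2) : e (a + b) ≤ (1 - e a) + (1 - e b) := by
  rw [e_add]
  nlinarith [mul_nonneg (sub_nonneg.2 (e_le a)) (sub_nonneg.2 (e_le b)), e_le a, e_le b]

theorem chi_e (a : ZMod 2) : chi a = 1 - 2 * e a := by
  rcases z2 a with rfl | rfl
  · rw [chi_zero, e_zero]; norm_num
  · rw [e_one]
    unfold chi
    rw [if_neg (by decide)]
    norm_num

variable {ℓ : ℕ} [NeZero ℓ]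

/-- sums over `range ℓ` and over `ZMod ℓ` -/
theorem sum_zmod (F : ZMod ℓ → ℝ) : ∑ u ∈ range ℓ, F (u : ZMod ℓ) = ∑ z : ZMod ℓ, F z := by
  refine Finset.sum_nbij' (fun u : ℕ => (u : ZMod ℓ)) (fun z : ZMod ℓ => z.val)
    (fun _ _ => mem_univ _) (fun z _ => mem_range.2 (ZMod.val_lt z)) ?_ ?_ (fun _ _ => rfl)
  · intro u hu
    exact ZMod.val_cast_of_lt (mem_range.1 hu)
  · intro z _
    exact ZMod.natCast_zmod_val z

/-- the averages on `ZMod ℓ` -/
noncomputable def G (ℓ : ℕ) [NeZero ℓ] : ℕ → (ZMod ℓ → ZMod 2) → ℝ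
  | 0, b => |∑ z, chi (b z)| / ℓ
  | s + 1, b => (∑ u, ∑ v, G ℓ s (fun z => b (z + u) + b (z + v))) / (ℓ : ℝ) ^ 2

theorem gam_eq (s : ℕ) : ∀ (β : ℤ → ZMod 2) (b : ZMod ℓ → ZMod 2),
    (∀ n : ℤ, β n = b (n : ZMod ℓ)) → gam ℓ s β = G ℓ s b := by
  induction s with
  | zero =>
    intro β b h
    unfold gam G
    have h1 : ∑ x ∈ range ℓ, chi (β x) = ∑ z : ZMod ℓ, chi (b z) := by
      rw [← sum_zmod]
      refine Finset.sum_congr rfl fun x _ => ?_
      rw [h, Int.cast_natCast]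
    rw [h1]
  | succ s ih =>
    intro β b h
    unfold gam G
    congr 1
    rw [← sum_zmod (fun u => ∑ v, G ℓ s (fun z => b (z + u) + b (z + v)))]
    refine Finset.sum_congr rfl fun u _ => ?_
    rw [← sum_zmod (fun v => G ℓ s (fun z => b (z + (u : ZMod ℓ)) + b (z + v)))]
    refine Finset.sum_congr rfl fun v _ => ?_
    refine ih _ _ fun n => ?_
    rw [h, h]
    push_cast
    rfl

theorem G_nonneg (s : ℕ) : ∀ b : ZMod ℓ → ZMod 2, 0 ≤ G ℓ s b := by
  induction s with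
  | zero => intro b; unfold G; positivity
  | succ s ih =>
    intro b
    unfold G
    exact div_nonneg (Finset.sum_nonneg fun u _ => Finset.sum_nonneg fun v _ => ih _) (by positivity)

/-- the number of nonzero values -/
noncomputable def S (b : ZMod ℓ → ZMod 2) : ℝ := ∑ z, e (b z)

theorem S_nonneg (b : ZMod ℓ → ZMod 2) : 0 ≤ S b := Finset.sum_nonneg fun z _ => e_nonneg _

theorem S_le (b : ZMod ℓ → ZMod 2) : S b ≤ ℓ := by
  unfold S
  calc ∑ z, e (b z) ≤ ∑ _z : ZMod ℓ, (1 : ℝ) := Finset.sum_le_sum fun z _ => e_le _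
    _ = ℓ := by rw [Finset.sum_const, Finset.card_univ, ZMod.card, nsmul_eq_mul, mul_one]

theorem G_zero (b : ZMod ℓ → ZMod 2) : G ℓ 0 b = |(ℓ : ℝ) - 2 * S b| / ℓ := by
  unfold G S
  have h1 : ∑ z : ZMod ℓ, chi (b z) = (ℓ : ℝ) - 2 * ∑ z, e (b z) := by
    simp only [chi_e]
    rw [Finset.sum_sub_distrib, ← Finset.mul_sum, Finset.sum_const, Finset.card_univ, ZMod.card,
      nsmul_eq_mul, mul_one]
  rw [h1]

/-- the number of differences -/
noncomputable def M (b : ZMod ℓ → ZMod 2) (w : ZMod ℓ) : ℝ := ∑ z, e (b z + b (z + w))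

theorem sum_shift (F : ZMod ℓ → ℝ) (u : ZMod ℓ) : ∑ z, F (z + u) = ∑ z, F z :=
  Equiv.sum_comp (Equiv.addRight u) F

theorem S_uv (b : ZMod ℓ → ZMod 2) (u v : ZMod ℓ) :
    S (fun z => b (z + u) + b (z + v)) = M b (v - u) := by
  unfold S M
  rw [← sum_shift (fun z => e (b z + b (z + (v - u)))) u]
  refine Finset.sum_congr rfl fun z _ => ?_
  have : z + u + (v - u) = z + v := by abel
  rw [this]

theorem M_le (b : ZMod ℓ → ZMod 2) (w : ZMod ℓ) : M b (w + w) ≤ 2 * M b w := by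
  unfold M
  have h1 : ∑ z, e (b z + b (z + w)) = ∑ z, e (b (z + w) + b (z + w + w)) :=
    (sum_shift (fun z => e (b z + b (z + w))) w).symm
  calc ∑ z, e (b z + b (z + (w + w)))
      ≤ ∑ z, (e (b z + b (z + w)) + e (b (z + w) + b (z + w + w))) := by
        refine Finset.sum_le_sum fun z _ => ?_
        refine le_trans (le_of_eq ?_) (e_add_le _ _)
        congr 1
        have h2 : b (z + w) + b (z + w) = 0 := CharTwo.add_self_eq_zero _
        have h3 : b z + b (z + w) + (b (z + w) + b (z + w + w)) =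
            b z + (b (z + w) + b (z + w)) + b (z + w + w) := by ring
        rw [h3, h2, add_zero, add_assoc z w w]
    _ = 2 * ∑ z, e (b z + b (z + w)) := by
        rw [Finset.sum_add_distrib, ← h1]; ring

theorem M_le' (b : ZMod ℓ → ZMod 2) (w : ZMod ℓ) : M b (w + w) ≤ 2 * (ℓ - M b w) := by
  unfold M
  have h1 : ∑ z, e (b z + b (z + w)) = ∑ z, e (b (z + w) + b (z + w + w)) :=
    (sum_shift (fun z => e (b z + b (z + w))) w).symm
  calc ∑ z, e (b z + b (z + (w + w)))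
      ≤ ∑ z, ((1 - e (b z + b (z + w))) + (1 - e (b (z + w) + b (z + w + w)))) := by
        refine Finset.sum_le_sum fun z _ => ?_
        refine le_trans (le_of_eq ?_) (e_add_le' _ _)
        congr 1
        have h2 : b (z + w) + b (z + w) = 0 := CharTwo.add_self_eq_zero _
        have h3 : b z + b (z + w) + (b (z + w) + b (z + w + w)) =
            b z + (b (z + w) + b (z + w)) + b (z + w + w) := by ring
        rw [h3, h2, add_zero, add_assoc z w w]
    _ = 2 * (ℓ - ∑ z, e (b z + b (z + w))) := by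
        rw [Finset.sum_add_distrib, Finset.sum_sub_distrib, Finset.sum_sub_distrib, ← h1,
          Finset.sum_const, Finset.card_univ, ZMod.card, nsmul_eq_mul, mul_one]
        ring

theorem sum_M (b : ZMod ℓ → ZMod 2) : ∑ w, M b w = 2 * (S b * (ℓ - S b)) := by
  unfold M
  rw [Finset.sum_comm]
  have h1 : ∀ z, ∑ w, e (b z + b (z + w)) = ∑ w, e (b z + b w) := by
    intro z
    rw [← sum_shift (fun w => e (b z + b w)) z]
    refine Finset.sum_congr rfl fun w _ => ?_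
    rw [add_comm w z]
  rw [Finset.sum_congr rfl fun z _ => h1 z]
  have h2 : ∀ z, ∑ w, e (b z + b w) = ℓ * e (b z) + S b - 2 * (e (b z) * S b) := by
    intro z
    rw [Finset.sum_congr rfl fun w _ => e_add (b z) (b w)]
    rw [Finset.sum_sub_distrib, Finset.sum_add_distrib, ← Finset.mul_sum, ← Finset.mul_sum,
      Finset.sum_const, Finset.card_univ, ZMod.card, nsmul_eq_mul]
    rfl
  rw [Finset.sum_congr rfl fun z _ => h2 z]
  rw [Finset.sum_sub_distrib, Finset.sum_add_distrib, ← Finset.mul_sum, ← Finset.mul_sum,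
    ← Finset.sum_mul, Finset.sum_const, Finset.card_univ, ZMod.card, nsmul_eq_mul]
  show (ℓ : ℝ) * S b + ℓ * S b - 2 * (S b * S b) = 2 * (S b * (ℓ - S b))
  ring

theorem bij (hodd : Odd ℓ) : Function.Bijective (fun w : ZMod ℓ => w + w) := by
  refine Function.Injective.bijective_of_finite ?_
  intro w w' h
  have h1 : (2 : ZMod ℓ) * w = 2 * w' := by
    simp only at h
    rw [two_mul, two_mul, h]
  have h2 : IsUnit (2 : ZMod ℓ) := by
    have h3 : Nat.Coprime 2 ℓ := (Nat.coprime_two_left).2 hodd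
    have h4 := (ZMod.isUnit_iff_coprime 2 ℓ).2 h3
    exact_mod_cast h4
  exact h2.mul_left_cancel h1

theorem sum_dbl (hodd : Odd ℓ) (b : ZMod ℓ → ZMod 2) : ∑ w, M b (w + w) = ∑ w, M b w :=
  (bij hodd).sum_comp (M b)

/-- the main step -/
theorem step (hodd : Odd ℓ) (b : ZMod ℓ → ZMod 2) :
    (ℓ : ℝ) ^ 2 * min (S b) (ℓ - S b) / 2 ≤
      ∑ u : ZMod ℓ, ∑ v : ZMod ℓ, min (S (fun z => b (z + u) + b (z + v)))
        (ℓ - S (fun z => b (z + u) + b (z + v))) := by
  have hℓ : (0 : ℝ) < ℓ := by exact_mod_cast Nat.pos_of_ne_zero (NeZero.ne ℓ)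
  have h1 : ∀ u v : ZMod ℓ, M b ((v - u) + (v - u)) / 2 ≤
      min (S (fun z => b (z + u) + b (z + v))) (ℓ - S (fun z => b (z + u) + b (z + v))) := by
    intro u v
    rw [S_uv]
    have h2 := M_le b (v - u)
    have h3 := M_le' b (v - u)
    exact le_min (by linarith) (by linarith)
  have h2 : ∑ u : ZMod ℓ, ∑ v : ZMod ℓ, M b ((v - u) + (v - u)) / 2 = ℓ * (S b * (ℓ - S b)) := by
    have h3 : ∀ u : ZMod ℓ, ∑ v : ZMod ℓ, M b ((v - u) + (v - u)) / 2 = S b * (ℓ - S b) := by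
      intro u
      have h4 : ∑ v : ZMod ℓ, M b ((v - u) + (v - u)) / 2 = ∑ w : ZMod ℓ, M b (w + w) / 2 := by
        rw [← sum_shift (fun v => M b ((v - u) + (v - u)) / 2) u]
        refine Finset.sum_congr rfl fun w _ => ?_
        rw [add_sub_cancel_right]
      rw [h4, ← Finset.sum_div, sum_dbl hodd, sum_M]
      ring
    simp only [h3]
    rw [Finset.sum_const, Finset.card_univ, ZMod.card, nsmul_eq_mul]
  have h5 : ∑ u : ZMod ℓ, ∑ v : ZMod ℓ, M b ((v - u) + (v - u)) / 2 ≤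
      ∑ u : ZMod ℓ, ∑ v : ZMod ℓ, min (S (fun z => b (z + u) + b (z + v)))
        (ℓ - S (fun z => b (z + u) + b (z + v))) :=
    Finset.sum_le_sum fun u _ => Finset.sum_le_sum fun v _ => h1 u v
  rw [h2] at h5
  refine le_trans ?_ h5
  have h6 := S_nonneg b
  have h7 := S_le b
  rcases le_total (S b) (ℓ - S b) with h8 | h8
  · rw [min_eq_left h8]
    have h9 : (ℓ : ℝ) / 2 ≤ ℓ - S b := by linarith
    have h10 : S b * ((ℓ : ℝ) / 2) ≤ S b * (ℓ - S b) := mul_le_mul_of_nonneg_left h9 h6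
    have h11 := mul_le_mul_of_nonneg_left h10 hℓ.le
    linarith [h11]
  · rw [min_eq_right h8]
    have h9 : (ℓ : ℝ) / 2 ≤ S b := by linarith
    have h10 : (ℓ : ℝ) / 2 * (ℓ - S b) ≤ S b * (ℓ - S b) :=
      mul_le_mul_of_nonneg_right h9 (by linarith)
    have h11 := mul_le_mul_of_nonneg_left h10 hℓ.le
    linarith [h11]

theorem bound (hodd : Odd ℓ) (s : ℕ) : ∀ b : ZMod ℓ → ZMod 2,
    G ℓ s b ≤ 1 - 2 * min (S b) (ℓ - S b) / (2 ^ s * ℓ) := by
  have hℓ : (0 : ℝ) < ℓ := by exact_mod_cast Nat.pos_of_ne_zero (NeZero.ne ℓ)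
  induction s with
  | zero =>
    intro b
    rw [G_zero, pow_zero, one_mul, div_le_iff₀ hℓ, sub_mul, one_mul, div_mul_cancel₀ _ hℓ.ne']
    rw [abs_le]
    have h6 := S_nonneg b
    have h7 := S_le b
    rcases le_total (S b) (ℓ - S b) with h8 | h8
    · rw [min_eq_left h8]
      constructor <;> linarith
    · rw [min_eq_right h8]
      constructor <;> linarith
  | succ s ih =>
    intro b
    have h1 : G ℓ (s + 1) b =
        (∑ u, ∑ v, G ℓ s (fun z => b (z + u) + b (z + v))) / (ℓ : ℝ) ^ 2 := rfl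
    rw [h1, div_le_iff₀ (by positivity)]
    have h2 : ∑ u, ∑ v, G ℓ s (fun z => b (z + u) + b (z + v)) ≤
        ∑ u : ZMod ℓ, ∑ v : ZMod ℓ, (1 - 2 * min (S (fun z => b (z + u) + b (z + v)))
          (ℓ - S (fun z => b (z + u) + b (z + v))) / (2 ^ s * ℓ)) :=
      Finset.sum_le_sum fun u _ => Finset.sum_le_sum fun v _ => ih _
    refine h2.trans ?_
    have h3 : ∑ u : ZMod ℓ, ∑ v : ZMod ℓ, (1 - 2 * min (S (fun z => b (z + u) + b (z + v)))
          (ℓ - S (fun z => b (z + u) + b (z + v))) / (2 ^ s * ℓ)) =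
        (ℓ : ℝ) ^ 2 - 2 * (∑ u : ZMod ℓ, ∑ v : ZMod ℓ, min (S (fun z => b (z + u) + b (z + v)))
          (ℓ - S (fun z => b (z + u) + b (z + v)))) / (2 ^ s * ℓ) := by
      simp only [Finset.sum_sub_distrib, ← Finset.sum_div, ← Finset.mul_sum, Finset.sum_const,
        Finset.card_univ, ZMod.card, nsmul_eq_mul]
      ring
    rw [h3]
    have h4 := step hodd b
    have hp : (0 : ℝ) < 2 ^ s * ℓ := by positivity
    have h5 : 2 * ((ℓ : ℝ) ^ 2 * min (S b) (ℓ - S b) / 2) / (2 ^ s * ℓ) ≤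
        2 * (∑ u : ZMod ℓ, ∑ v : ZMod ℓ, min (S (fun z => b (z + u) + b (z + v)))
          (ℓ - S (fun z => b (z + u) + b (z + v)))) / (2 ^ s * ℓ) :=
      div_le_div_of_nonneg_right (by linarith) hp.le
    have h6 : (1 - 2 * min (S b) (ℓ - S b) / (2 ^ (s + 1) * ℓ)) * (ℓ : ℝ) ^ 2 =
        (ℓ : ℝ) ^ 2 - 2 * ((ℓ : ℝ) ^ 2 * min (S b) (ℓ - S b) / 2) / (2 ^ s * ℓ) := by
      rw [pow_succ]
      field_simp
    rw [h6]
    linarith

omit [NeZero ℓ] in
theorem periodic {β : ℤ → ZMod 2} (h : ∀ n, β (n + ℓ) = β n) (n k : ℤ) : β (n + k * ℓ) = β n := by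
  have hp : Function.Periodic β (ℓ : ℤ) := h
  exact (hp.int_mul k) n

theorem factor {β : ℤ → ZMod 2} (h : ∀ n, β (n + ℓ) = β n) (n : ℤ) :
    β n = β (((n : ZMod ℓ).val : ℕ) : ℤ) := by
  have h1 : (((n : ZMod ℓ).val : ℕ) : ℤ) = n % ℓ := ZMod.val_intCast n
  rw [h1]
  have h2 := periodic h (n % ℓ) (n / ℓ)
  have h3 : n % ℓ + n / ℓ * ℓ = n := by
    rw [mul_comm]
    exact Int.emod_add_mul_ediv n ℓ
  rw [h3] at h2
  exact h2

theorem main : S_gam := by
  intro ℓ hℓ0 hodd s W β hβ hW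
  have : NeZero ℓ := ⟨hℓ0.ne'⟩
  have hℓ : (0 : ℝ) < ℓ := by exact_mod_cast hℓ0
  let b : ZMod ℓ → ZMod 2 := fun z => β ((z.val : ℕ) : ℤ)
  have hb : ∀ n : ℤ, β n = b (n : ZMod ℓ) := fun n => factor hβ n
  rw [gam_eq s β b hb]
  refine ⟨G_nonneg s b, (bound hodd s b).trans ?_⟩
  have hS : S b = ∑ x ∈ range ℓ, e (β x) := by
    unfold S
    rw [← sum_zmod (fun z => e (b z))]
    refine Finset.sum_congr rfl fun x _ => ?_
    rw [hb, Int.cast_natCast]
  have h0 : (W : ℝ) ≤ S b := by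
    have h1 := hW 0
    have h2 : (((range ℓ).filter fun x : ℕ => β (x : ℤ) ≠ 0).card : ℝ) = S b := by
      rw [hS, Finset.card_filter]
      push_cast
      refine Finset.sum_congr rfl fun x _ => ?_
      unfold e
      by_cases h : β (x : ℤ) = 0
      · rw [if_pos h, if_neg (not_not.2 h)]
      · rw [if_neg h, if_pos h]
    rw [← h2]
    exact_mod_cast h1.le
  have h1 : (W : ℝ) ≤ ℓ - S b := by
    have h1 := hW 1
    have h2 : (((range ℓ).filter fun x : ℕ => β (x : ℤ) ≠ 1).card : ℝ) = ℓ - S b := by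
      rw [hS, Finset.card_filter]
      push_cast
      have h3 : (ℓ : ℝ) - ∑ x ∈ range ℓ, e (β x) = ∑ x ∈ range ℓ, (1 - e (β x)) := by
        rw [Finset.sum_sub_distrib, Finset.sum_const, Finset.card_range, nsmul_eq_mul, mul_one]
      rw [h3]
      refine Finset.sum_congr rfl fun x _ => ?_
      rcases z2 (β (x : ℤ)) with h | h
      · rw [h, e_zero, if_pos (by decide)]
        norm_num
      · rw [h, e_one, if_neg (by decide)]
        norm_num
    rw [← h2]
    exact_mod_cast h1.le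
  have h2 : (W : ℝ) ≤ min (S b) (ℓ - S b) := le_min h0 h1
  have hp : (0 : ℝ) < 2 ^ s * ℓ := by positivity
  have h3 : 2 * (W : ℝ) / (2 ^ s * ℓ) ≤ 2 * min (S b) (ℓ - S b) / (2 ^ s * ℓ) :=
    div_le_div_of_nonneg_right (by linarith) hp.le
  linarith

end Pool.Agent.H557.SI.GAM
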