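import Pool.Agent.H557.SI.Stm

set_option autoImplicit false

namespace Pool.Agent.H557.SI.ONE

open Polynomial Finset Pool.Agent.H557

/-- a function of period `p` along an arithmetic progression whose step is prime to `p` -/
theorem sum_prog {p c : ℕ} (hp : 0 < p) (hc : Nat.Coprime c p) {f : ℤ → ℝ}
    (hf : ∀ n, f (n + p) = f n) (r : ℤ) :
    ∑ t ∈ range p, f (r + c * t) = ∑ t ∈ range p, f (t : ℤ) := by
  have : NeZero p := ⟨hp.ne'⟩
  have hper : Function.Periodic f (p : ℤ) := hf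
  obtain ⟨F, hF⟩ : ∃ F : ZMod p → ℝ, F = fun z => f (z.val : ℤ) := ⟨_, rfl⟩
  have h1 : ∀ n : ℤ, f n = F (n : ZMod p) := by
    intro n
    rw [hF]
    simp only
    rw [ZMod.val_intCast]
    have h3 := (hper.int_mul (n / p)) (n % p)
    rw [← h3]
    congr 1
    rw [Int.cast_id, mul_comm]
    exact (Int.emod_add_mul_ediv n p).symm
  have h2 : ∀ g : ZMod p → ℝ, ∑ t ∈ range p, g ((t : ℕ) : ZMod p) = ∑ z : ZMod p, g z := by
    intro g
    refine Finset.sum_nbij' (fun t => ((t : ℕ) : ZMod p)) (fun z => z.val) ?_ ?_ ?_ ?_ ?_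
    · intro a _
      exact mem_univ _
    · intro z _
      exact mem_range.2 (ZMod.val_lt z)
    · intro a ha
      exact ZMod.val_cast_of_lt (mem_range.1 ha)
    · intro z _
      exact ZMod.natCast_zmod_val z
    · intro a _
      rfl
  have hu : IsUnit ((c : ℕ) : ZMod p) := (ZMod.isUnit_iff_coprime c p).2 hc
  obtain ⟨u, hu⟩ := hu
  have e1 : ∑ t ∈ range p, f (r + c * t) =
      ∑ t ∈ range p, F ((r : ZMod p) + (u : ZMod p) * ((t : ℕ) : ZMod p)) := by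
    refine sum_congr rfl fun t _ => ?_
    rw [h1, hu]
    push_cast
    rfl
  have e2 : ∑ t ∈ range p, f (t : ℤ) = ∑ t ∈ range p, F ((t : ℕ) : ZMod p) := by
    refine sum_congr rfl fun t _ => ?_
    rw [h1, Int.cast_natCast]
  rw [e1, e2, h2 (fun z => F ((r : ZMod p) + (u : ZMod p) * z)), h2 F]
  refine Fintype.sum_bijective (fun z => (r : ZMod p) + (u : ZMod p) * z) ?_ _ _ fun z => rfl
  refine ⟨fun a b hab => ?_, fun z => ⟨(↑u⁻¹ : ZMod p) * (z - r), ?_⟩⟩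
  · have h3 : (u : ZMod p) * a = (u : ZMod p) * b := add_left_cancel hab
    exact (Units.mul_right_inj u).1 h3
  · simp only
    rw [← mul_assoc, Units.mul_inv, one_mul]
    ring

theorem sum_blocks (h : ℕ → ℝ) (P : ℕ) : ∀ p : ℕ,
    ∑ n ∈ range (P * p), h n = ∑ s ∈ range p, ∑ r ∈ range P, h (P * s + r) := by
  intro p
  induction p with
  | zero => simp
  | succ p ih => rw [Nat.mul_succ, sum_range_add, ih, sum_range_succ]

/-- chinese remainder theorem for sums of products -/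
theorem sum_crt (T : Finset ℕ) (hT : ∀ ℓ ∈ T, ℓ.Prime) (f : ℕ → ℤ → ℝ)
    (hf : ∀ ℓ ∈ T, ∀ n, f ℓ (n + ℓ) = f ℓ n) :
    (∀ n, ∏ ℓ ∈ T, f ℓ (n + (∏ ℓ ∈ T, ℓ : ℕ)) = ∏ ℓ ∈ T, f ℓ n) ∧
    ∑ n ∈ range (∏ ℓ ∈ T, ℓ), ∏ ℓ ∈ T, f ℓ (n : ℤ) = ∏ ℓ ∈ T, ∑ y ∈ range ℓ, f ℓ (y : ℤ) := by
  classical
  have hmul : ∀ ℓ ∈ T, ∀ (n : ℤ) (k : ℕ), f ℓ (n + (ℓ * k : ℕ)) = f ℓ n := by
    intro ℓ hℓ n k
    have h1 : Function.Periodic (f ℓ) (ℓ : ℤ) := hf ℓ hℓ
    have h2 := (h1.int_mul k) n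
    rw [← h2]
    congr 1
    push_cast
    ring
  refine ⟨fun n => prod_congr rfl fun ℓ hℓ => ?_, ?_⟩
  · obtain ⟨k, hk⟩ : ℓ ∣ ∏ ℓ ∈ T, ℓ := dvd_prod_of_mem _ hℓ
    rw [hk]
    exact hmul ℓ hℓ n k
  · clear hmul
    induction T using Finset.induction with
    | empty => simp
    | insert p T hp ih =>
      have hT' : ∀ ℓ ∈ T, ℓ.Prime := fun ℓ hℓ => hT ℓ (mem_insert_of_mem hℓ)
      have hf' : ∀ ℓ ∈ T, ∀ n, f ℓ (n + ℓ) = f ℓ n := fun ℓ hℓ => hf ℓ (mem_insert_of_mem hℓ)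
      have hpp : p.Prime := hT p (mem_insert_self p T)
      have ih' := ih hT' hf'
      have hcop : Nat.Coprime (∏ ℓ ∈ T, ℓ) p := by
        refine Nat.Coprime.prod_left fun ℓ hℓ => ?_
        rw [Nat.coprime_primes (hT' ℓ hℓ) hpp]
        rintro rfl
        exact hp hℓ
      have hper : ∀ (k : ℕ) (n : ℤ), ∏ ℓ ∈ T, f ℓ (n + ((∏ ℓ ∈ T, ℓ) * k : ℕ)) =
          ∏ ℓ ∈ T, f ℓ n := by
        intro k n
        refine prod_congr rfl fun ℓ hℓ => ?_
        obtain ⟨j, hj⟩ : ℓ ∣ ∏ ℓ ∈ T, ℓ := dvd_prod_of_mem _ hℓ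
        have h1 : Function.Periodic (f ℓ) (ℓ : ℤ) := hf' ℓ hℓ
        have h2 := (h1.int_mul (j * k)) n
        rw [← h2, hj]
        congr 1
        push_cast
        ring
      obtain ⟨P, hP⟩ : ∃ P : ℕ, P = ∏ ℓ ∈ T, ℓ := ⟨_, rfl⟩
      rw [← hP] at hcop hper ih'
      rw [prod_insert hp, prod_insert hp, ← hP, mul_comm p P, sum_blocks, sum_comm, ← ih',
        mul_sum]
      refine sum_congr rfl fun r _ => ?_
      have h3 : ∀ s ∈ range p, ∏ ℓ ∈ insert p T, f ℓ ((P * s + r : ℕ) : ℤ) =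
          f p ((r : ℤ) + P * s) * ∏ ℓ ∈ T, f ℓ (r : ℤ) := by
        intro s _
        rw [prod_insert hp]
        have h4 := hper s (r : ℤ)
        rw [← h4]
        congr 1
        · congr 1
          push_cast
          ring
        · refine prod_congr rfl fun ℓ _ => ?_
          congr 1
          push_cast
          ring
      rw [sum_congr rfl h3, ← sum_mul, sum_prog hpp.pos hcop (hf p (mem_insert_self p T)) r]

/-- shifting an interval -/
theorem shift_bound (a : ℕ → ℝ) (ha : ∀ n, |a n| ≤ 1) (N : ℕ) : ∀ s : ℕ,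
    |∑ n ∈ range N, a n - ∑ n ∈ range N, a (n + s)| ≤ 2 * s := by
  intro s
  induction s with
  | zero => simp
  | succ s ih =>
    have h1 := sum_range_succ' (fun n : ℕ => a (n + s)) N
    have h2 := sum_range_succ (fun n : ℕ => a (n + s)) N
    rw [h1] at h2
    have h3 : ∑ n ∈ range N, a (n + (s + 1)) = ∑ n ∈ range N, a (n + 1 + s) := by
      refine sum_congr rfl fun n _ => ?_
      congr 1
      ring
    rw [h3]
    have h4 := abs_le.1 ih
    have h5 := abs_le.1 (ha (N + s))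
    have h6 := abs_le.1 (ha (0 + s))
    push_cast
    rw [abs_le]
    constructor <;> linarith [h4.1, h4.2, h5.1, h5.2, h6.1, h6.2]

theorem main : S_one := by
  intro T hT x N hN β hβ
  obtain ⟨P, hP⟩ : ∃ P : ℕ, P = ∏ ℓ ∈ T, ℓ := ⟨_, rfl⟩
  obtain ⟨a, ha⟩ : ∃ a : ℕ → ℝ, a = fun n => chi (∑ ℓ ∈ T, β ℓ (x + (n : ℕ))) := ⟨_, rfl⟩
  obtain ⟨G, hG⟩ : ∃ G : ℝ, G = ∏ ℓ ∈ T, ∑ y ∈ range ℓ, chi (β ℓ (y : ℤ)) := ⟨_, rfl⟩
  have hPpos : 0 < P := by
    rw [hP]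
    exact prod_pos fun ℓ hℓ => (hT ℓ hℓ).pos
  have hP0 : (0 : ℝ) < P := by exact_mod_cast hPpos
  have hN0 : (0 : ℝ) < N := by exact_mod_cast hN
  have ha1 : ∀ n, |a n| ≤ 1 := by
    intro n
    rw [ha]
    exact (abs_chi _).le
  have hav : av x N (fun n => ∑ ℓ ∈ T, β ℓ n) = (∑ n ∈ range N, a n) / N := by
    unfold av
    rw [ha]
  -- the sum over a full period
  have hper : ∀ n : ℕ, ∑ s ∈ range P, a (n + s) = G := by
    intro n
    have hf : ∀ ℓ ∈ T, ∀ m : ℤ, (fun (ℓ : ℕ) (m : ℤ) => chi (β ℓ (x + n + m))) ℓ (m + ℓ) =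
        (fun (ℓ : ℕ) (m : ℤ) => chi (β ℓ (x + n + m))) ℓ m := by
      intro ℓ hℓ m
      simp only
      rw [← add_assoc, hβ ℓ hℓ]
    have h1 := (sum_crt T hT (fun ℓ m => chi (β ℓ (x + n + m))) hf).2
    rw [← hP] at h1
    have h2 : ∀ s ∈ range P, a (n + s) = ∏ ℓ ∈ T, chi (β ℓ (x + n + (s : ℤ))) := by
      intro s _
      rw [ha]
      simp only
      rw [chi_sum]
      refine prod_congr rfl fun ℓ _ => ?_
      congr 2
      push_cast
      ring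
    rw [sum_congr rfl h2, h1, hG]
    refine prod_congr rfl fun ℓ hℓ => ?_
    have h3 := sum_prog (p := ℓ) (c := 1) (hT ℓ hℓ).pos (Nat.coprime_one_left ℓ)
      (f := fun m => chi (β ℓ m)) (fun m => by rw [hβ ℓ hℓ]) (x + n)
    rw [← h3]
    refine sum_congr rfl fun y _ => ?_
    rw [Nat.cast_one, one_mul]
  have hsum : ∑ s ∈ range P, ∑ n ∈ range N, a (n + s) = N * G := by
    rw [sum_comm, sum_congr rfl (fun n _ => hper n), sum_const, card_range, nsmul_eq_mul]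
  obtain ⟨M, hM⟩ : ∃ M : ℝ, M = ((T.card * ∏ ℓ ∈ T, ℓ : ℕ) : ℝ) := ⟨_, rfl⟩
  have hsM : ∀ s ∈ range P, (s : ℝ) ≤ M := by
    intro s hs
    have hs := mem_range.1 hs
    rw [hM]
    norm_cast
    rw [← hP]
    rcases T.eq_empty_or_nonempty with h0 | h0
    · rw [h0, prod_empty] at hP
      omega
    · have h1 : 1 ≤ T.card := h0.card_pos
      calc s ≤ 1 * P := by omega
        _ ≤ T.card * P := Nat.mul_le_mul_right P h1
  have hdiff : |P * ∑ n ∈ range N, a n - N * G| ≤ P * (2 * M) := by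
    have h1 : (P : ℝ) * ∑ n ∈ range N, a n - N * G =
        ∑ s ∈ range P, (∑ n ∈ range N, a n - ∑ n ∈ range N, a (n + s)) := by
      rw [sum_sub_distrib, hsum, sum_const, card_range, nsmul_eq_mul]
    rw [h1]
    refine (abs_sum_le_sum_abs _ _).trans ?_
    have h2 : ∀ s ∈ range P, |∑ n ∈ range N, a n - ∑ n ∈ range N, a (n + s)| ≤ 2 * M :=
      fun s hs => (shift_bound a ha1 N s).trans (by linarith [hsM s hs])
    refine (sum_le_sum h2).trans (le_of_eq ?_)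
    rw [sum_const, card_range, nsmul_eq_mul]
  have hgam : |G| = P * ∏ ℓ ∈ T, gam ℓ 0 (β ℓ) := by
    rw [hG, abs_prod, hP, Nat.cast_prod, ← prod_mul_distrib]
    refine prod_congr rfl fun ℓ hℓ => ?_
    have hℓ : (ℓ : ℝ) ≠ 0 := by exact_mod_cast (hT ℓ hℓ).ne_zero
    unfold gam
    field_simp
  rw [hav, abs_div, abs_of_pos hN0, div_le_iff₀ hN0]
  have h1 : |(P : ℝ) * ∑ n ∈ range N, a n| ≤ |N * G| + P * (2 * M) := by
    have h2 := abs_sub_abs_le_abs_sub (P * ∑ n ∈ range N, a n) (N * G)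
    linarith
  rw [abs_mul, abs_mul, abs_of_pos hP0, abs_of_pos hN0, hgam] at h1
  have h2 : (P : ℝ) * |∑ n ∈ range N, a n| ≤
      P * (N * ∏ ℓ ∈ T, gam ℓ 0 (β ℓ) + 2 * M) := by
    linarith
  have h3 := le_of_mul_le_mul_left h2 hP0
  refine h3.trans (le_of_eq ?_)
  rw [← hM]
  field_simp

end Pool.Agent.H557.SI.ONE
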