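import Pool.Agent.H557.SI.Stm

/-! # SI-STEPS: steps which kill the other components (helper93 for helper557) -/

set_option autoImplicit false

namespace Pool.Agent.H557.SI.STEPS

open Polynomial Finset
open Pool.Agent.H557

theorem exists_pow (b : ℕ) (hb : 1 ≤ b) : ∃ m : ℕ, b ≤ 2 ^ m ∧ 2 ^ m ≤ 2 * b := by
  induction b, hb using Nat.le_induction with
  | base => exact ⟨0, by norm_num, by norm_num⟩
  | succ b hb ih =>
    obtain ⟨m, h1, h2⟩ := ih
    by_cases h : b + 1 ≤ 2 ^ m
    · exact ⟨m, h, by omega⟩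
    · refine ⟨m + 1, ?_, ?_⟩
      · rw [pow_succ]; omega
      · rw [pow_succ]; omega

theorem list_prod {M : Type} [CommMonoid M] (g : ℕ → M) (s : ℕ) :
    ((List.range s).map g).prod = ∏ j ∈ range s, g j := by
  induction s with
  | zero => simp
  | succ n ih =>
    rw [List.range_succ, List.map_append, List.prod_append, ih, prod_range_succ]
    simp

theorem prod_dvd' (s : Finset ℕ) (h : ℕ → ℕ) (L m : ℕ) (hL : ∀ i ∈ s, h i ∣ L)
    (hm : s.card ≤ 2 ^ m) :
    ∏ i ∈ s, (1 - X ^ h i : (ZMod 2)[X]) ∣ 1 - X ^ (2 ^ m * L) := by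
  have h1 : ∏ i ∈ s, (1 - X ^ h i : (ZMod 2)[X]) ∣ ∏ _i ∈ s, (1 - X ^ L) := by
    apply Finset.prod_dvd_prod_of_dvd
    intro i hi
    obtain ⟨c, hc⟩ := hL i hi
    rw [hc, pow_mul]
    exact one_sub_dvd_one_sub_pow _ _
  rw [Finset.prod_const] at h1
  refine h1.trans ((pow_dvd_pow _ hm).trans ?_)
  rw [one_sub_pow_two_pow, ← pow_mul, mul_comm L]

/-- the exponents with the primes of `T` replaced by `1` -/
def hh (T : Finset ℕ) (i : ℕ) : ℕ := if i ∈ T then 1 else i

/-- the block -/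
def JJ (k b j : ℕ) : Finset ℕ := (Icc 1 k).filter fun i => (i - 1) / b = j

/-- the least common multiple of the block -/
def LJ (T : Finset ℕ) (k b j : ℕ) : ℕ := (JJ k b j).lcm (hh T)

theorem JJ_sub (k b j : ℕ) (hb : 1 ≤ b) : JJ k b j ⊆ Icc (j * b + 1) (j * b + b) := by
  intro i hi
  unfold JJ at hi
  rw [mem_filter, mem_Icc] at hi
  obtain ⟨⟨h1, _⟩, h3⟩ := hi
  rw [mem_Icc]
  have h4 := Nat.div_add_mod (i - 1) b
  have h5 := Nat.mod_lt (i - 1) hb
  rw [h3] at h4
  have h6 : b * j = j * b := mul_comm _ _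
  omega

theorem JJ_card (k b j : ℕ) (hb : 1 ≤ b) : (JJ k b j).card ≤ b := by
  refine (card_le_card (JJ_sub k b j hb)).trans ?_
  rw [Nat.card_Icc]
  omega

theorem hh_pos (T : Finset ℕ) (i : ℕ) (hi : 1 ≤ i) : 0 < hh T i := by
  unfold hh
  split_ifs
  · exact one_pos
  · exact hi

theorem hh_dvd (T : Finset ℕ) (i P : ℕ) (hi : i ∣ P) : hh T i ∣ P := by
  unfold hh
  split_ifs
  · exact one_dvd P
  · exact hi

theorem LJ_pos (T : Finset ℕ) (k b j : ℕ) : 0 < LJ T k b j := by
  unfold LJ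
  apply Nat.pos_of_ne_zero
  intro h
  rw [Finset.lcm_eq_zero_iff] at h
  obtain ⟨i, hi, h0⟩ := h
  have h1 : 1 ≤ i := by
    have hi' : i ∈ JJ k b j := hi
    unfold JJ at hi'
    exact (mem_Icc.mp (mem_filter.mp hi').1).1
  exact (hh_pos T i h1).ne' h0

theorem LJ_coprime (T : Finset ℕ) (k b j : ℕ) {ℓ : ℕ} (hℓ : ℓ ∈ T) (hp : ℓ.Prime) (h2 : k < 2 * ℓ) :
    Nat.Coprime ℓ (LJ T k b j) := by
  have hprod : LJ T k b j ∣ ∏ i ∈ JJ k b j, hh T i := by
    unfold LJ
    apply Finset.lcm_dvd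
    intro i hi
    exact Finset.dvd_prod_of_mem _ hi
  refine Nat.Coprime.coprime_dvd_right hprod ?_
  refine Nat.Coprime.prod_right fun i hi => ?_
  unfold JJ at hi
  rw [mem_filter, mem_Icc] at hi
  obtain ⟨⟨h1, h3⟩, _⟩ := hi
  unfold hh
  split_ifs with hT
  · exact Nat.coprime_one_right ℓ
  · rw [Nat.Prime.coprime_iff_not_dvd hp]
    rintro ⟨m, hm⟩
    rcases m with _ | _ | m
    · omega
    · rw [zero_add, mul_one] at hm
      rw [hm] at hT
      exact hT hℓ
    · have h5 : ℓ * (m + 1 + 1) = ℓ * m + 2 * ℓ := by ring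
      have h6 : 0 ≤ ℓ * m := Nat.zero_le _
      omega

theorem one_eq (T : Finset ℕ) (i : ℕ) :
    (1 - X ^ i : (ZMod 2)[X]) = (1 - X ^ hh T i) * (if i ∈ T then Phi i else 1) := by
  unfold hh
  split_ifs
  · rw [pow_one, mul_comm, Phi_mul]
  · rw [mul_one]

theorem main : S_blk → S_steps := by
  intro hblk
  refine ⟨30, by norm_num, fun k s hk hs hsk T hT => ?_⟩
  obtain ⟨b, hbd⟩ : ∃ b, b = (k + s - 1) / s := ⟨_, rfl⟩
  have hb1 : k ≤ b * s := by
    have h1 := Nat.div_add_mod (k + s - 1) s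
    have h2 := Nat.mod_lt (k + s - 1) hs
    rw [← hbd] at h1
    have h3 : s * b = b * s := mul_comm _ _
    omega
  have hb2 : b * s ≤ 2 * k := by
    have h1 := Nat.div_mul_le_self (k + s - 1) s
    rw [← hbd] at h1
    omega
  have hb : 1 ≤ b := by
    rcases Nat.eq_zero_or_pos b with h | h
    · rw [h, zero_mul] at hb1
      omega
    · exact h
  obtain ⟨m, hm1, hm2⟩ := exists_pow b hb
  refine ⟨(List.range s).map fun j => 2 ^ m * LJ T k b j, by simp, ?_, ?_⟩
  · intro Λ hΛ
    rw [List.mem_map] at hΛ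
    obtain ⟨j, hj, rfl⟩ := hΛ
    rw [List.mem_range] at hj
    have hL0 := LJ_pos T k b j
    refine ⟨by positivity, fun ℓ hℓ => ?_, ?_⟩
    · obtain ⟨hp, _, h2, hne⟩ := hT ℓ hℓ
      refine Nat.Coprime.mul_right ?_ (LJ_coprime T k b j hℓ hp h2)
      exact Nat.Coprime.pow_right m ((Nat.coprime_primes hp Nat.prime_two).mpr hne)
    · obtain ⟨P, hP0, hP1, hP2⟩ := hblk (j * b) b hb
      have hLP : LJ T k b j ∣ P := by
        unfold LJ
        apply Finset.lcm_dvd
        intro i hi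
        exact hh_dvd T i P (hP1 i (JJ_sub k b j hb hi))
      have hLle : LJ T k b j ≤ P := Nat.le_of_dvd hP0 hLP
      have hbR : (1 : ℝ) ≤ b := by exact_mod_cast hb
      have hbR0 : (0 : ℝ) < b := by linarith
      have hsR : (1 : ℝ) ≤ s := by exact_mod_cast hs
      have hsR0 : (0 : ℝ) < s := by linarith
      have hls : 0 ≤ Real.log s := Real.log_nonneg hsR
      have h1 : Real.log ((2 ^ m * LJ T k b j : ℕ) : ℝ) ≤ Real.log (2 * b) + Real.log P := by
        have hLR : (0 : ℝ) < LJ T k b j := by exact_mod_cast hL0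
        have hPR : (0 : ℝ) < P := by exact_mod_cast hP0
        rw [← Real.log_mul (by positivity) (by positivity)]
        refine Real.log_le_log (by positivity) ?_
        have h2 : 2 ^ m * LJ T k b j ≤ 2 * b * P := Nat.mul_le_mul hm2 hLle
        exact_mod_cast h2
      have h3 : Real.log (2 * b) ≤ 2 * b := by
        have := Real.log_le_sub_one_of_pos (x := 2 * (b : ℝ)) (by positivity)
        linarith
      have h4 : Real.log (((j * b + b : ℕ) : ℝ) / b) ≤ Real.log s := by
        refine Real.log_le_log (by positivity) ?_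
        rw [div_le_iff₀ hbR0]
        have h5 : j * b + b ≤ s * b := by
          have h6 : (j + 1) * b ≤ s * b := Nat.mul_le_mul_right b hj
          linarith
        exact_mod_cast h5
      have h7 : (b : ℝ) ≤ 2 * k / s := by
        rw [le_div_iff₀ hsR0]
        exact_mod_cast hb2
      have h8 : Real.log P ≤ b * (13 + Real.log s) :=
        hP2.trans (mul_le_mul_of_nonneg_left (by linarith) hbR0.le)
      calc Real.log ((2 ^ m * LJ T k b j : ℕ) : ℝ) ≤ 2 * b + b * (13 + Real.log s) := by linarith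
        _ = b * (15 + Real.log s) := by ring
        _ ≤ b * (15 * (1 + Real.log s)) := by
            refine mul_le_mul_of_nonneg_left ?_ hbR0.le
            linarith
        _ ≤ 2 * k / s * (15 * (1 + Real.log s)) := by
            refine mul_le_mul_of_nonneg_right h7 ?_
            positivity
        _ = 30 * (k * (1 + Real.log s) / s) := by ring
  · rw [List.map_map, list_prod]
    have hD : DD k = (∏ i ∈ Icc 1 k, (1 - X ^ hh T i : (ZMod 2)[X])) * ∏ ℓ ∈ T, Phi ℓ := by
      unfold DD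
      rw [Finset.prod_congr rfl fun i _ => one_eq T i, prod_mul_distrib]
      congr 1
      rw [Finset.prod_ite_mem]
      congr 1
      rw [Finset.inter_eq_right]
      intro ℓ hℓ
      obtain ⟨hp, h1, _, _⟩ := hT ℓ hℓ
      exact mem_Icc.mpr ⟨hp.one_le, h1⟩
    rw [hD]
    refine mul_dvd_mul_right ?_ _
    have hmaps : ∀ i ∈ Icc 1 k, (i - 1) / b ∈ range s := by
      intro i hi
      rw [mem_Icc] at hi
      rw [mem_range]
      apply Nat.div_lt_of_lt_mul
      omega
    rw [← Finset.prod_fiberwise_of_maps_to hmaps]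
    apply Finset.prod_dvd_prod_of_dvd
    intro j _
    exact prod_dvd' (JJ k b j) (hh T) (LJ T k b j) m
      (fun i hi => Finset.dvd_lcm (f := hh T) hi) ((JJ_card k b j hb).trans hm1)

end Pool.Agent.H557.SI.STEPS
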