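import Pool.Agent.H557.SI.Stm

/-!
# Project SI: iterated van der Corput inequality (helper190 for helper557)
-/

set_option autoImplicit false

namespace Pool.Agent.H557.SI.VDC

open Finset Pool.Agent.H557 Pool.Agent.H557.SI

/-- shifting a window -/
theorem shift_sum (f : ℕ → ℝ) (hf : ∀ n, |f n| ≤ 1) (N m : ℕ) :
    |∑ n ∈ range N, f n - ∑ n ∈ range N, f (n + m)| ≤ 2 * m := by
  induction m with
  | zero => simp
  | succ m ih =>
    have h1 : ∑ n ∈ range N, f (n + m) - ∑ n ∈ range N, f (n + (m + 1)) = f m - f (N + m) := by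
      have e1 := Finset.sum_range_succ (fun n => f (n + m)) N
      have e2 := Finset.sum_range_succ' (fun n => f (n + m)) N
      have e3 : ∑ n ∈ range N, f (n + 1 + m) = ∑ n ∈ range N, f (n + (m + 1)) := by
        refine Finset.sum_congr rfl fun n _ => ?_
        congr 1
        ring
      rw [e3] at e2
      have e4 : f (0 + m) = f m := by rw [zero_add]
      rw [e4] at e2
      linarith
    have h2 : |f m - f (N + m)| ≤ 2 := by
      have := abs_sub (f m) (f (N + m))
      have h3 := hf m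
      have h4 := hf (N + m)
      linarith
    have h5 : ∑ n ∈ range N, f n - ∑ n ∈ range N, f (n + (m + 1)) =
        (∑ n ∈ range N, f n - ∑ n ∈ range N, f (n + m)) + (f m - f (N + m)) := by
      rw [← h1]; ring
    rw [h5]
    refine (abs_add_le _ _).trans ?_
    push_cast
    linarith

theorem abs_av_le (x : ℤ) (N : ℕ) (hN : 0 < N) (ψ : ℤ → ZMod 2) : |av x N ψ| ≤ 1 := by
  unfold av
  have hN' : (0 : ℝ) < N := by exact_mod_cast hN
  rw [abs_div, abs_of_pos hN', div_le_one hN']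
  refine (Finset.abs_sum_le_sum_abs _ _).trans ?_
  rw [Finset.sum_congr rfl fun (n : ℕ) _ => abs_chi (ψ (x + (n : ℤ)))]
  simp

/-- the elementary inequality -/
theorem elem (a b e : ℝ) (ha : |a| ≤ 1) (hb : |b| ≤ 1) (he : 0 ≤ e) (h : |a - b| ≤ e) :
    a ^ 2 ≤ b ^ 2 + 3 * e := by
  rcases le_total e 1 with h1 | h1
  · have h7 : a ^ 2 - b ^ 2 = (a - b) * (a - b + 2 * b) := by ring
    have h8 : (a - b) * (a - b + 2 * b) ≤ e * 3 := by
      calc (a - b) * (a - b + 2 * b) ≤ |(a - b) * (a - b + 2 * b)| := le_abs_self _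
        _ = |a - b| * |a - b + 2 * b| := abs_mul _ _
        _ ≤ e * 3 := by
            apply mul_le_mul h _ (abs_nonneg _) he
            refine (abs_add_le _ _).trans ?_
            rw [abs_mul, abs_of_pos (show (0 : ℝ) < 2 by norm_num)]
            linarith
    linarith
  · have h9 : a ^ 2 ≤ 1 := by
      rw [← sq_abs]
      exact pow_le_one₀ (abs_nonneg _) ha
    nlinarith [sq_nonneg b]

theorem av_shift (x : ℤ) (N : ℕ) (hN : 0 < N) (ψ : ℤ → ZMod 2) (m M : ℕ) (hm : m ≤ M) :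
    |av x N ψ - av x N (fun n => ψ (n + m))| ≤ 2 * M / N := by
  have hN' : (0 : ℝ) < N := by exact_mod_cast hN
  have h := shift_sum (fun n => chi (ψ (x + n))) (fun n => (abs_chi _).le) N m
  have e : ∑ n ∈ range N, chi (ψ (x + (n : ℕ) + m)) = ∑ n ∈ range N, chi (ψ (x + ((n + m : ℕ) : ℤ))) := by
    refine Finset.sum_congr rfl fun n _ => ?_
    congr 2
    push_cast
    ring
  unfold av
  rw [← sub_div, abs_div, abs_of_pos hN', e]
  apply div_le_div_of_nonneg_right _ hN'.le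
  refine h.trans ?_
  have : (m : ℝ) ≤ M := by exact_mod_cast hm
  linarith

/-- one step of the van der Corput inequality -/
theorem step {ι : Type} (S : Finset ι) (hS : S.Nonempty) (x : ℤ) (N M : ℕ) (hN : 0 < N) (σ : ι → ℕ)
    (hσ : ∀ i ∈ S, σ i ≤ M) (ψ : ℤ → ZMod 2) :
    |av x N ψ| ^ 2 ≤ (∑ i ∈ S, ∑ j ∈ S, |av x N (fun n => ψ (n + σ i) + ψ (n + σ j))|) /
      (S.card : ℝ) ^ 2 + 6 * M / N := by
  have hN' : (0 : ℝ) < N := by exact_mod_cast hN
  have hS' : (0 : ℝ) < S.card := by exact_mod_cast hS.card_pos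
  set e : ℝ := 2 * M / N with he
  have he0 : 0 ≤ e := by positivity
  have h6 : 6 * (M : ℝ) / N = 3 * e := by rw [he]; ring
  set b : ℝ := (∑ i ∈ S, av x N (fun n => ψ (n + σ i))) / S.card with hb
  have hab : |av x N ψ - b| ≤ e := by
    have h1 : av x N ψ - b = (∑ i ∈ S, (av x N ψ - av x N (fun n => ψ (n + σ i)))) / S.card := by
      rw [Finset.sum_sub_distrib, Finset.sum_const, nsmul_eq_mul, hb]
      field_simp
    rw [h1, abs_div, abs_of_pos hS', div_le_iff₀ hS']
    refine (Finset.abs_sum_le_sum_abs _ _).trans ?_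
    calc ∑ i ∈ S, |av x N ψ - av x N (fun n => ψ (n + σ i))| ≤ ∑ _i ∈ S, e :=
          Finset.sum_le_sum fun i hi => av_shift x N hN ψ (σ i) M (hσ i hi)
      _ = e * S.card := by rw [Finset.sum_const, nsmul_eq_mul, mul_comm]
  have hb1 : |b| ≤ 1 := by
    rw [hb, abs_div, abs_of_pos hS', div_le_one hS']
    refine (Finset.abs_sum_le_sum_abs _ _).trans ?_
    calc ∑ i ∈ S, |av x N (fun n => ψ (n + σ i))| ≤ ∑ _i ∈ S, (1 : ℝ) :=
          Finset.sum_le_sum fun i _ => abs_av_le x N hN _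
      _ = S.card := by simp
  have ha1 := abs_av_le x N hN ψ
  -- the square of the mean
  have hbA : b ^ 2 ≤ (∑ i ∈ S, ∑ j ∈ S, |av x N (fun n => ψ (n + σ i) + ψ (n + σ j))|) /
      (S.card : ℝ) ^ 2 := by
    have h1 : ∑ i ∈ S, av x N (fun n => ψ (n + σ i)) =
        (∑ n ∈ range N, ∑ i ∈ S, chi (ψ (x + n + σ i))) / N := by
      unfold av
      rw [← Finset.sum_div, Finset.sum_comm]
    have h2 : (∑ n ∈ range N, ∑ i ∈ S, chi (ψ (x + n + σ i))) ^ 2 ≤
        N * ∑ n ∈ range N, (∑ i ∈ S, chi (ψ (x + n + σ i))) ^ 2 := by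
      have := sq_sum_le_card_mul_sum_sq (s := range N)
        (f := fun n : ℕ => ∑ i ∈ S, chi (ψ (x + n + σ i)))
      rwa [Finset.card_range] at this
    have h3 : ∑ n ∈ range N, (∑ i ∈ S, chi (ψ (x + n + σ i))) ^ 2 =
        N * ∑ i ∈ S, ∑ j ∈ S, av x N (fun n => ψ (n + σ i) + ψ (n + σ j)) := by
      have h4 : ∀ i j, (N : ℝ) * av x N (fun n => ψ (n + σ i) + ψ (n + σ j)) =
          ∑ n ∈ range N, chi (ψ (x + n + σ i)) * chi (ψ (x + n + σ j)) := by
        intro i j
        unfold av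
        rw [mul_div_cancel₀ _ hN'.ne']
        exact Finset.sum_congr rfl fun n _ => chi_add _ _
      rw [Finset.mul_sum, Finset.sum_congr rfl fun i _ => Finset.mul_sum _ _ _]
      rw [Finset.sum_congr rfl fun i _ => Finset.sum_congr rfl fun j _ => h4 i j]
      rw [Finset.sum_congr rfl fun i _ => Finset.sum_comm, Finset.sum_comm]
      refine Finset.sum_congr rfl fun n _ => ?_
      rw [sq, Finset.sum_mul_sum]
    have h5 : ∑ i ∈ S, ∑ j ∈ S, av x N (fun n => ψ (n + σ i) + ψ (n + σ j)) ≤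
        ∑ i ∈ S, ∑ j ∈ S, |av x N (fun n => ψ (n + σ i) + ψ (n + σ j))| :=
      Finset.sum_le_sum fun i _ => Finset.sum_le_sum fun j _ => le_abs_self _
    rw [hb, h1, div_pow, div_pow]
    apply div_le_div_of_nonneg_right _ (by positivity)
    rw [div_le_iff₀ (by positivity)]
    refine h2.trans ?_
    rw [h3]
    have : 0 ≤ (N : ℝ) ^ 2 := by positivity
    nlinarith
  rw [h6]
  rw [sq_abs]
  have := elem _ b e ha1 hb1 he0 hab
  linarith

/-- powers of numbers in the unit interval -/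
theorem pow_diff (a b : ℝ) (ha : 0 ≤ a) (hab : a ≤ b) (hb : b ≤ 1) (m : ℕ) :
    b ^ m ≤ a ^ m + m * (b - a) := by
  induction m with
  | zero => simp
  | succ m ih =>
    have h1 : a ^ m ≤ 1 := pow_le_one₀ ha (hab.trans hb)
    have h2 : 0 ≤ b ^ m - a ^ m := sub_nonneg.mpr (pow_le_pow_left₀ ha hab m)
    have h3 : b ^ (m + 1) - a ^ (m + 1) = b * (b ^ m - a ^ m) + (b - a) * a ^ m := by ring
    have h4 : b * (b ^ m - a ^ m) ≤ 1 * (b ^ m - a ^ m) := mul_le_mul_of_nonneg_right hb h2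
    have h5 : (b - a) * a ^ m ≤ (b - a) * 1 := mul_le_mul_of_nonneg_left h1 (by linarith)
    push_cast
    linarith

theorem pow_min (A ε : ℝ) (hA : 0 ≤ A) (hε : 0 ≤ ε) (y : ℝ) (hy : 0 ≤ y) (hy1 : y ≤ 1)
    (h : y ≤ A + ε) (m : ℕ) : y ^ m ≤ A ^ m + m * ε := by
  rcases le_total y A with h1 | h1
  · have := pow_le_pow_left₀ hy h1 m
    have h2 : (0 : ℝ) ≤ m * ε := by positivity
    linarith
  · have h2 := pow_diff A y hA h1 hy1 m
    have h3 : (m : ℝ) * (y - A) ≤ m * ε := mul_le_mul_of_nonneg_left (by linarith) (by positivity)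
    linarith

theorem main : S_vdc := by
  intro ι S x N M σs
  induction σs with
  | nil =>
    intro ψ hS hN _
    have : (0 : ℝ) ≤ 6 * M / N := by positivity
    simp only [List.length_nil, pow_zero, pow_one, one_mul, PH]
    linarith
  | cons σ σs ih =>
    intro ψ hS hN hσ
    have hS' : (0 : ℝ) < S.card := by exact_mod_cast hS.card_pos
    have hε : (0 : ℝ) ≤ 6 * M / N := by positivity
    have hstep := step S hS x N M hN σ (hσ σ (List.mem_cons_self)) ψ
    set a : ℝ := |av x N ψ| with ha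
    have ha0 : 0 ≤ a := abs_nonneg _
    have ha1 : a ≤ 1 := abs_av_le x N hN ψ
    set z : ι × ι → ℝ := fun p => |av x N (fun n => ψ (n + σ p.1) + ψ (n + σ p.2))| with hz
    set A : ℝ := (∑ i ∈ S, ∑ j ∈ S, |av x N (fun n => ψ (n + σ i) + ψ (n + σ j))|) /
      (S.card : ℝ) ^ 2 with hA
    have hAz : A = ∑ p ∈ S ×ˢ S, (1 / (S.card : ℝ) ^ 2) * z p := by
      rw [hA, ← Finset.mul_sum, Finset.sum_product, div_eq_inv_mul, one_div]
    have hz0 : ∀ p, 0 ≤ z p := fun p => abs_nonneg _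
    have hz1 : ∀ p, z p ≤ 1 := fun p => abs_av_le x N hN _
    have hA0 : 0 ≤ A := by
      rw [hAz]
      exact Finset.sum_nonneg fun p _ => mul_nonneg (by positivity) (hz0 p)
    have hcard : ∑ p ∈ S ×ˢ S, (1 / (S.card : ℝ) ^ 2) = 1 := by
      rw [Finset.sum_const, Finset.card_product, nsmul_eq_mul]
      push_cast
      field_simp
    have hjen := Real.pow_arith_mean_le_arith_mean_pow (S ×ˢ S) (fun _ => 1 / (S.card : ℝ) ^ 2) z
      (fun p _ => by positivity) hcard (fun p _ => hz0 p) (2 ^ σs.length)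
    rw [← hAz] at hjen
    -- the induction hypothesis
    have hih : ∀ p ∈ S ×ˢ S, z p ^ (2 ^ σs.length) ≤
        PH S x N σs (fun n => ψ (n + σ p.1) + ψ (n + σ p.2)) + 8 ^ σs.length * (6 * M / N) := by
      intro p _
      exact ih _ hS hN fun τ hτ i hi => hσ τ (List.mem_cons_of_mem _ hτ) i hi
    have hsum : ∑ p ∈ S ×ˢ S, (1 / (S.card : ℝ) ^ 2) * z p ^ (2 ^ σs.length) ≤
        PH S x N (σ :: σs) ψ + 8 ^ σs.length * (6 * M / N) := by
      calc ∑ p ∈ S ×ˢ S, (1 / (S.card : ℝ) ^ 2) * z p ^ (2 ^ σs.length)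
          ≤ ∑ p ∈ S ×ˢ S, (1 / (S.card : ℝ) ^ 2) *
            (PH S x N σs (fun n => ψ (n + σ p.1) + ψ (n + σ p.2)) + 8 ^ σs.length * (6 * M / N)) :=
            Finset.sum_le_sum fun p hp => mul_le_mul_of_nonneg_left (hih p hp) (by positivity)
        _ = (1 / (S.card : ℝ) ^ 2) * ∑ p ∈ S ×ˢ S, PH S x N σs (fun n => ψ (n + σ p.1) + ψ (n + σ p.2)) +
            (∑ p ∈ S ×ˢ S, (1 / (S.card : ℝ) ^ 2)) * (8 ^ σs.length * (6 * M / N)) := by
            rw [Finset.mul_sum, Finset.sum_mul, ← Finset.sum_add_distrib]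
            exact Finset.sum_congr rfl fun p _ => by ring
        _ = PH S x N (σ :: σs) ψ + 8 ^ σs.length * (6 * M / N) := by
            rw [hcard, one_mul, Finset.sum_product]
            simp only [PH]
            congr 1
            rw [one_div, div_eq_inv_mul]
    have hpow : (a ^ 2) ^ (2 ^ σs.length) ≤ A ^ (2 ^ σs.length) + (2 ^ σs.length : ℕ) * (6 * M / N) :=
      pow_min A (6 * M / N) hA0 hε (a ^ 2) (by positivity) (pow_le_one₀ ha0 ha1) hstep _
    have h82 : (2 : ℝ) ^ σs.length ≤ 8 ^ σs.length := pow_le_pow_left₀ (by norm_num) (by norm_num) _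
    have h8 : (0 : ℝ) < 8 ^ σs.length := by positivity
    have hfin : (8 : ℝ) ^ σs.length * (6 * M / N) + 2 ^ σs.length * (6 * M / N) ≤
        8 ^ (σs.length + 1) * (6 * M / N) := by
      rw [← add_mul]
      apply mul_le_mul_of_nonneg_right _ hε
      rw [pow_succ]
      linarith
    rw [List.length_cons, pow_succ' 2 σs.length, pow_mul]
    push_cast at hpow
    linarith

end Pool.Agent.H557.SI.VDC
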