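import Pool.Agent.H557.SI.Ann
import Pool.Agent.H557.SI.Vdc
import Pool.Agent.H557.SI.Blk
import Pool.Agent.H557.SI.Gam
import Pool.Agent.H557.SI.One
import Pool.Agent.H557.SI.Eval
import Pool.Agent.H557.SI.Steps

/-!
The bias bound for progressions.
-/

set_option autoImplicit false

namespace Pool.Agent.H557.SI

open Polynomial Finset

theorem shf_le (T : Finset ℕ) (Λ : ℕ) {t : ∀ ℓ ∈ T, ℕ} (ht : t ∈ idx T) :
    shf T Λ t ≤ Λ * (T.card * ∏ ℓ ∈ T, ℓ) := by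
  unfold shf
  apply Nat.mul_le_mul_left
  have h1 : ∀ ℓ ∈ T.attach, t ℓ.1 ℓ.2 * ∏ m ∈ T.erase ℓ.1, m ≤ ∏ m ∈ T, m := by
    intro ℓ _
    unfold idx at ht
    rw [Finset.mem_pi] at ht
    have h2 := Finset.mem_range.mp (ht ℓ.1 ℓ.2)
    calc t ℓ.1 ℓ.2 * ∏ m ∈ T.erase ℓ.1, m ≤ ℓ.1 * ∏ m ∈ T.erase ℓ.1, m :=
          Nat.mul_le_mul_right _ h2.le
      _ = ∏ m ∈ T, m := Finset.mul_prod_erase T (fun m => m) ℓ.2
  refine (Finset.sum_le_sum h1).trans ?_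
  rw [Finset.sum_const, Finset.card_attach, smul_eq_mul]

theorem idx_nonempty (T : Finset ℕ) (hT : ∀ ℓ ∈ T, 0 < ℓ) : (idx T).Nonempty := by
  refine ⟨fun _ _ => 0, ?_⟩
  unfold idx
  rw [Finset.mem_pi]
  intro ℓ hℓ
  exact Finset.mem_range.mpr (hT ℓ hℓ)

theorem bias_core {L W Dp k q : ℕ} (T : Finset ℕ)
    (hT : ∀ ℓ ∈ T, ℓ.Prime ∧ ℓ ≤ k ∧ k < 2 * ℓ ∧ ℓ ≠ 2) (hbad : ∀ ℓ ∈ T, ¬ Bad L W Dp k ℓ)
    (hq : ∀ ℓ ∈ T, ¬ ℓ ∣ q) (Λs : List ℕ)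
    (hΛc : ∀ Λ ∈ Λs, ∀ ℓ ∈ T, Nat.Coprime ℓ Λ) (Mx : ℕ) (hMx : ∀ Λ ∈ Λs, Λ ≤ Mx)
    (hΛ : DD k ∣ (Λs.map fun Λ => (1 - X ^ Λ : (ZMod 2)[X])).prod * ∏ ℓ ∈ T, Phi ℓ)
    (hk : 1 ≤ k) {A : (ZMod 2)[X]} (hA : A ≠ 0) (hd : A.natDegree < Dp)
    (hs : A.support.card ≤ L) (r0 : ℤ) (N : ℕ) (hN : 0 < N) :
    |av 0 N (fun m => act A (cc k) (r0 + q * m))| ^ (2 ^ Λs.length) ≤
      ∏ ℓ ∈ T, (1 - 2 * (W : ℝ) / (2 ^ Λs.length * ℓ)) +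
        (8 ^ Λs.length * (6 * (Mx * (T.card * ∏ ℓ ∈ T, ℓ) : ℕ)) +
          2 * (T.card * ∏ ℓ ∈ T, ℓ : ℕ)) / N := by
  obtain ⟨β, ρ, hper, hkill, hdec, hsp⟩ := ann T hT hbad Λs hΛ hk hA hd hs
  set β' : ℕ → ℤ → ZMod 2 := fun ℓ m => β ℓ (r0 + q * m) with hβ'
  set ρ' : ℤ → ZMod 2 := fun m => ρ (r0 + q * m) with hρ'
  have hfun : (fun m : ℤ => act A (cc k) (r0 + q * m)) = fun m => ∑ ℓ ∈ T, β' ℓ m + ρ' m := by
    funext m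
    exact hdec _
  have hper' : ∀ ℓ ∈ T, ∀ n, β' ℓ (n + ℓ) = β' ℓ n := by
    intro ℓ hℓ n
    simp only [hβ']
    rw [show r0 + (q : ℤ) * (n + ℓ) = (r0 + q * n) + (ℓ : ℤ) * q by ring]
    exact periodic_mul (f := β ℓ) (hper ℓ hℓ) (r0 + q * n) q
  have hkill' : Kill Λs ρ' := Kill_sub Λs hkill q r0
  have hsp' : ∀ ℓ ∈ T, ∀ c : ZMod 2,
      W < ((range ℓ).filter fun x : ℕ => β' ℓ (x : ℤ) ≠ c).card := by
    intro ℓ hℓ c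
    have hcop : Nat.Coprime ℓ q := (Nat.Prime.coprime_iff_not_dvd (hT ℓ hℓ).1).mpr (hq ℓ hℓ)
    have h1 := card_eq (hT ℓ hℓ).1.pos (fun n : ℤ => β ℓ n ≠ c)
      (fun n => by rw [hper ℓ hℓ n]) q hcop r0
    simp only [hβ']
    rw [h1]
    exact hsp ℓ hℓ c
  have hv := VDC.main _ (idx T) 0 N (Mx * (T.card * ∏ ℓ ∈ T, ℓ)) (Λs.map (shf T))
    (fun m => ∑ ℓ ∈ T, β' ℓ m + ρ' m) (idx_nonempty T fun ℓ hℓ => (hT ℓ hℓ).1.pos) hN (by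
      intro σ hσ t ht
      rw [List.mem_map] at hσ
      obtain ⟨Λ, hΛm, rfl⟩ := hσ
      exact (shf_le T Λ ht).trans (Nat.mul_le_mul_right _ (hMx Λ hΛm)))
  have he := EVAL.main ONE.main T (fun ℓ hℓ => (hT ℓ hℓ).1) 0 N hN Λs hΛc β' ρ' hper' hkill'
  rw [hfun]
  rw [List.length_map] at hv
  have hprod : ∏ ℓ ∈ T, gam ℓ Λs.length (β' ℓ) ≤
      ∏ ℓ ∈ T, (1 - 2 * (W : ℝ) / (2 ^ Λs.length * ℓ)) := by
    refine Finset.prod_le_prod (fun ℓ hℓ => ?_) (fun ℓ hℓ => ?_)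
    · exact (GAM.main ℓ (hT ℓ hℓ).1.pos ((hT ℓ hℓ).1.odd_of_ne_two (hT ℓ hℓ).2.2.2) Λs.length W
        (β' ℓ) (hper' ℓ hℓ) (hsp' ℓ hℓ)).1
    · exact (GAM.main ℓ (hT ℓ hℓ).1.pos ((hT ℓ hℓ).1.odd_of_ne_two (hT ℓ hℓ).2.2.2) Λs.length W
        (β' ℓ) (hper' ℓ hℓ) (hsp' ℓ hℓ)).2
  have hlast : (8 ^ Λs.length * (6 * ((Mx * (T.card * ∏ ℓ ∈ T, ℓ) : ℕ) : ℝ)) +
          2 * ((T.card * ∏ ℓ ∈ T, ℓ : ℕ) : ℝ)) / N =
      8 ^ Λs.length * (6 * ((Mx * (T.card * ∏ ℓ ∈ T, ℓ) : ℕ) : ℝ) / N) +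
        2 * ((T.card * ∏ ℓ ∈ T, ℓ : ℕ) : ℝ) / N := by
    ring
  rw [hlast]
  linarith

theorem prod_le_exp' {T : Finset ℕ} {W K s : ℕ} (hT : ∀ ℓ ∈ T, 0 < ℓ ∧ ℓ ≤ K ∧ 2 * W ≤ ℓ) :
    ∏ ℓ ∈ T, (1 - 2 * (W : ℝ) / (2 ^ s * ℓ)) ≤ Real.exp (-(2 * W * T.card / (2 ^ s * K))) := by
  have h1 : ∏ ℓ ∈ T, (1 - 2 * (W : ℝ) / (2 ^ s * ℓ)) ≤
      ∏ _ℓ ∈ T, Real.exp (-(2 * W / (2 ^ s * K))) := by
    refine Finset.prod_le_prod ?_ ?_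
    · intro ℓ hℓ
      obtain ⟨h0, -, h2⟩ := hT ℓ hℓ
      have h0' : (0 : ℝ) < ℓ := by exact_mod_cast h0
      have h2' : 2 * (W : ℝ) ≤ ℓ := by exact_mod_cast h2
      have h3 : (1 : ℝ) ≤ 2 ^ s := one_le_pow₀ (by norm_num)
      rw [sub_nonneg, div_le_one (by positivity)]
      have h4 : (ℓ : ℝ) ≤ 2 ^ s * ℓ := le_mul_of_one_le_left h0'.le h3
      linarith
    · intro ℓ hℓ
      obtain ⟨h0, h1, -⟩ := hT ℓ hℓ
      have h0' : (0 : ℝ) < ℓ := by exact_mod_cast h0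
      have h1' : (ℓ : ℝ) ≤ K := by exact_mod_cast h1
      have h3 : 2 * (W : ℝ) / (2 ^ s * K) ≤ 2 * W / (2 ^ s * ℓ) :=
        div_le_div_of_nonneg_left (by positivity) (by positivity)
          (mul_le_mul_of_nonneg_left h1' (by positivity))
      have h4 := Real.add_one_le_exp (-(2 * (W : ℝ) / (2 ^ s * K)))
      linarith
  refine h1.trans (le_of_eq ?_)
  rw [Finset.prod_const, ← Real.exp_nat_mul]
  congr 1
  ring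

/-- sizes of logarithms -/
theorem log_sizes {K : ℝ} (hK : 12960000 ≤ K) :
    1 ≤ Real.log K ∧ Real.log K ≤ K / 54000 ∧ Real.log K ^ 2 ≤ K / 225 := by
  have hK0 : 0 < K := by linarith
  have hlog1 : 1 ≤ Real.log K := by
    rw [Real.le_log_iff_exp_le hK0]
    have := Real.exp_one_lt_d9
    linarith
  obtain ⟨r, hr⟩ : ∃ r, r = √K := ⟨_, rfl⟩
  obtain ⟨u, hu⟩ : ∃ u, u = √r := ⟨_, rfl⟩
  have hrr : r * r = K := by rw [hr]; exact Real.mul_self_sqrt hK0.le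
  have hr0 : 0 ≤ r := by rw [hr]; exact Real.sqrt_nonneg _
  have hr1 : 3600 ≤ r := by
    rw [hr]
    apply Real.le_sqrt_of_sq_le
    linarith
  have huu : u * u = r := by rw [hu]; exact Real.mul_self_sqrt hr0
  have hu0 : 0 ≤ u := by rw [hu]; exact Real.sqrt_nonneg _
  have hu1 : 60 ≤ u := by
    rw [hu]
    apply Real.le_sqrt_of_sq_le
    linarith
  have hu2 : K = u ^ 4 := by rw [← hrr, ← huu]; ring
  have hlogu : Real.log K ≤ 4 * u := by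
    rw [hu2, Real.log_pow]
    have := Real.log_le_sub_one_of_pos (by linarith : 0 < u)
    push_cast
    linarith
  refine ⟨hlog1, ?_, ?_⟩
  · refine hlogu.trans ?_
    have h1 : 4 * u ≤ r / 15 := by rw [← huu]; nlinarith
    have h2 : r / 15 ≤ K / 54000 := by rw [← hrr]; nlinarith
    linarith
  · have h1 : Real.log K ^ 2 ≤ (4 * u) ^ 2 := pow_le_pow_left₀ (by linarith) hlogu 2
    have h2 : (4 * u) ^ 2 = 16 * r := by rw [← huu]; ring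
    have h3 : 16 * r ≤ K / 225 := by rw [← hrr]; nlinarith
    linarith

theorem s_le {K : ℝ} {s : ℕ} (hK : 0 < K) (hs : (8 : ℝ) ^ s ≤ K) : 2 * (s : ℝ) ≤ Real.log K := by
  have h1 := Real.log_le_log (by positivity) hs
  rw [Real.log_pow] at h1
  have h2 : (2 : ℝ) ≤ Real.log 8 := by
    rw [show (8 : ℝ) = 2 ^ 3 by norm_num, Real.log_pow]
    have := Real.log_two_gt_d9
    push_cast
    linarith
  have h3 : (0 : ℝ) ≤ s := Nat.cast_nonneg _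
  nlinarith

theorem y_bounds {K : ℝ} {s : ℕ} (hK : 0 < K) (hs : 1 ≤ s) :
    K / s ≤ K * (1 + Real.log s) / s ∧ K * (1 + Real.log s) / s ≤ K := by
  have h1 : (1 : ℝ) ≤ s := by exact_mod_cast hs
  have h2 : 0 ≤ Real.log s := Real.log_nonneg h1
  have h3 := Real.log_le_sub_one_of_pos (by linarith : (0 : ℝ) < s)
  constructor
  · apply div_le_div_of_nonneg_right _ (by linarith)
    nlinarith
  · rw [div_le_iff₀ (by linarith)]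
    nlinarith

theorem root_le {a E : ℝ} {s : ℕ} (ha : 0 ≤ a)
    (h : a ^ (2 ^ s) ≤ 2 * Real.exp (-E)) : a ≤ 2 * Real.exp (-(E / 2 ^ s)) := by
  have h2 : (2 * Real.exp (-(E / 2 ^ s))) ^ (2 ^ s) = 2 ^ (2 ^ s) * Real.exp (-E) := by
    rw [mul_pow, ← Real.exp_nat_mul]
    congr 2
    push_cast
    field_simp
  have h3 : (2 : ℝ) ≤ 2 ^ (2 ^ s) := by
    calc (2 : ℝ) = 2 ^ 1 := by norm_num
      _ ≤ 2 ^ (2 ^ s) := pow_le_pow_right₀ (by norm_num) Nat.one_le_two_pow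
  have h4 : a ^ (2 ^ s) ≤ (2 * Real.exp (-(E / 2 ^ s))) ^ (2 ^ s) := by
    rw [h2]
    refine h.trans ?_
    exact mul_le_mul_of_nonneg_right h3 (Real.exp_pos _).le
  exact le_of_pow_le_pow_left₀ (by positivity) (by positivity) h4

end Pool.Agent.H557.SI
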