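import Pool.Agent.H557.SI.Main
import Pool.Agent.H557.Dyadic

/-!
The dyadic version for short intervals.
-/

set_option autoImplicit false

namespace Pool.Agent.H557.SI

open Finset Filter Topology

theorem dy_main : ∃ c C : ℝ, 0 < c ∧ 0 < C ∧ ∀ K L W : ℕ, 2 ≤ K → 1 ≤ L → 1 ≤ W →
    ∃ E : Finset ℕ, (∀ a H : ℕ, ((E ∩ Finset.Icc a (a + H)).card : ℝ) ≤
        C * ((L : ℝ) * W) * (1 + H * (((L : ℝ) * W) ^ 2 * Real.log K / K) ^ (1 / 3 : ℝ))) ∧
      ∀ k, K ≤ k → k ≤ 2 * K → k ∉ E →
      ∀ s : ℕ, 1 ≤ s → ∀ q : ℕ, 1 ≤ q → Real.log q ≤ c * K →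
        ∀ (ρ : ℕ) (D : Finset ℕ) (w : ℕ → ZMod 2), D.card ≤ L → (∀ d ∈ D, 5 * d ≤ K) →
          ∀ x N : ℕ, (q : ℝ) * Real.exp (C * (K * (1 + Real.log s) / s)) ≤ N →
          |2 ^ D.card * q * ((((Finset.Ico x (x + N)).filter (Pat k q ρ D w)).card : ℝ) / N) - 1| ≤
            C * (2 ^ D.card * Real.exp (-(c * W / (8 ^ s * Real.log K)))) := by
  obtain ⟨c, C, hc0, hc1, hC0, hwin⟩ := win_main
  refine ⟨c / 2, 2 + 2 * (2 / c) ^ (1 / 3 : ℝ) + 2 * C, by positivity, by positivity, ?_⟩
  intro K L W hK2 hL1 hW1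
  have hK2r : (2 : ℝ) ≤ K := by exact_mod_cast hK2
  have hK0r : (0 : ℝ) < K := by linarith
  have hlogK2 : Real.log 2 ≤ Real.log K := Real.log_le_log (by norm_num) hK2r
  have hlog2 : (0.69 : ℝ) ≤ Real.log 2 := by
    have := Real.log_two_gt_d9
    linarith
  have hlogK : 0 < Real.log K := by linarith
  have hlog2K : Real.log (2 * K) ≤ 2 * Real.log K := by
    rw [Real.log_mul (by norm_num) hK0r.ne']
    linarith
  have hlog2K0 : 0 < Real.log (2 * K) := Real.log_pos (by linarith)
  have hL1r : (1 : ℝ) ≤ L := by exact_mod_cast hL1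
  have hW1r : (1 : ℝ) ≤ W := by exact_mod_cast hW1
  set V : ℝ := (L : ℝ) * W with hV
  have hV1 : 1 ≤ V := one_le_mul_of_one_le_of_one_le hL1r hW1r
  have hV0 : 0 < V := by linarith
  set t : ℝ := (c * K / (V ^ 2 * Real.log (2 * K))) ^ (1 / 3 : ℝ) with ht
  have hbase : 0 < c * K / (V ^ 2 * Real.log (2 * K)) := by positivity
  have ht0 : 0 < t := Real.rpow_pos_of_pos hbase _
  have ht3 : t ^ 3 = c * K / (V ^ 2 * Real.log (2 * K)) := by
    rw [ht, ← Real.rpow_natCast, ← Real.rpow_mul hbase.le]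
    norm_num
  have ht3' : t ^ 3 * (V ^ 2 * Real.log (2 * K)) = c * K := by
    rw [ht3]
    exact div_mul_cancel₀ _ (mul_pos (by positivity) hlog2K0).ne'
  set s : ℝ := (V ^ 2 * Real.log K / K) ^ (1 / 3 : ℝ) with hs
  have hs0 : 0 ≤ s := by positivity
  set C₁ : ℝ := (2 / c) ^ (1 / 3 : ℝ) with hC₁
  have hC₁0 : 0 ≤ C₁ := by positivity
  -- 1/t ≤ C₁ * s
  have hts : 1 / t ≤ C₁ * s := by
    rw [hC₁, hs, ← Real.mul_rpow (by positivity) (by positivity)]
    have h1 : (1 / t) ^ 3 ≤ 2 / c * (V ^ 2 * Real.log K / K) := by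
      rw [div_pow, one_pow, div_mul_div_comm, div_le_div_iff₀ (by positivity) (by positivity),
        one_mul, ht3]
      rw [show 2 * (V ^ 2 * Real.log K) * (c * K / (V ^ 2 * Real.log (2 * K))) =
        (2 * (V ^ 2 * Real.log K) * (c * K)) / (V ^ 2 * Real.log (2 * K)) by ring]
      rw [le_div_iff₀ (by positivity)]
      calc c * (K : ℝ) * (V ^ 2 * Real.log (2 * K)) ≤ c * (K : ℝ) * (V ^ 2 * (2 * Real.log K)) :=
            mul_le_mul_of_nonneg_left (mul_le_mul_of_nonneg_left hlog2K (by positivity))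
              (by positivity)
        _ = 2 * (V ^ 2 * Real.log K) * (c * K) := by ring
    have h4 : 1 / t = ((1 / t) ^ 3) ^ (1 / 3 : ℝ) := by
      rw [← Real.rpow_natCast, ← Real.rpow_mul (by positivity)]
      norm_num
    rw [h4]
    exact Real.rpow_le_rpow (by positivity) h1 (by norm_num)
  -- general bound
  have hgen : ∀ H : ℕ, V * (2 + 2 * (H / t)) ≤ (2 + 2 * C₁ + 2 * C) * V * (1 + H * s) := by
    intro H
    have h1 : (H : ℝ) / t ≤ H * (C₁ * s) := by
      rw [div_eq_mul_one_div]
      exact mul_le_mul_of_nonneg_left hts (Nat.cast_nonneg _)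
    have h2 : V * (2 + 2 * (H / t)) ≤ V * (2 + 2 * (H * (C₁ * s))) :=
      mul_le_mul_of_nonneg_left (by linarith) hV0.le
    have h3 : (2 + 2 * C₁ + 2 * C) * V * (1 + H * s) =
      V * (2 + 2 * (H * (C₁ * s))) + (2 * C₁ * V + 2 * V * (H * s)) + 2 * C * V * (1 + H * s) := by
        ring
    have h4 : 0 ≤ 2 * C₁ * V + 2 * V * (H * s) := by positivity
    have h5 : 0 ≤ 2 * C * V * (1 + H * s) := by positivity
    linarith
  rcases lt_or_ge t 1 with hlt | hge
  · -- trivial case
    refine ⟨Finset.Icc K (2 * K), ?_, ?_⟩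
    · intro a H
      refine le_trans ?_ (hgen H)
      have h1 : ((Finset.Icc K (2 * K) ∩ Finset.Icc a (a + H)).card : ℝ) ≤ H + 1 := by
        have h2 := Finset.card_le_card (Finset.inter_subset_right
          (s₁ := Finset.Icc K (2 * K)) (s₂ := Finset.Icc a (a + H)))
        rw [Nat.card_Icc, show a + H + 1 - a = H + 1 by omega] at h2
        exact_mod_cast h2
      have h3 : (H : ℝ) ≤ H / t := by
        rw [le_div_iff₀ ht0]
        have : (0 : ℝ) ≤ H := Nat.cast_nonneg _
        nlinarith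
      have h4 : 1 * (2 + 2 * ((H : ℝ) / t)) ≤ V * (2 + 2 * (H / t)) :=
        mul_le_mul_of_nonneg_right hV1 (by positivity)
      have h5 : (0 : ℝ) ≤ H := Nat.cast_nonneg _
      linarith
    · intro k hk1 hk2 hkE
      exact absurd (Finset.mem_Icc.mpr ⟨hk1, hk2⟩) hkE
  · set H := ⌊t⌋₊ with hH
    have hH1 : 1 ≤ H := Nat.le_floor (by push_cast; exact hge)
    have hHt : (H : ℝ) ≤ t := Nat.floor_le ht0.le
    have hHt2 : t ≤ 2 * H := by
      have h1 := (Nat.lt_floor_add_one t).le
      rw [← hH] at h1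
      have h2 : (1 : ℝ) ≤ H := by exact_mod_cast hH1
      linarith
    have hcond : ∀ K' : ℕ, K ≤ K' → K' ≤ 2 * K →
        ((L : ℝ) * W) ^ 2 * H ^ 3 * Real.log K' ≤ c * K' := by
      intro K' h1 h2
      have h1r : (K : ℝ) ≤ K' := by exact_mod_cast h1
      have h2r : (K' : ℝ) ≤ 2 * K := by exact_mod_cast h2
      have h5 : (H : ℝ) ^ 3 ≤ t ^ 3 := pow_le_pow_left₀ (Nat.cast_nonneg _) hHt 3
      have h7 : Real.log K' ≤ Real.log (2 * K) := Real.log_le_log (by linarith) h2r
      have h8 : 0 ≤ Real.log K' := Real.log_nonneg (by linarith)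
      calc ((L : ℝ) * W) ^ 2 * H ^ 3 * Real.log K'
          ≤ (V ^ 2 * t ^ 3) * Real.log (2 * K) :=
            mul_le_mul (mul_le_mul_of_nonneg_left h5 (by positivity)) h7 h8 (by positivity)
        _ = t ^ 3 * (V ^ 2 * Real.log (2 * K)) := by ring
        _ = c * K := ht3'
        _ ≤ c * K' := mul_le_mul_of_nonneg_left h1r hc0.le
    set J := K / H with hJ
    have hJH : J * H ≤ K := Nat.div_mul_le_self K H
    have hch : ∀ j : ℕ, ∃ E : Finset ℕ, j ≤ J → (E.card ≤ L * W ∧
        ∀ k, K + j * H ≤ k → k ≤ K + j * H + H → k ∉ E →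
        ∀ σ : ℕ, 1 ≤ σ → ∀ q : ℕ, 1 ≤ q → Real.log q ≤ c * (K + j * H : ℕ) →
          ∀ (ρ : ℕ) (D : Finset ℕ) (w : ℕ → ZMod 2), D.card ≤ L → (∀ d ∈ D, 5 * d ≤ K + j * H) →
            ∀ x N : ℕ, (q : ℝ) * Real.exp (C * ((K + j * H : ℕ) * (1 + Real.log σ) / σ)) ≤ N →
            |2 ^ D.card * q * ((((Finset.Ico x (x + N)).filter (Pat k q ρ D w)).card : ℝ) / N)
              - 1| ≤ C * (2 ^ D.card *
                Real.exp (-(c * W / (8 ^ σ * Real.log (K + j * H : ℕ)))))) := by
      intro j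
      by_cases hj : j ≤ J
      · have hjH : j * H ≤ K := (Nat.mul_le_mul_right H hj).trans hJH
        obtain ⟨E, hE1, hE2⟩ := hwin (K + j * H) H L W (by omega) hH1 hL1 hW1
          (hcond _ (by omega) (by omega))
        exact ⟨E, fun _ => ⟨hE1, hE2⟩⟩
      · exact ⟨∅, fun h => absurd h hj⟩
    choose E hE using hch
    refine ⟨(Finset.range (J + 1)).biUnion
      (fun j => E j ∩ Finset.Icc (K + j * H) (K + j * H + H)), ?_, ?_⟩
    · intro a H'
      refine le_trans ?_ (hgen H')
      -- the relevant windows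
      set F := (Finset.range (J + 1)).filter
        (fun j => K + j * H ≤ a + H' ∧ a ≤ K + j * H + H) with hF
      have hsub : ((Finset.range (J + 1)).biUnion
          (fun j => E j ∩ Finset.Icc (K + j * H) (K + j * H + H))) ∩ Finset.Icc a (a + H') ⊆
          F.biUnion E := by
        intro k hk
        rw [Finset.mem_inter, Finset.mem_biUnion, Finset.mem_Icc] at hk
        obtain ⟨⟨j, hj, hjk⟩, hk1, hk2⟩ := hk
        rw [Finset.mem_inter, Finset.mem_Icc] at hjk
        rw [Finset.mem_biUnion]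
        refine ⟨j, ?_, hjk.1⟩
        rw [hF, Finset.mem_filter]
        exact ⟨hj, by omega, by omega⟩
      have hFcard : F.card ≤ H' / H + 2 := by
        rcases F.eq_empty_or_nonempty with h0 | hne
        · rw [h0]; simp
        · set j₀ := F.min' hne with hj₀
          have hj₀F : j₀ ∈ F := Finset.min'_mem _ _
          have hFsub : F ⊆ Finset.Icc j₀ (j₀ + (H' / H + 1)) := by
            intro j hj
            have hle : j₀ ≤ j := Finset.min'_le _ _ hj
            rw [Finset.mem_Icc]
            refine ⟨hle, ?_⟩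
            obtain ⟨m, rfl⟩ := Nat.exists_eq_add_of_le hle
            have h1 := (Finset.mem_filter.mp hj).2.1
            have h2 := (Finset.mem_filter.mp hj₀F).2.2
            have h3 : m * H ≤ H' + H := by
              have : K + (j₀ * H + m * H) ≤ a + H' := by rw [← add_mul]; exact h1
              omega
            have h4 : m ≤ (H' + H) / H := (Nat.le_div_iff_mul_le (by omega)).mpr h3
            rw [Nat.add_div_right _ (by omega)] at h4
            omega
          have h6 := Finset.card_le_card hFsub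
          rw [Nat.card_Icc] at h6
          generalize H' / H = r at h6 ⊢
          omega
      have h1 : (((Finset.range (J + 1)).biUnion
          (fun j => E j ∩ Finset.Icc (K + j * H) (K + j * H + H))) ∩ Finset.Icc a (a + H')).card ≤
          (H' / H + 2) * (L * W) := by
        refine (Finset.card_le_card hsub).trans (Finset.card_biUnion_le.trans ?_)
        calc ∑ j ∈ F, (E j).card ≤ ∑ _j ∈ F, L * W := by
              refine Finset.sum_le_sum fun j hj => ?_
              have := Finset.mem_range.mp (Finset.mem_filter.mp hj).1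
              exact (hE j (by omega)).1
          _ = F.card * (L * W) := by rw [Finset.sum_const, smul_eq_mul]
          _ ≤ (H' / H + 2) * (L * W) := Nat.mul_le_mul_right _ hFcard
      have h2 : ((((Finset.range (J + 1)).biUnion
          (fun j => E j ∩ Finset.Icc (K + j * H) (K + j * H + H))) ∩
            Finset.Icc a (a + H')).card : ℝ) ≤ (((H' / H + 2) * (L * W) : ℕ) : ℝ) := by
        exact_mod_cast h1
      refine h2.trans ?_
      push_cast
      rw [mul_comm, hV]
      apply mul_le_mul_of_nonneg_left _ hV0.le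
      have h3 : ((H' / H : ℕ) : ℝ) ≤ (H' : ℝ) / H := Nat.cast_div_le
      have hH0 : (0 : ℝ) < H := by exact_mod_cast hH1
      have h4 : (H' : ℝ) / H ≤ 2 * (H' / t) := by
        rw [← mul_div_assoc, div_le_div_iff₀ hH0 ht0]
        have h5 : (0 : ℝ) ≤ H' := Nat.cast_nonneg _
        calc (H' : ℝ) * t ≤ H' * (2 * H) := mul_le_mul_of_nonneg_left hHt2 h5
          _ = 2 * H' * H := by ring
      linarith
    · intro k hk1 hk2 hkE σ hσ q hq hlogq ρ D w hDL hD5 x N hN
      obtain ⟨j, hj⟩ : ∃ j, j = (k - K) / H := ⟨_, rfl⟩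
      have hσ1 : (1 : ℝ) ≤ σ := by exact_mod_cast hσ
      have hσl : 0 ≤ Real.log σ := Real.log_nonneg hσ1
      have hjJ : j ≤ J := by
        rw [hj, hJ]
        exact Nat.div_le_div_right (by omega)
      have hj1 : j * H ≤ k - K := by
        rw [hj]
        exact Nat.div_mul_le_self _ _
      have hj2 : k - K < j * H + H := by
        rw [hj]
        exact Nat.lt_div_mul_add hH1
      have hkEj : k ∉ E j := by
        intro h
        refine hkE (Finset.mem_biUnion.mpr ⟨j, Finset.mem_range.mpr (by omega), ?_⟩)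
        exact Finset.mem_inter.mpr ⟨h, Finset.mem_Icc.mpr ⟨by omega, by omega⟩⟩
      have hjH : j * H ≤ K := (Nat.mul_le_mul_right H hjJ).trans hJH
      have hK'1 : (K : ℝ) ≤ ((K + j * H : ℕ) : ℝ) := by exact_mod_cast (by omega : K ≤ K + j * H)
      have hK'2 : ((K + j * H : ℕ) : ℝ) ≤ 2 * K := by exact_mod_cast (by omega : K + j * H ≤ 2 * K)
      have hmain := (hE j hjJ).2 k (by omega) (by omega) hkEj σ hσ q hq
        (hlogq.trans (by
          have h1 : c / 2 * (K : ℝ) ≤ c * K := by
            have : 0 < c * K := by positivity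
            linarith
          exact h1.trans (mul_le_mul_of_nonneg_left hK'1 hc0.le))) ρ D w hDL
        (fun d hd => (hD5 d hd).trans (by omega)) x N (by
          refine le_trans ?_ hN
          apply mul_le_mul_of_nonneg_left _ (Nat.cast_nonneg _)
          apply Real.exp_le_exp.mpr
          have e1 : ((K + j * H : ℕ) : ℝ) * (1 + Real.log σ) / σ ≤
              2 * (K * (1 + Real.log σ) / σ) := by
            rw [← mul_div_assoc]
            apply div_le_div_of_nonneg_right _ (by linarith)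
            calc ((K + j * H : ℕ) : ℝ) * (1 + Real.log σ) ≤ 2 * K * (1 + Real.log σ) :=
                  mul_le_mul_of_nonneg_right hK'2 (by linarith)
              _ = 2 * (K * (1 + Real.log σ)) := by ring
          have e2 := mul_le_mul_of_nonneg_left e1 hC0.le
          have e3 : 0 ≤ (K : ℝ) * (1 + Real.log σ) / σ := by positivity
          have e4 : 0 ≤ (2 + 2 * C₁) * ((K : ℝ) * (1 + Real.log σ) / σ) := by positivity
          calc C * (((K + j * H : ℕ) : ℝ) * (1 + Real.log σ) / σ) ≤
                C * (2 * (K * (1 + Real.log σ) / σ)) := e2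
            _ ≤ C * (2 * (K * (1 + Real.log σ) / σ)) +
                (2 + 2 * C₁) * ((K : ℝ) * (1 + Real.log σ) / σ) := by linarith
            _ = (2 + 2 * C₁ + 2 * C) * (K * (1 + Real.log σ) / σ) := by ring)
      refine hmain.trans ?_
      have hlogK' : Real.log ((K + j * H : ℕ) : ℝ) ≤ 2 * Real.log K :=
        (Real.log_le_log (by linarith) hK'2).trans hlog2K
      have hlogK'0 : 0 < Real.log ((K + j * H : ℕ) : ℝ) := Real.log_pos (by linarith)
      have h8 : (0 : ℝ) < 8 ^ σ := by positivity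
      have hexp : Real.exp (-(c * W / (8 ^ σ * Real.log (K + j * H : ℕ)))) ≤
          Real.exp (-(c / 2 * W / (8 ^ σ * Real.log K))) := by
        apply Real.exp_le_exp.mpr
        rw [neg_le_neg_iff]
        refine half_le hc0 (Nat.cast_nonneg W) (by positivity) (by positivity) ?_
        calc (8 : ℝ) ^ σ * Real.log ((K + j * H : ℕ) : ℝ) ≤ 8 ^ σ * (2 * Real.log K) :=
              mul_le_mul_of_nonneg_left hlogK' h8.le
          _ = 2 * (8 ^ σ * Real.log K) := by ring
      apply mul_le_mul _ _ (by positivity) (by positivity)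
      · linarith
      · exact mul_le_mul_of_nonneg_left hexp (by positivity)

end Pool.Agent.H557.SI
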