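import Pool.Agent.H557.SI.Stm2

/-!
# Task SI2-GRP: grouping of the parts with small lcm (helper14)
-/

set_option autoImplicit false

namespace Pool.Agent.H557.SI.GRP

open Finset Nat

theorem LL_log (k : ℕ) : Real.log (LL k) ≤ 5.4 * k := by
  have h1 : Chebyshev.psi (k : ℝ) = Real.log (LL k) := Chebyshev.psi_eq_log_lcmUpto k
  have h2 := Chebyshev.psi_le_const_mul_self (x := (k : ℝ)) (Nat.cast_nonneg k)
  rw [h1] at h2
  have hlog4 : Real.log 4 ≤ 1.39 := by
    rw [show (4 : ℝ) = 2 ^ 2 by norm_num, Real.log_pow]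
    have := Real.log_two_lt_d9
    push_cast
    linarith
  have h5 : (0 : ℝ) ≤ k := Nat.cast_nonneg k
  nlinarith

theorem log4_lt : Real.log 4 < 1.4 := by
  rw [show (4 : ℝ) = 2 ^ 2 by norm_num, Real.log_pow]
  have := Real.log_two_lt_d9
  push_cast
  linarith

theorem dvd_LL {i b : ℕ} (h1 : 1 ≤ i) (h2 : i ≤ b) : i ∣ LL b :=
  Finset.dvd_lcm (f := id) (mem_Icc.2 ⟨h1, h2⟩)

/-- the number of the group of a prime -/
noncomputable def ii (k s p : ℕ) : ℕ := ⌊(s : ℝ) * Real.log (primorial p) / (1.4 * k)⌋₊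

/-- the primes of the group `i` -/
noncomputable def SS (k s : ℕ) (T : Finset ℕ) (i : ℕ) : Finset ℕ :=
  (Icc 1 k).filter (fun p => p.Prime ∧ p ∉ T ∧ ii k s p = i)

/-- the part of the small primes -/
def MM (k s : ℕ) : ℕ := ∏ p ∈ (Icc 1 s).filter Nat.Prime, p ^ Nat.log p k

/-- the common multiples -/
noncomputable def RR (k s : ℕ) (T : Finset ℕ) (i : ℕ) : ℕ :=
  MM k s * LL (k / (s + 1)) * ∏ p ∈ SS k s T i, p

open Classical in
/-- the groups -/
noncomputable def gg (k s d : ℕ) : ℕ :=
  if h : ∃ p : ℕ, p.Prime ∧ s < p ∧ p ∣ d then ii k s h.choose else 0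

theorem two_mul_le (s : ℕ) : 2 * s ≤ 8 ^ s := by
  induction s with
  | zero => simp
  | succ s ih =>
    have : 1 ≤ 8 ^ s := Nat.one_le_pow _ _ (by norm_num)
    rw [pow_succ]
    omega

theorem log_pri_le (p : ℕ) : Real.log (primorial p) ≤ Real.log 4 * p := by
  have h1 : ((primorial p : ℕ) : ℝ) ≤ 4 ^ p := by exact_mod_cast primorial_le_four_pow p
  have h2 : (0 : ℝ) < (primorial p : ℕ) := by exact_mod_cast primorial_pos p
  have h3 := Real.log_le_log h2 h1
  rw [Real.log_pow] at h3
  linarith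

theorem ii_lt {k s p : ℕ} (hk : 2 ≤ k) (hs : 1 ≤ s) (hp : p ≤ k) : ii k s p < s := by
  have hk0 : (0 : ℝ) < k := by exact_mod_cast (by omega : 0 < k)
  have hs0 : (0 : ℝ) < s := by exact_mod_cast (by omega : 0 < s)
  unfold ii
  have h1 := log_pri_le p
  have h2 : (p : ℝ) ≤ k := by exact_mod_cast hp
  have h3 : Real.log (primorial p) < 1.4 * k := by
    have h4 := log4_lt
    have h5 : 0 ≤ Real.log 4 := Real.log_nonneg (by norm_num)
    have h6 : Real.log 4 * p ≤ Real.log 4 * k := mul_le_mul_of_nonneg_left h2 h5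
    nlinarith
  have h7 : (s : ℝ) * Real.log (primorial p) / (1.4 * k) < s := by
    rw [div_lt_iff₀ (by positivity)]
    exact mul_lt_mul_of_pos_left h3 hs0
  have h8 : 0 ≤ (s : ℝ) * Real.log (primorial p) / (1.4 * k) := by
    have : 0 ≤ Real.log (primorial p) := Real.log_natCast_nonneg _
    positivity
  rw [Nat.floor_lt h8]
  exact h7

theorem smooth_dvd {k s d : ℕ} (hd0 : 0 < d) (hd : d ≤ k)
    (h : ∀ p : ℕ, p.Prime → p ∣ d → p ≤ s) : d ∣ MM k s := by
  rw [Nat.dvd_iff_prime_pow_dvd_dvd]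
  intro p j hp hj
  rcases Nat.eq_zero_or_pos j with h0 | h0
  · subst h0
    simp
  · have h1 : p ∣ d := (dvd_pow_self p h0.ne').trans hj
    have h2 : p ^ j ≤ k := (Nat.le_of_dvd hd0 hj).trans hd
    have h3 : j ≤ Nat.log p k := Nat.le_log_of_pow_le hp.one_lt h2
    unfold MM
    refine (pow_dvd_pow p h3).trans ?_
    exact Finset.dvd_prod_of_mem (fun p => p ^ Nat.log p k)
      (mem_filter.2 ⟨mem_Icc.2 ⟨hp.one_le, h p hp h1⟩, hp⟩)

theorem log_MM_le {k : ℕ} (hk : 2 ≤ k) (s : ℕ) : Real.log (MM k s) ≤ s * Real.log k := by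
  have hk0 : (0 : ℝ) < k := by exact_mod_cast (by omega : 0 < k)
  have hlk : 0 ≤ Real.log k := Real.log_natCast_nonneg _
  unfold MM
  push_cast
  rw [Real.log_prod]
  · calc ∑ p ∈ (Icc 1 s).filter Nat.Prime, Real.log ((p : ℝ) ^ Nat.log p k)
        ≤ ∑ p ∈ (Icc 1 s).filter Nat.Prime, Real.log k := by
          refine sum_le_sum fun p hp => ?_
          have hp' := (mem_filter.1 hp).2
          have h1 : p ^ Nat.log p k ≤ k := Nat.pow_log_le_self p (by omega)
          have h2 : ((p : ℝ) ^ Nat.log p k) ≤ k := by exact_mod_cast h1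
          have h3 : (0 : ℝ) < (p : ℝ) ^ Nat.log p k := by
            have : (0 : ℝ) < p := by exact_mod_cast hp'.pos
            positivity
          exact Real.log_le_log h3 h2
      _ = ((Icc 1 s).filter Nat.Prime).card * Real.log k := by
          rw [sum_const, nsmul_eq_mul]
      _ ≤ s * Real.log k := by
          refine mul_le_mul_of_nonneg_right ?_ hlk
          have h1 : ((Icc 1 s).filter Nat.Prime).card ≤ s := by
            refine (card_filter_le _ _).trans ?_
            simp
          exact_mod_cast h1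
  · intro p hp
    have hp' := (mem_filter.1 hp).2
    have : (0 : ℝ) < p := by exact_mod_cast hp'.pos
    positivity

theorem log_QQ_le {k s : ℕ} (hk : 2 ≤ k) (hs : 1 ≤ s) (T : Finset ℕ) (i : ℕ) :
    Real.log ((∏ p ∈ SS k s T i, p : ℕ) : ℝ) ≤ 1.4 * (k / s) + Real.log k := by
  have hk0 : (0 : ℝ) < k := by exact_mod_cast (by omega : 0 < k)
  have hs0 : (0 : ℝ) < s := by exact_mod_cast (by omega : 0 < s)
  have hlk : 0 ≤ Real.log k := Real.log_natCast_nonneg _
  rcases (SS k s T i).eq_empty_or_nonempty with h0 | hne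
  · rw [h0]
    simp only [prod_empty, Nat.cast_one, Real.log_one]
    positivity
  · obtain ⟨p0, hp0, hmin⟩ := exists_min_image _ id hne
    obtain ⟨p1, hp1, hmax⟩ := exists_max_image _ id hne
    simp only [id] at hmin hmax
    have h01 : p0 ≤ p1 := hmin p1 hp1
    obtain ⟨h0k, h0p, -, h0i⟩ := mem_filter.1 hp0
    obtain ⟨-, -, -, h1i⟩ := mem_filter.1 hp1
    -- the primes between
    have e1 : primorial p1 = primorial p0 *
        ∏ p ∈ (range (p1 + 1)).filter (fun p => p.Prime ∧ p0 < p), p := by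
      unfold primorial
      rw [← prod_union]
      · refine prod_congr ?_ fun _ _ => rfl
        ext p
        simp only [mem_filter, mem_range, mem_union]
        constructor
        · rintro ⟨h1, h2⟩
          rcases Nat.lt_or_ge p0 p with h3 | h3
          · exact Or.inr ⟨h1, h2, h3⟩
          · exact Or.inl ⟨by omega, h2⟩
        · rintro (⟨h1, h2⟩ | ⟨h1, h2, h3⟩)
          · exact ⟨by omega, h2⟩
          · exact ⟨h1, h2⟩
      · rw [disjoint_left]
        intro p h1 h2
        simp only [mem_filter, mem_range] at h1 h2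
        omega
    have h2 : ∏ p ∈ (SS k s T i).erase p0, p ≤
        ∏ p ∈ (range (p1 + 1)).filter (fun p => p.Prime ∧ p0 < p), p := by
      refine prod_le_prod_of_subset_of_one_le' ?_ ?_
      · intro p hp
        obtain ⟨h3, h4⟩ := mem_erase.1 hp
        have h5 := hmin p h4
        have h6 := hmax p h4
        exact mem_filter.2 ⟨mem_range.2 (by omega), (mem_filter.1 h4).2.1, by omega⟩
      · intro p hp _
        exact (mem_filter.1 hp).2.1.one_le
    have h3 : (∏ p ∈ SS k s T i, p) * primorial p0 ≤ p0 * primorial p1 := by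
      rw [← mul_prod_erase _ _ hp0, e1]
      calc p0 * (∏ p ∈ (SS k s T i).erase p0, p) * primorial p0
          ≤ p0 * (∏ p ∈ (range (p1 + 1)).filter (fun p => p.Prime ∧ p0 < p), p) * primorial p0 :=
            Nat.mul_le_mul_right _ (Nat.mul_le_mul_left _ h2)
        _ = p0 * (primorial p0 *
              ∏ p ∈ (range (p1 + 1)).filter (fun p => p.Prime ∧ p0 < p), p) := by ring
    have hQ : (0 : ℝ) < ((∏ p ∈ SS k s T i, p : ℕ) : ℝ) := by
      have : 0 < ∏ p ∈ SS k s T i, p := prod_pos fun p hp => (mem_filter.1 hp).2.1.pos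
      exact_mod_cast this
    have hP0 : (0 : ℝ) < (primorial p0 : ℕ) := by exact_mod_cast primorial_pos p0
    have hP1 : (0 : ℝ) < (primorial p1 : ℕ) := by exact_mod_cast primorial_pos p1
    have hp00 : (0 : ℝ) < p0 := by exact_mod_cast h0p.pos
    have h4 : ((∏ p ∈ SS k s T i, p : ℕ) : ℝ) * (primorial p0 : ℕ) ≤ p0 * (primorial p1 : ℕ) := by
      exact_mod_cast h3
    have h5 := Real.log_le_log (by positivity) h4
    rw [Real.log_mul hQ.ne' hP0.ne', Real.log_mul hp00.ne' hP1.ne'] at h5
    have h6 : Real.log p0 ≤ Real.log k := by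
      refine Real.log_le_log hp00 ?_
      exact_mod_cast (mem_Icc.1 h0k).2
    -- the floors
    have h7 : (i : ℝ) ≤ (s : ℝ) * Real.log (primorial p0) / (1.4 * k) := by
      rw [← h0i]
      refine Nat.floor_le ?_
      have : 0 ≤ Real.log (primorial p0) := Real.log_natCast_nonneg _
      positivity
    have h8 : (s : ℝ) * Real.log (primorial p1) / (1.4 * k) < i + 1 := by
      rw [← h1i]
      exact Nat.lt_floor_add_one _
    rw [le_div_iff₀ (by positivity)] at h7
    rw [div_lt_iff₀ (by positivity)] at h8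
    have h9 : (s : ℝ) * (Real.log (primorial p1) - Real.log (primorial p0)) < 1.4 * k := by
      nlinarith
    have h10 : Real.log (primorial p1) - Real.log (primorial p0) ≤ 1.4 * (k / s) := by
      have e : (1.4 : ℝ) * (k / s) = 1.4 * k / s := by ring
      rw [e, le_div_iff₀ hs0]
      linarith
    linarith

theorem cube_le {k : ℕ} (hk : 2 ≤ k) : Real.log k ^ 3 ≤ 27 * k := by
  have hk0 : (0 : ℝ) < k := by exact_mod_cast (by omega : 0 < k)
  have hlk : 0 ≤ Real.log k := Real.log_natCast_nonneg _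
  have h1 : Real.log k / 3 ≤ Real.exp (Real.log k / 3) := by
    have := Real.add_one_le_exp (Real.log k / 3)
    linarith
  have h2 := pow_le_pow_left₀ (by positivity) h1 3
  rw [← Real.exp_nat_mul] at h2
  have e : ((3 : ℕ) : ℝ) * (Real.log k / 3) = Real.log k := by push_cast; ring
  rw [e, Real.exp_log hk0] at h2
  have e2 : (Real.log k / 3) ^ 3 = Real.log k ^ 3 / 27 := by ring
  rw [e2] at h2
  linarith

theorem main : S_grp := by
  refine ⟨61, by norm_num, ?_⟩
  intro k s hk hs hsk T hT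
  have hk0 : (0 : ℝ) < k := by exact_mod_cast (by omega : 0 < k)
  have hs0 : (0 : ℝ) < s := by exact_mod_cast (by omega : 0 < s)
  have hs1 : (1 : ℝ) ≤ s := by exact_mod_cast hs
  have hlk : 0 ≤ Real.log k := Real.log_natCast_nonneg _
  have h2s := two_mul_le s
  have hhalf : k / (s + 1) ≤ k / 2 := Nat.div_le_div_left (by omega) (by norm_num)
  -- `s log k ≤ 27 k / s`
  have hslog : (s : ℝ) ≤ Real.log k := by
    have h1 : ((8 : ℝ) ^ s) ≤ k := by exact_mod_cast hsk
    have h2 := Real.log_le_log (by positivity) h1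
    rw [Real.log_pow] at h2
    have h3 : (1 : ℝ) ≤ Real.log 8 := by
      rw [show (8 : ℝ) = 2 ^ 3 by norm_num, Real.log_pow]
      have := Real.log_two_gt_d9
      push_cast
      linarith
    nlinarith
  have h27 : (s : ℝ) * Real.log k ≤ 27 * (k / s) := by
    have e : (27 : ℝ) * (k / s) = 27 * k / s := by ring
    rw [e, le_div_iff₀ hs0]
    have h1 := cube_le hk
    calc (s : ℝ) * Real.log k * s = s * s * Real.log k := by ring
      _ ≤ Real.log k * Real.log k * Real.log k := by gcongr
      _ = Real.log k ^ 3 := by ring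
      _ ≤ 27 * k := h1
  have hMpos : 0 < MM k s := by
    unfold MM
    exact prod_pos fun p hp => Nat.pow_pos (mem_filter.1 hp).2.pos
  refine ⟨gg k s, RR k s T, ?_, ?_⟩
  · intro i _
    have hQpos : 0 < ∏ p ∈ SS k s T i, p := prod_pos fun p hp => (mem_filter.1 hp).2.1.pos
    refine ⟨?_, ?_, ?_⟩
    · unfold RR
      exact Nat.mul_pos (Nat.mul_pos hMpos (LL_pos _)) hQpos
    · intro ℓ hℓ
      obtain ⟨hlp, hlk', hl2, -⟩ := hT ℓ hℓ
      rw [Nat.Prime.coprime_iff_not_dvd hlp]
      intro hdvd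
      unfold RR at hdvd
      rw [hlp.dvd_mul, hlp.dvd_mul] at hdvd
      rcases hdvd with (h1 | h1) | h1
      · unfold MM at h1
        obtain ⟨p, hp, h2⟩ := hlp.prime.exists_mem_finset_dvd h1
        obtain ⟨h3, h4⟩ := mem_filter.1 hp
        have h5 := hlp.dvd_of_dvd_pow h2
        have h6 := (Nat.prime_dvd_prime_iff_eq hlp h4).1 h5
        have h7 := (mem_Icc.1 h3).2
        omega
      · have h2 : LL (k / (s + 1)) ∣ (k / (s + 1))! := by
          unfold LL
          refine Finset.lcm_dvd fun j hj => ?_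
          have h3 := mem_Icc.1 hj
          exact Nat.dvd_factorial (Nat.lt_of_lt_of_le Nat.zero_lt_one h3.1) h3.2
        have h3 := (hlp.dvd_factorial).1 (h1.trans h2)
        omega
      · obtain ⟨p, hp, h2⟩ := hlp.prime.exists_mem_finset_dvd h1
        obtain ⟨-, h4, h5, -⟩ := mem_filter.1 hp
        have h6 := (Nat.prime_dvd_prime_iff_eq hlp h4).1 h2
        exact h5 (h6 ▸ hℓ)
    · have h1 := log_MM_le hk s
      have h2 := LL_log (k / (s + 1))
      have h3 := log_QQ_le hk hs T i
      have h4 : (((k / (s + 1) : ℕ) : ℝ)) ≤ k / s := by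
        have h5 : (((k / (s + 1) : ℕ) : ℝ)) ≤ (k : ℝ) / ((s + 1 : ℕ) : ℝ) := Nat.cast_div_le
        refine h5.trans ?_
        gcongr
        linarith
      have h6 : Real.log k ≤ s * Real.log k := le_mul_of_one_le_left hlk hs1
      have hM' : ((MM k s : ℕ) : ℝ) ≠ 0 := by exact_mod_cast hMpos.ne'
      have hL' : ((LL (k / (s + 1)) : ℕ) : ℝ) ≠ 0 := by exact_mod_cast (LL_pos _).ne'
      have hQ' : ((∏ p ∈ SS k s T i, p : ℕ) : ℝ) ≠ 0 := by exact_mod_cast hQpos.ne'
      unfold RR
      rw [Nat.cast_mul, Nat.cast_mul, Real.log_mul (mul_ne_zero hM' hL') hQ', Real.log_mul hM' hL']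
      nlinarith
  · intro d hd hdT
    obtain ⟨hd1, hdk⟩ := mem_Icc.1 hd
    unfold gg
    split_ifs with h
    · obtain ⟨hp, hsp, hpd⟩ := h.choose_spec
      generalize h.choose = p at hp hsp hpd
      have hpk : p ≤ k := (Nat.le_of_dvd hd1 hpd).trans hdk
      refine ⟨ii_lt hk hs hpk, ?_⟩
      obtain ⟨m, rfl⟩ := hpd
      have hm0 : 0 < m := Nat.pos_of_ne_zero (by rintro rfl; simp at hd1)
      have hpT : p ∉ T := by
        intro hpT
        obtain ⟨-, -, h2, -⟩ := hT p hpT
        have h3 : m < 2 := by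
          by_contra hcon
          have : p * 2 ≤ p * m := Nat.mul_le_mul_left p (by omega)
          omega
        have h4 : m = 1 := by omega
        rw [h4, mul_one] at hdT
        exact hdT hpT
      have hm : m ≤ k / (s + 1) := by
        rw [Nat.le_div_iff_mul_le (by omega)]
        calc m * (s + 1) ≤ m * p := Nat.mul_le_mul_left m hsp
          _ = p * m := mul_comm _ _
          _ ≤ k := hdk
      unfold RR
      rw [mul_comm p m]
      refine mul_dvd_mul ((dvd_LL hm0 hm).mul_left _) ?_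
      exact Finset.dvd_prod_of_mem (fun p => p)
        (mem_filter.2 ⟨mem_Icc.2 ⟨hp.one_le, hpk⟩, hp, hpT, rfl⟩)
    · refine ⟨by omega, ?_⟩
      push Not at h
      unfold RR
      rw [mul_assoc]
      refine (smooth_dvd hd1 hdk fun p hp hpd => ?_).mul_right _
      by_contra hcon
      exact h p hp (by omega) hpd

end Pool.Agent.H557.SI.GRP
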