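import Pool.Agent.H557.SI.Win

/-!
The window theorem for short intervals.
-/

set_option autoImplicit false

namespace Pool.Agent.H557.SI

open Polynomial Finset

theorem Pat_iff' {k : ℕ} (hk0 : 1 ≤ k) (q ρ : ℕ) (D : Finset ℕ) (w : ℕ → ZMod 2) (n : ℕ) :
    Pat k q ρ D w n ↔ (n ≡ ρ [MOD q] ∧ ∀ d ∈ D, cc k ((n : ℤ) + d) = w d) := by
  have h := Pat_iff hk0 q ρ D w n
  rw [h]
  have h1 : n ≡ ρ [MOD q] ↔ (q : ℤ) ∣ (n : ℤ) - ρ := by
    rw [Nat.ModEq.comm, Nat.modEq_iff_dvd]
  rw [h1]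

theorem win_main : ∃ c C : ℝ, 0 < c ∧ c ≤ 1 ∧ 0 < C ∧
    ∀ K H L W : ℕ, 2 ≤ K → 1 ≤ H → 1 ≤ L → 1 ≤ W →
    ((L : ℝ) * W) ^ 2 * H ^ 3 * Real.log K ≤ c * K →
    ∃ E : Finset ℕ, E.card ≤ L * W ∧ ∀ k, K ≤ k → k ≤ K + H → k ∉ E →
      ∀ s : ℕ, 1 ≤ s → ∀ q : ℕ, 1 ≤ q → Real.log q ≤ c * K →
        ∀ (ρ : ℕ) (D : Finset ℕ) (w : ℕ → ZMod 2), D.card ≤ L → (∀ d ∈ D, 5 * d ≤ K) →
          ∀ x N : ℕ, (q : ℝ) * Real.exp (C * (K * (1 + Real.log s) / s)) ≤ N →
          |2 ^ D.card * q * ((((Finset.Ico x (x + N)).filter (Pat k q ρ D w)).card : ℝ) / N) - 1| ≤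
            C * (2 ^ D.card * Real.exp (-(c * W / (8 ^ s * Real.log K)))) := by
  obtain ⟨c, hc0, hc1, hcore⟩ := core_T
  obtain ⟨C₀, hC₀, hbias⟩ := bias_short
  refine ⟨c, 2 * C₀ + 9, hc0, by linarith, by linarith, ?_⟩
  intro K H L W hK2 hH hL hW hyp
  obtain ⟨⟨hKbig, hHH, hWK⟩, E, hEcard, hE⟩ := hcore K H L W hK2 hH hL hW hyp
  refine ⟨E, hEcard, ?_⟩
  intro k hk1 hk2 hkE s hs q hq hlogq ρ D w hDL hD5 x N hN
  have hKr : (12960000 : ℝ) ≤ K := by exact_mod_cast hKbig
  have hK0 : (0 : ℝ) < K := by linarith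
  have hWr : (W : ℝ) ≤ K := by exact_mod_cast hWK
  have hW0 : (0 : ℝ) ≤ W := Nat.cast_nonneg _
  obtain ⟨hlog1, hlog2, hlog3⟩ := log_sizes hKr
  have hlg0 : 0 < Real.log K := by linarith
  have hq0 : (0 : ℝ) < q := by exact_mod_cast hq
  have h2D : (0 : ℝ) < 2 ^ D.card := by positivity
  have h2D1 : (1 : ℝ) ≤ 2 ^ D.card := one_le_pow₀ (by norm_num)
  have hs1 : (1 : ℝ) ≤ s := by exact_mod_cast hs
  obtain ⟨y, hy⟩ : ∃ y : ℝ, y = (K : ℝ) * (1 + Real.log s) / s := ⟨_, rfl⟩
  rw [← hy] at hN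
  obtain ⟨hy1, hy2⟩ := y_bounds (K := (K : ℝ)) hK0 hs
  rw [← hy] at hy1 hy2
  have hy0 : 0 ≤ y := le_trans (by positivity) hy1
  have hexp1 : 1 ≤ Real.exp ((2 * C₀ + 9) * y) := Real.one_le_exp (by positivity)
  have hqN : (q : ℝ) ≤ N := by
    refine le_trans ?_ hN
    exact le_mul_of_one_le_right hq0.le hexp1
  have hqN' : q ≤ N := by exact_mod_cast hqN
  have hN0 : (0 : ℝ) < N := by linarith
  obtain ⟨r0, N', hN1, hN2, hcard⟩ := progression (by omega : 0 < q) ρ x N hqN'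
  obtain ⟨cnt, hcnt⟩ : ∃ cnt : ℕ, cnt = ((Finset.range N').filter
      fun m : ℕ => ∀ d ∈ D, cc k ((r0 : ℤ) + q * m + d) = w d).card := ⟨_, rfl⟩
  have hcount : ((Finset.Ico x (x + N)).filter (Pat k q ρ D w)).card = cnt := by
    have h1 := hcard (fun n : ℕ => ∀ d ∈ D, cc k ((n : ℤ) + d) = w d)
    rw [hcnt]
    rw [show ((Finset.range N').filter
      fun m : ℕ => ∀ d ∈ D, cc k ((r0 : ℤ) + q * m + d) = w d) = ((Finset.range N').filter
      fun m : ℕ => ∀ d ∈ D, cc k (((r0 + q * m : ℕ) : ℤ) + d) = w d) by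
        refine Finset.filter_congr fun m _ => ?_
        push_cast
        rfl]
    rw [← h1]
    congr 1
    refine Finset.filter_congr fun n _ => ?_
    exact Pat_iff' (by omega) q ρ D w n
  rw [hcount]
  have hcntle : cnt ≤ N' := by
    rw [hcnt]
    refine (Finset.card_filter_le _ _).trans ?_
    rw [Finset.card_range]
  have hcntle' : (cnt : ℝ) ≤ N' := by exact_mod_cast hcntle
  have hcnt0 : (0 : ℝ) ≤ cnt := Nat.cast_nonneg _
  -- q N' / N
  obtain ⟨u, hu⟩ : ∃ u : ℝ, u = q / N := ⟨_, rfl⟩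
  have hu0 : 0 < u := by rw [hu]; positivity
  have hu1 : u ≤ 1 := by rw [hu, div_le_one hN0]; exact hqN
  have huN1 : 1 - u ≤ u * N' := by
    have h1 := mul_le_mul_of_nonneg_left hN1 hu0.le
    have h2 : u * ((N : ℝ) / q - 1) = 1 - u := by
      rw [hu]; field_simp
    linarith
  have huN2 : u * N' ≤ 1 + u := by
    have h1 := mul_le_mul_of_nonneg_left hN2 hu0.le
    have h2 : u * ((N : ℝ) / q + 1) = 1 + u := by
      rw [hu]; field_simp
    linarith
  have hform : 2 ^ D.card * (q : ℝ) * ((cnt : ℝ) / N) = 2 ^ D.card * (u * cnt) := by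
    rw [hu]; ring
  rw [hform]
  have hucnt : u * cnt ≤ 2 := by
    have := mul_le_mul_of_nonneg_left hcntle' hu0.le
    linarith
  have h8 : (0 : ℝ) < 8 ^ s := by positivity
  rcases lt_or_ge (K : ℝ) (8 ^ s) with hbig | hsK
  · -- trivial case
    have h1 : |2 ^ D.card * (u * cnt) - 1| ≤ 2 * 2 ^ D.card := by
      have h2 : 0 ≤ u * cnt := by positivity
      have h3 : 2 ^ D.card * (u * cnt) ≤ 2 ^ D.card * 2 := mul_le_mul_of_nonneg_left hucnt h2D.le
      have h4 : 0 ≤ 2 ^ D.card * (u * cnt) := by positivity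
      rw [abs_le]
      constructor <;> linarith
    refine h1.trans ?_
    have h5 : c * W / (8 ^ s * Real.log K) ≤ 1 := by
      rw [div_le_one (by positivity)]
      calc c * W ≤ 1 * W := mul_le_mul_of_nonneg_right (by linarith) hW0
        _ = W := one_mul _
        _ ≤ K := hWr
        _ ≤ 8 ^ s * 1 := by linarith
        _ ≤ 8 ^ s * Real.log K := mul_le_mul_of_nonneg_left hlog1 h8.le
    have h6 : Real.exp (-1) ≤ Real.exp (-(c * W / (8 ^ s * Real.log K))) :=
      Real.exp_le_exp.mpr (by linarith)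
    have h7 : (1 : ℝ) / 3 ≤ Real.exp (-1) := by
      have := Real.exp_neg_one_gt_d9
      linarith
    have h8' : (1 : ℝ) / 3 ≤ Real.exp (-(c * W / (8 ^ s * Real.log K))) := h7.trans h6
    have h9 : 2 ^ D.card * ((1 : ℝ) / 3) ≤
        2 ^ D.card * Real.exp (-(c * W / (8 ^ s * Real.log K))) :=
      mul_le_mul_of_nonneg_left h8' h2D.le
    have h10 : 9 * (2 ^ D.card * ((1 : ℝ) / 3)) ≤
        (2 * C₀ + 9) * (2 ^ D.card * Real.exp (-(c * W / (8 ^ s * Real.log K)))) :=
      mul_le_mul (by linarith) h9 (by positivity) (by positivity)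
    linarith
  · -- main case
    obtain ⟨T, hT, hTbig⟩ := hE k hk1 hk2 hkE q hq hlogq
    have hsl := s_le hK0 hsK
    have hy450 : 450 * Real.log K ≤ y := by
      refine le_trans ?_ hy1
      rw [le_div_iff₀ (by linarith)]
      calc 450 * Real.log K * s = 225 * Real.log K * (2 * s) := by ring
        _ ≤ 225 * Real.log K * Real.log K := mul_le_mul_of_nonneg_left hsl (by linarith)
        _ = 225 * Real.log K ^ 2 := by ring
        _ ≤ K := by linarith
    have hy1' : 450 ≤ y := by linarith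
    have hNe : Real.exp ((2 * C₀ + 3) * y) / 2 ≤ N' := by
      refine le_trans ?_ hN1
      have h1 : Real.exp ((2 * C₀ + 9) * y) ≤ (N : ℝ) / q := by
        rw [le_div_iff₀ hq0]
        linarith
      have h2 : Real.exp ((2 * C₀ + 3) * y) ≤ Real.exp ((2 * C₀ + 9) * y) :=
        Real.exp_le_exp.mpr (mul_le_mul_of_nonneg_right (by linarith) hy0)
      have h3 : 2 ≤ Real.exp ((2 * C₀ + 3) * y) := by
        have h4 := Real.add_one_le_exp ((2 * C₀ + 3) * y)
        have h5 : 1 * 1 ≤ (2 * C₀ + 3) * y :=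
          mul_le_mul (by linarith) (by linarith) (by norm_num) (by linarith)
        linarith
      linarith
    have hN'0 : 0 < N' := by
      have : (0 : ℝ) < N' := lt_of_lt_of_le (by positivity) hNe
      exact_mod_cast this
    obtain ⟨e0, he0⟩ : ∃ e0, e0 = Real.exp (-(W / (50 * 8 ^ s * Real.log K))) := ⟨_, rfl⟩
    have he00 : 0 < e0 := by rw [he0]; exact Real.exp_pos _
    have hpat := pattern_count' (k := k) (q := q) (r0 : ℤ) N' hN'0 D w (2 * e0) (by
      intro B hBD hBne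
      rw [he0]
      exact hbias K H L W k q s hKbig hHH hWK hk1 hk2 T hT hTbig hs hsK r0 N'
        (by rw [← hy]; exact hNe) B hBne ((Finset.card_le_card hBD).trans hDL)
        (fun d hd => hD5 d (hBD hd))) (by positivity)
    rw [← hcnt] at hpat
    -- u is small
    have hue : u ≤ e0 := by
      have h1 : u ≤ Real.exp (-((2 * C₀ + 9) * y)) := by
        rw [hu, div_le_iff₀ hN0, Real.exp_neg]
        rw [← div_eq_inv_mul, le_div_iff₀ (Real.exp_pos _)]
        exact hN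
      refine h1.trans ?_
      rw [he0]
      apply Real.exp_le_exp.mpr
      rw [neg_le_neg_iff]
      have h2 : y ≤ (2 * C₀ + 9) * y := le_mul_of_one_le_left hy0 (by linarith)
      refine le_trans ?_ h2
      refine le_trans ?_ hy1
      have h3 : (s : ℝ) ≤ 8 ^ s := by
        have h1 : s ≤ 8 ^ s := (Nat.lt_pow_self (by norm_num : 1 < 8)).le
        exact_mod_cast h1
      have h4 : (s : ℝ) ≤ 50 * 8 ^ s * Real.log K := by
        calc (s : ℝ) ≤ 8 ^ s * 1 := by linarith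
          _ ≤ 8 ^ s * Real.log K := mul_le_mul_of_nonneg_left hlog1 h8.le
          _ ≤ 50 * (8 ^ s * Real.log K) := by
            have : 0 ≤ 8 ^ s * Real.log K := by positivity
            linarith
          _ = 50 * 8 ^ s * Real.log K := by ring
      calc (W : ℝ) / (50 * 8 ^ s * Real.log K) ≤ K / (50 * 8 ^ s * Real.log K) :=
            div_le_div_of_nonneg_right hWr (by positivity)
        _ ≤ K / s := div_le_div_of_nonneg_left hK0.le (by linarith) h4
    have hsplit : 2 ^ D.card * (u * (cnt : ℝ)) - 1 =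
        u * (2 ^ D.card * cnt - N') + (u * N' - 1) := by ring
    rw [hsplit]
    have b1 : |u * (2 ^ D.card * cnt - N')| ≤ 2 ^ D.card * (4 * e0) := by
      rw [abs_mul, abs_of_pos hu0]
      calc u * |2 ^ D.card * (cnt : ℝ) - N'| ≤ u * (2 ^ D.card * (N' * (2 * e0))) :=
            mul_le_mul_of_nonneg_left hpat hu0.le
        _ = 2 ^ D.card * ((u * N') * (2 * e0)) := by ring
        _ ≤ 2 ^ D.card * (2 * (2 * e0)) := by
            apply mul_le_mul_of_nonneg_left _ h2D.le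
            apply mul_le_mul_of_nonneg_right _ (by positivity)
            linarith
        _ = 2 ^ D.card * (4 * e0) := by ring
    have b2 : |u * (N' : ℝ) - 1| ≤ 2 ^ D.card * e0 := by
      have h1 : |u * (N' : ℝ) - 1| ≤ u := by
        rw [abs_le]
        constructor <;> linarith
      have h2 : 1 * e0 ≤ 2 ^ D.card * e0 := mul_le_mul_of_nonneg_right h2D1 he00.le
      linarith
    refine (abs_add_le _ _).trans ((add_le_add b1 b2).trans ?_)
    have h3 : e0 ≤ Real.exp (-(c * W / (8 ^ s * Real.log K))) := by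
      rw [he0]
      apply Real.exp_le_exp.mpr
      rw [neg_le_neg_iff, div_le_div_iff₀ (by positivity) (by positivity)]
      have h4 : c * W * (50 * 8 ^ s * Real.log K) = (c * 50) * (W * (8 ^ s * Real.log K)) := by ring
      rw [h4]
      have h5 : c * 50 ≤ 1 := by linarith
      have h6 : 0 ≤ W * (8 ^ s * Real.log K) := by positivity
      exact mul_le_of_le_one_left h6 h5
    have h4 : 2 ^ D.card * e0 ≤ 2 ^ D.card * Real.exp (-(c * W / (8 ^ s * Real.log K))) :=
      mul_le_mul_of_nonneg_left h3 h2D.le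
    have h5 : 5 * (2 ^ D.card * e0) ≤
        (2 * C₀ + 9) * (2 ^ D.card * Real.exp (-(c * W / (8 ^ s * Real.log K)))) :=
      mul_le_mul (by linarith) h4 (by positivity) (by positivity)
    linarith

end Pool.Agent.H557.SI
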