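import Pool.Agent.H557.SI.Comb

set_option autoImplicit false

namespace Pool.Agent.H557.SI

open Polynomial Finset

/-- the numerical part of the bias bound -/
theorem num {K C₀ y : ℝ} {W τ Pi Mx N k s : ℕ} (hC₀ : 0 < C₀) (hK : 12960000 ≤ K)
    (hW : (W : ℝ) ≤ K) (hs : 1 ≤ s) (hsK : (8 : ℝ) ^ s ≤ K) (hy : y = K * (1 + Real.log s) / s)
    (hτ2 : (τ : ℝ) ≤ y / (100 * Real.log K) + 1)
    (hPi : (Pi : ℝ) ≤ K ^ τ) (hk : (k : ℝ) ≤ 2 * K)
    (hMx : (Mx : ℝ) ≤ Real.exp (C₀ * (k * (1 + Real.log s) / s)))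
    (hN : Real.exp ((2 * C₀ + 3) * y) / 2 ≤ N) :
    (8 ^ s * (6 * ((Mx * (τ * Pi) : ℕ) : ℝ)) + 2 * ((τ * Pi : ℕ) : ℝ)) / N ≤
      Real.exp (-(2 * W * τ / (2 ^ s * K))) := by
  obtain ⟨hlog1, hlog2, hlog3⟩ := log_sizes hK
  have hK0 : 0 < K := by linarith
  have hs1 : (1 : ℝ) ≤ s := by exact_mod_cast hs
  have hls : 0 ≤ Real.log s := Real.log_nonneg hs1
  obtain ⟨hy1, hy2⟩ := y_bounds (K := K) hK0 hs
  rw [← hy] at hy1 hy2
  have hsl := s_le hK0 hsK
  have hlg0 : 0 < Real.log K := by linarith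
  -- y ≥ 450 log K
  have hy450 : 450 * Real.log K ≤ y := by
    refine le_trans ?_ hy1
    rw [le_div_iff₀ (by linarith)]
    nlinarith
  have hy0 : 0 ≤ y := by linarith
  have hτy : (τ : ℝ) ≤ y := by
    have h1 : y / (100 * Real.log K) ≤ y / 100 :=
      div_le_div_of_nonneg_left hy0 (by norm_num) (by linarith)
    linarith
  have hτK : (τ : ℝ) ≤ K := hτy.trans hy2
  obtain ⟨E₀, hE₀⟩ : ∃ E₀, E₀ = Real.exp (2 * C₀ * y) := ⟨_, rfl⟩
  have hE₀1 : 1 ≤ E₀ := by
    rw [hE₀]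
    exact Real.one_le_exp (by positivity)
  have hMx' : (Mx : ℝ) ≤ E₀ := by
    refine hMx.trans ?_
    rw [hE₀]
    apply Real.exp_le_exp.mpr
    have h1 : (k : ℝ) * (1 + Real.log s) / s ≤ 2 * y := by
      rw [hy, ← mul_div_assoc]
      apply div_le_div_of_nonneg_right _ (by linarith)
      have : (k : ℝ) * (1 + Real.log s) ≤ 2 * K * (1 + Real.log s) :=
        mul_le_mul_of_nonneg_right hk (by linarith)
      linarith
    have h2 := mul_le_mul_of_nonneg_left h1 hC₀.le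
    linarith
  obtain ⟨F, hF⟩ : ∃ F, F = Real.exp (y / 100) * K := ⟨_, rfl⟩
  have hPi' : (Pi : ℝ) ≤ F := by
    refine hPi.trans ?_
    have h1 : K ^ τ = Real.exp (τ * Real.log K) := by
      rw [Real.exp_nat_mul, Real.exp_log hK0]
    have h2 : F = Real.exp (y / 100 + Real.log K) := by
      rw [hF, Real.exp_add, Real.exp_log hK0]
    rw [h1, h2]
    apply Real.exp_le_exp.mpr
    have h3 := mul_le_mul_of_nonneg_right hτ2 hlg0.le
    have h4 : (y / (100 * Real.log K) + 1) * Real.log K = y / 100 + Real.log K := by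
      field_simp
    linarith
  have hF0 : 0 < F := by rw [hF]; positivity
  have hnum : 8 ^ s * (6 * ((Mx * (τ * Pi) : ℕ) : ℝ)) + 2 * ((τ * Pi : ℕ) : ℝ) ≤
      8 * (K * E₀ * (K * F)) := by
    push_cast
    have h1 : (τ : ℝ) * Pi ≤ K * F :=
      mul_le_mul hτK hPi' (Nat.cast_nonneg _) hK0.le
    have h2 : (8 : ℝ) ^ s * Mx ≤ K * E₀ := mul_le_mul hsK hMx' (Nat.cast_nonneg _) hK0.le
    have h3 : (8 : ℝ) ^ s * Mx * (τ * Pi) ≤ K * E₀ * (K * F) :=
      mul_le_mul h2 h1 (by positivity) (by positivity)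
    have h4 : 1 * ((τ : ℝ) * Pi) ≤ K * E₀ * (K * F) := by
      apply mul_le_mul _ h1 (by positivity) (by positivity)
      nlinarith
    calc (8 : ℝ) ^ s * (6 * (Mx * (τ * Pi))) + 2 * (τ * Pi)
        = 6 * (8 ^ s * Mx * (τ * Pi)) + 2 * (1 * (τ * Pi)) := by ring
      _ ≤ 6 * (K * E₀ * (K * F)) + 2 * (K * E₀ * (K * F)) := by linarith
      _ = 8 * (K * E₀ * (K * F)) := by ring
  have hN0 : (0 : ℝ) < N := lt_of_lt_of_le (by positivity) hN
  have hmain : 8 * (K * E₀ * (K * F)) ≤ Real.exp (-y) * N := by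
    refine le_trans ?_ (mul_le_mul_of_nonneg_left hN (Real.exp_pos _).le)
    have h1 : 8 * (K * E₀ * (K * F)) = 8 * K ^ 3 * Real.exp (2 * C₀ * y + y / 100) := by
      rw [hE₀, hF, Real.exp_add]
      ring
    have h2 : Real.exp (-y) * (Real.exp ((2 * C₀ + 3) * y) / 2) =
        Real.exp (2 * C₀ * y + y / 100) * Real.exp (1.99 * y) / 2 := by
      rw [← Real.exp_add, mul_div_assoc', ← Real.exp_add]
      congr 2
      ring
    rw [h1, h2]
    have h3 : 16 * K ^ 3 ≤ Real.exp (1.99 * y) := by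
      have h4 : K ^ 4 ≤ Real.exp (1.99 * y) := by
        have h5 : K ^ 4 = Real.exp (4 * Real.log K) := by
          rw [show (4 : ℝ) * Real.log K = ((4 : ℕ) : ℝ) * Real.log K by norm_num,
            Real.exp_nat_mul, Real.exp_log hK0]
        rw [h5]
        apply Real.exp_le_exp.mpr
        linarith
      have h6 : 16 * K ^ 3 ≤ K ^ 4 := by
        have : K ^ 4 = K * K ^ 3 := by ring
        rw [this]
        exact mul_le_mul_of_nonneg_right (by linarith) (by positivity)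
      linarith
    have h7 : 0 < Real.exp (2 * C₀ * y + y / 100) := Real.exp_pos _
    nlinarith
  have hexp : Real.exp (-y) ≤ Real.exp (-(2 * W * τ / (2 ^ s * K))) := by
    apply Real.exp_le_exp.mpr
    rw [neg_le_neg_iff, div_le_iff₀ (by positivity)]
    have h1 : (2 : ℝ) ≤ 2 ^ s := by
      calc (2 : ℝ) = 2 ^ 1 := by norm_num
        _ ≤ 2 ^ s := pow_le_pow_right₀ (by norm_num) hs
    have h2 : (W : ℝ) * τ ≤ K * y := mul_le_mul hW hτy (Nat.cast_nonneg _) hK0.le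
    have h3 : 2 * (K * y) ≤ 2 ^ s * (K * y) := mul_le_mul_of_nonneg_right h1 (by positivity)
    calc 2 * (W : ℝ) * τ = 2 * (W * τ) := by ring
      _ ≤ 2 * (K * y) := by linarith
      _ ≤ 2 ^ s * (K * y) := h3
      _ = y * (2 ^ s * K) := by ring
  refine le_trans ?_ hexp
  rw [div_le_iff₀ hN0]
  exact hnum.trans hmain

theorem num2 {K y : ℝ} {W τ s : ℕ} (hK : 12960000 ≤ K)
    (hs : 1 ≤ s) (hy : y = K * (1 + Real.log s) / s)
    (hτ1 : y / (100 * Real.log K) ≤ τ) :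
    (W : ℝ) / (50 * 8 ^ s * Real.log K) ≤ 2 * W * τ / (2 ^ s * K) / 2 ^ s := by
  obtain ⟨hlog1, hlog2, hlog3⟩ := log_sizes hK
  have hK0 : 0 < K := by linarith
  have hlg0 : 0 < Real.log K := by linarith
  have hs1 : (1 : ℝ) ≤ s := by exact_mod_cast hs
  obtain ⟨hy1, hy2⟩ := y_bounds (K := K) hK0 hs
  rw [← hy] at hy1 hy2
  have h1 : K / (100 * s * Real.log K) ≤ τ := by
    refine le_trans ?_ hτ1
    have : K / (100 * s * Real.log K) = K / s / (100 * Real.log K) := by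
      field_simp
    rw [this]
    exact div_le_div_of_nonneg_right hy1 (by positivity)
  have h2 : (s : ℝ) ≤ 2 ^ s := by
    have := (Nat.lt_two_pow_self (n := s)).le
    exact_mod_cast this
  have h3 : 2 * (W : ℝ) * (K / (100 * s * Real.log K)) / (2 ^ s * K) / 2 ^ s ≤
      2 * W * τ / (2 ^ s * K) / 2 ^ s := by
    apply div_le_div_of_nonneg_right _ (by positivity)
    apply div_le_div_of_nonneg_right _ (by positivity)
    exact mul_le_mul_of_nonneg_left h1 (by positivity)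
  refine le_trans ?_ h3
  have h4 : 2 * (W : ℝ) * (K / (100 * s * Real.log K)) / (2 ^ s * K) / 2 ^ s =
      W / (50 * (s * (2 ^ s * 2 ^ s)) * Real.log K) := by
    field_simp
    ring
  rw [h4]
  apply div_le_div_of_nonneg_left (Nat.cast_nonneg _) (by positivity)
  apply mul_le_mul_of_nonneg_right _ hlg0.le
  apply mul_le_mul_of_nonneg_left _ (by norm_num)
  have h5 : (8 : ℝ) ^ s = 2 ^ s * (2 ^ s * 2 ^ s) := by
    rw [← mul_pow, ← mul_pow]
    norm_num
  rw [h5]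
  exact mul_le_mul_of_nonneg_right h2 (by positivity)

end Pool.Agent.H557.SI
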