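import Pool.Agent.H557.SI.Stm

/-!
Second version of the steps: `log Λ = O(k / s)`, by grouping the parts according to their prime
factors.
-/

set_option autoImplicit false

namespace Pool.Agent.H557.SI

open Polynomial Finset

/-- the numbers `d ≤ k` outside `T` can be put into `s` groups `g d < s`, such that the numbers of
the group `i` divide `R i`, with `log (R i) = O(k / s)` -/
def S_grp : Prop := ∃ C : ℝ, 0 < C ∧ ∀ k s : ℕ, 2 ≤ k → 1 ≤ s → 8 ^ s ≤ k → ∀ T : Finset ℕ,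
  (∀ ℓ ∈ T, ℓ.Prime ∧ ℓ ≤ k ∧ k < 2 * ℓ ∧ ℓ ≠ 2) → ∃ g R : ℕ → ℕ,
    (∀ i < s, 0 < R i ∧ (∀ ℓ ∈ T, Nat.Coprime ℓ (R i)) ∧ Real.log (R i) ≤ C * (k / s)) ∧
    ∀ d ∈ Icc 1 k, d ∉ T → g d < s ∧ d ∣ R (g d)

/-- steps which kill everything except the components of the primes of `T` -/
def S_steps2 : Prop := ∃ C : ℝ, 0 < C ∧ ∀ k s : ℕ, 2 ≤ k → 1 ≤ s → 8 ^ s ≤ k → ∀ T : Finset ℕ,
  (∀ ℓ ∈ T, ℓ.Prime ∧ ℓ ≤ k ∧ k < 2 * ℓ ∧ ℓ ≠ 2) → ∃ Λs : List ℕ, Λs.length = s ∧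
    (∀ Λ ∈ Λs, 0 < Λ ∧ (∀ ℓ ∈ T, Nat.Coprime ℓ Λ) ∧ Real.log Λ ≤ C * (k / s)) ∧
    DD k ∣ (Λs.map fun Λ => (1 - X ^ Λ : (ZMod 2)[X])).prod * ∏ ℓ ∈ T, Phi ℓ

end Pool.Agent.H557.SI
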