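import Pool.Agent.H557.SI.Cnt

/-!
The window theorem for short intervals.
-/

set_option autoImplicit false

namespace Pool.Agent.H557.SI

open Polynomial Finset

open scoped Classical in
/-- The uniform window theorem, in terms of counts over a full period. -/
theorem core_T : ∃ c : ℝ, 0 < c ∧ c * 12960000 ≤ 1 / 100 ∧
    ∀ K H L W : ℕ, 2 ≤ K → 1 ≤ H → 1 ≤ L → 1 ≤ W →
    ((L : ℝ) * W) ^ 2 * H ^ 3 * Real.log K ≤ c * K →
    (12960000 ≤ K ∧ H * H ≤ K ∧ W ≤ K) ∧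
    ∃ E : Finset ℕ, E.card ≤ L * W ∧ ∀ k, K ≤ k → k ≤ K + H → k ∉ E →
      ∀ q : ℕ, 1 ≤ q → Real.log q ≤ c * K →
        ∃ T : Finset ℕ, (∀ ℓ ∈ T, ℓ.Prime ∧ ℓ ≤ K ∧ K + H < 2 * ℓ ∧ 2 * W ≤ ℓ ∧
          ¬ Bad L W (K / 5 + 1) k ℓ ∧ ¬ ℓ ∣ q) ∧ (K : ℝ) ≤ 80 * ((T.card : ℝ) * Real.log K) := by
  obtain ⟨c, hc0, hc1⟩ : ∃ c : ℝ, 0 < c ∧ c * 12960000 ≤ 1 / 100 :=
    ⟨1 / 1296000000, by norm_num, by norm_num⟩
  refine ⟨c, hc0, hc1, ?_⟩
  intro K H L W hK2 hH hL hW hyp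
  have hKr2 : (2 : ℝ) ≤ K := by exact_mod_cast hK2
  have hlogK : Real.log 2 ≤ Real.log K := Real.log_le_log (by norm_num) hKr2
  have hlog2 : (0.69 : ℝ) ≤ Real.log 2 := by
    have := Real.log_two_gt_d9
    linarith
  have hlogpos : 0 < Real.log K := by linarith
  have hLr : (1 : ℝ) ≤ L := by exact_mod_cast hL
  have hWr : (1 : ℝ) ≤ W := by exact_mod_cast hW
  have hHr : (1 : ℝ) ≤ H := by exact_mod_cast hH
  have hLW : (1 : ℝ) ≤ (L : ℝ) * W := one_le_mul_of_one_le_of_one_le hLr hWr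
  have hH3 : (1 : ℝ) ≤ (H : ℝ) ^ 3 := one_le_pow₀ hHr
  have hLW2 : (1 : ℝ) ≤ ((L : ℝ) * W) ^ 2 := one_le_pow₀ hLW
  have hprod1 : (1 : ℝ) ≤ ((L : ℝ) * W) ^ 2 * H ^ 3 := one_le_mul_of_one_le_of_one_le hLW2 hH3
  -- K is large
  have hKbig : 12960000 ≤ K := by
    by_contra hlt
    push Not at hlt
    have h1 : (K : ℝ) < 12960000 := by exact_mod_cast hlt
    have h2 : Real.log K ≤ ((L : ℝ) * W) ^ 2 * H ^ 3 * Real.log K :=
      le_mul_of_one_le_left hlogpos.le hprod1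
    have h3 : c * K ≤ c * 12960000 := mul_le_mul_of_nonneg_left h1.le hc0.le
    linarith
  have hKr : (12960000 : ℝ) ≤ K := by exact_mod_cast hKbig
  have hlog1 : 1 ≤ Real.log K := by
    rw [Real.le_log_iff_exp_le (by linarith)]
    have := Real.exp_one_lt_d9
    linarith
  have hK0 : (0 : ℝ) < K := by linarith
  have hcle : c ≤ 1 / 800 := by linarith
  have hcK : c * K ≤ K / 800 := by
    have := mul_le_mul_of_nonneg_right hcle hK0.le
    linarith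
  -- H * H ≤ K
  have hHH : H * H ≤ K := by
    have h1 : (H : ℝ) * H ≤ K := by
      have h2 : (H : ℝ) * H ≤ H ^ 3 := by
        rw [show (H : ℝ) ^ 3 = (H * H) * H by ring]
        exact le_mul_of_one_le_right (by positivity) hHr
      have h3 : (H : ℝ) ^ 3 ≤ ((L : ℝ) * W) ^ 2 * H ^ 3 :=
        le_mul_of_one_le_left (by positivity) hLW2
      have h4 : ((L : ℝ) * W) ^ 2 * H ^ 3 ≤ ((L : ℝ) * W) ^ 2 * H ^ 3 * Real.log K :=
        le_mul_of_one_le_right (by positivity) hlog1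
      linarith
    exact_mod_cast h1
  have hmany := many_primes K H hKbig hHH
  have hmany' : (K : ℝ) ≤ 10 * (((QS K H).card : ℝ) * Real.log K) := by
    rw [div_le_iff₀ (by positivity)] at hmany
    linarith
  set S := QS K H with hS
  have hprime : ∀ ℓ ∈ S, ℓ.Prime := by
    intro ℓ hℓ
    rw [hS] at hℓ
    unfold QS at hℓ
    exact (Finset.mem_filter.mp hℓ).2.1
  have hlow : ∀ ℓ ∈ S, K + H < 2 * ℓ := by
    intro ℓ hℓ
    rw [hS] at hℓ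
    unfold QS at hℓ
    exact (Finset.mem_filter.mp hℓ).2.2
  have hup : ∀ ℓ ∈ S, ℓ ≤ K := by
    intro ℓ hℓ
    rw [hS] at hℓ
    unfold QS at hℓ
    exact (Finset.mem_Icc.mp (Finset.mem_filter.mp hℓ).1).2
  have hcardS : 20 * (L * W) ^ 2 * H ^ 3 ≤ S.card := by
    have h1 : (20 : ℝ) * ((L : ℝ) * W) ^ 2 * H ^ 3 * Real.log K ≤ (S.card : ℝ) * Real.log K := by
      have e : (20 : ℝ) * ((L : ℝ) * W) ^ 2 * H ^ 3 * Real.log K =
        20 * (((L : ℝ) * W) ^ 2 * H ^ 3 * Real.log K) := by ring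
      rw [e]
      linarith
    have h2 := le_of_mul_le_mul_right h1 hlogpos
    exact_mod_cast h2
  have hSK : S.card ≤ K := by
    have hsub : S ⊆ Finset.Icc 1 K := by
      intro x hx
      rw [Finset.mem_Icc]
      exact ⟨(hprime x hx).one_le, hup x hx⟩
    have := Finset.card_le_card hsub
    simpa using this
  have hV : 1 ≤ L * W := Nat.one_le_iff_ne_zero.mpr (by positivity)
  have hW20 : 20 * W ≤ K := by
    have h3 : W ≤ (L * W) ^ 2 * H ^ 3 := by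
      calc W = 1 * W * 1 := by ring
        _ ≤ (L * W) * (L * W) * H ^ 3 := by
            apply Nat.mul_le_mul
            · apply Nat.mul_le_mul hV
              exact Nat.le_mul_of_pos_left _ hL
            · exact Nat.one_le_iff_ne_zero.mpr (by positivity)
        _ = (L * W) ^ 2 * H ^ 3 := by ring
    have h4 : 20 * (L * W) ^ 2 * H ^ 3 = 20 * ((L * W) ^ 2 * H ^ 3) := by ring
    omega
  refine ⟨⟨hKbig, hHH, by omega⟩, ?_⟩
  set Dp := K / 5 + 1 with hDp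
  have hDp4 : 4 * Dp ≤ K := by omega
  refine ⟨{k ∈ Finset.Icc K (K + H) | 3 * S.card < 4 * {ℓ ∈ S | Bad L W Dp k ℓ}.card},
    exceptional_card S hprime hlow hup hDp4 hV hH hcardS, ?_⟩
  intro k hk1 hk2 hkE q hq hlogq
  -- the good primes
  have hfew : 4 * {ℓ ∈ S | Bad L W Dp k ℓ}.card ≤ 3 * S.card := by
    by_contra hlt
    push Not at hlt
    exact hkE (Finset.mem_filter.mpr ⟨Finset.mem_Icc.mpr ⟨hk1, hk2⟩, hlt⟩)
  set T := {ℓ ∈ S | ¬ Bad L W Dp k ℓ ∧ ¬ ℓ ∣ q} with hT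
  have hTcard : S.card ≤ {ℓ ∈ S | Bad L W Dp k ℓ}.card + {ℓ ∈ S | ℓ ∣ q}.card + T.card := by
    have hsub : S ⊆ ({ℓ ∈ S | Bad L W Dp k ℓ} ∪ {ℓ ∈ S | ℓ ∣ q}) ∪ T := by
      intro ℓ hℓ
      rw [Finset.mem_union, Finset.mem_union, hT, Finset.mem_filter, Finset.mem_filter,
        Finset.mem_filter]
      tauto
    refine (Finset.card_le_card hsub).trans ((Finset.card_union_le _ _).trans ?_)
    exact Nat.add_le_add_right (Finset.card_union_le _ _) _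
  have hdq := card_dvd_le (K := K) (H := H) (q := q) (by omega) hq
  rw [← hS] at hdq
  have hTbig : (K : ℝ) ≤ 80 * ((T.card : ℝ) * Real.log K) := by
    have h1 : (S.card : ℝ) ≤ {ℓ ∈ S | Bad L W Dp k ℓ}.card + {ℓ ∈ S | ℓ ∣ q}.card + T.card := by
      exact_mod_cast hTcard
    have h2 : (4 : ℝ) * {ℓ ∈ S | Bad L W Dp k ℓ}.card ≤ 3 * S.card := by exact_mod_cast hfew
    have h3 : (S.card : ℝ) / 4 ≤ {ℓ ∈ S | ℓ ∣ q}.card + T.card := by linarith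
    have h4 : (S.card : ℝ) / 4 * Real.log K ≤
        ({ℓ ∈ S | ℓ ∣ q}.card + T.card) * Real.log K :=
      mul_le_mul_of_nonneg_right h3 hlogpos.le
    have h6 : (S.card : ℝ) / 4 * Real.log K = ((S.card : ℝ) * Real.log K) / 4 := by ring
    have h7 : (({ℓ ∈ S | ℓ ∣ q}.card : ℝ) + T.card) * Real.log K =
      ({ℓ ∈ S | ℓ ∣ q}.card : ℝ) * Real.log K + T.card * Real.log K := by ring
    rw [h6, h7] at h4
    linarith
  refine ⟨T, ?_, hTbig⟩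
  intro ℓ hℓ
  have hℓS := (Finset.mem_filter.mp hℓ).1
  have h1 := hlow ℓ hℓS
  exact ⟨hprime ℓ hℓS, hup ℓ hℓS, h1, by omega, (Finset.mem_filter.mp hℓ).2.1,
    (Finset.mem_filter.mp hℓ).2.2⟩


/-- bias in short progressions -/
theorem bias_short : ∃ C₀ : ℝ, 0 < C₀ ∧ ∀ (K H L W k q s : ℕ), 12960000 ≤ K → H * H ≤ K → W ≤ K →
    K ≤ k → k ≤ K + H → ∀ T : Finset ℕ, (∀ ℓ ∈ T, ℓ.Prime ∧ ℓ ≤ K ∧ K + H < 2 * ℓ ∧ 2 * W ≤ ℓ ∧
          ¬ Bad L W (K / 5 + 1) k ℓ ∧ ¬ ℓ ∣ q) → (K : ℝ) ≤ 80 * ((T.card : ℝ) * Real.log K) →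
    1 ≤ s → (8 : ℝ) ^ s ≤ K → ∀ (r0 : ℤ) (N : ℕ),
    Real.exp ((2 * C₀ + 3) * (K * (1 + Real.log s) / s)) / 2 ≤ N →
    ∀ B : Finset ℕ, B.Nonempty → B.card ≤ L → (∀ d ∈ B, 5 * d ≤ K) →
    |av 0 N (fun m => ∑ d ∈ B, cc k (r0 + q * m + d))| ≤
      2 * Real.exp (-(W / (50 * 8 ^ s * Real.log K))) := by
  obtain ⟨C₀, hC₀, hsteps⟩ := STEPS.main BLK.main
  refine ⟨C₀, hC₀, ?_⟩
  intro K H L W k q s hKbig hHH hWK hk1 hk2 T hT hTbig hs hsK r0 N hN B hBne hBL hB5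
  have hKr : (12960000 : ℝ) ≤ K := by exact_mod_cast hKbig
  have hK0 : (0 : ℝ) < K := by linarith
  have hWr : (W : ℝ) ≤ K := by exact_mod_cast hWK
  obtain ⟨hlog1, hlog2, hlog3⟩ := log_sizes hKr
  have hlg0 : 0 < Real.log K := by linarith
  obtain ⟨y, hy⟩ : ∃ y : ℝ, y = (K : ℝ) * (1 + Real.log s) / s := ⟨_, rfl⟩
  rw [← hy] at hN
  obtain ⟨hy1, hy2⟩ := y_bounds (K := (K : ℝ)) hK0 hs
  rw [← hy] at hy1 hy2
  have hs1 : (1 : ℝ) ≤ s := by exact_mod_cast hs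
  have hy0 : 0 ≤ y := le_trans (by positivity) hy1
  obtain ⟨τ, hτ⟩ : ∃ τ : ℕ, τ = ⌈y / (100 * Real.log K)⌉₊ := ⟨_, rfl⟩
  have hτ1 : y / (100 * Real.log K) ≤ τ := by rw [hτ]; exact Nat.le_ceil _
  have hτ2 : (τ : ℝ) ≤ y / (100 * Real.log K) + 1 := by
    rw [hτ]
    exact (Nat.ceil_lt_add_one (by positivity)).le
  have hτT : τ ≤ T.card := by
    have h1 : (τ : ℝ) ≤ T.card := by
      refine hτ2.trans ?_
      have h2 : y / (100 * Real.log K) ≤ K / (100 * Real.log K) :=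
        div_le_div_of_nonneg_right hy2 (by positivity)
      have h3 : (K : ℝ) / (80 * Real.log K) ≤ T.card := by
        rw [div_le_iff₀ (by positivity)]
        linarith
      have h4 : (K : ℝ) / (100 * Real.log K) + 1 ≤ K / (80 * Real.log K) := by
        have h5 : (K : ℝ) / (80 * Real.log K) = K / (100 * Real.log K) + K / (400 * Real.log K) := by
          field_simp
          norm_num
        have h6 : 1 ≤ (K : ℝ) / (400 * Real.log K) := by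
          rw [le_div_iff₀ (by positivity)]
          linarith
        linarith
      linarith
    exact_mod_cast h1
  obtain ⟨T', hT'T, hT'card⟩ := Finset.exists_subset_card_eq hτT
  have hkH : k ≤ 2 * K := by
    have : H ≤ K := by nlinarith
    omega
  have hsk : s ≤ k := by
    have h1 : s ≤ 8 ^ s := (Nat.lt_pow_self (by norm_num : 1 < 8)).le
    have h2 : 8 ^ s ≤ K := by exact_mod_cast hsK
    omega
  have hT2 : ∀ ℓ ∈ T', ℓ.Prime ∧ ℓ ≤ k ∧ k < 2 * ℓ ∧ ℓ ≠ 2 := by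
    intro ℓ hℓ
    obtain ⟨h1, h2, h3, -⟩ := hT ℓ (hT'T hℓ)
    exact ⟨h1, by omega, by omega, by omega⟩
  obtain ⟨Λs, hlen, hΛ, hdvd⟩ := hsteps k s (by omega) hs hsk T' hT2
  obtain ⟨Mx, hMx⟩ : ∃ Mx : ℕ, Mx = ⌊Real.exp (C₀ * (k * (1 + Real.log s) / s))⌋₊ := ⟨_, rfl⟩
  have hMx1 : (Mx : ℝ) ≤ Real.exp (C₀ * (k * (1 + Real.log s) / s)) := by
    rw [hMx]
    exact Nat.floor_le (Real.exp_pos _).le
  have hMx2 : ∀ Λ ∈ Λs, Λ ≤ Mx := by
    intro Λ hΛm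
    obtain ⟨h1, -, h2⟩ := hΛ Λ hΛm
    rw [hMx]
    apply Nat.le_floor
    have h3 : (0 : ℝ) < Λ := by exact_mod_cast h1
    exact (Real.log_le_iff_le_exp h3).mp h2
  have hN0 : 0 < N := by
    have : (0 : ℝ) < N := lt_of_lt_of_le (by positivity) hN
    exact_mod_cast this
  have hBM : ∀ d ∈ B, d ≤ K / 5 := by
    intro d hd
    have := hB5 d hd
    omega
  have hcore := bias_core (L := L) (W := W) (Dp := K / 5 + 1) (k := k) (q := q) T' hT2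
    (fun ℓ hℓ => (hT ℓ (hT'T hℓ)).2.2.2.2.1) (fun ℓ hℓ => (hT ℓ (hT'T hℓ)).2.2.2.2.2) Λs
    (fun Λ hΛm => (hΛ Λ hΛm).2.1) Mx hMx2 hdvd (by omega) (A := AB (K / 5) B)
    (AB_ne_zero hBM hBne) (Nat.lt_succ_of_le (natDegree_AB hBM))
    ((card_support_AB hBM).trans hBL) (r0 + (K / 5 : ℕ)) N hN0
  have hfun : (fun m : ℤ => act (AB (K / 5) B) (cc k) (r0 + (K / 5 : ℕ) + q * m)) =
      fun m => ∑ d ∈ B, cc k (r0 + q * m + d) := by
    funext m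
    rw [← act_AB hBM]
    congr 1
    ring
  rw [hfun, hlen, hT'card] at hcore
  have hprod := prod_le_exp' (T := T') (W := W) (K := K) (s := s) (by
    intro ℓ hℓ
    obtain ⟨h1, h2, h3, h4, -⟩ := hT ℓ (hT'T hℓ)
    exact ⟨h1.pos, h2, h4⟩)
  rw [hT'card] at hprod
  have hPi : ((∏ ℓ ∈ T', ℓ : ℕ) : ℝ) ≤ (K : ℝ) ^ τ := by
    have h1 : ∏ ℓ ∈ T', ℓ ≤ K ^ τ := by
      rw [← hT'card]
      exact Finset.prod_le_pow_card T' (fun ℓ => ℓ) K fun ℓ hℓ => (hT ℓ (hT'T hℓ)).2.1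
    exact_mod_cast h1
  have hkr : (k : ℝ) ≤ 2 * K := by exact_mod_cast hkH
  have hnum := num (K := (K : ℝ)) (C₀ := C₀) (y := y) (W := W) (τ := τ) (Pi := ∏ ℓ ∈ T', ℓ)
    (Mx := Mx) (N := N) (k := k) (s := s) hC₀ hKr hWr hs hsK hy hτ2 hPi hkr hMx1 hN
  have hsum : |av 0 N (fun m => ∑ d ∈ B, cc k (r0 + q * m + d))| ^ (2 ^ s) ≤
      2 * Real.exp (-(2 * W * τ / (2 ^ s * K))) := by
    linarith
  have hroot := root_le (abs_nonneg _) hsum
  refine hroot.trans ?_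
  apply mul_le_mul_of_nonneg_left _ (by norm_num)
  apply Real.exp_le_exp.mpr
  rw [neg_le_neg_iff]
  exact num2 hKr hs hy hτ1

end Pool.Agent.H557.SI
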