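import Pool.Agent.H557.SI.NumB

/-!
The window theorem for short intervals, second version.
-/

set_option autoImplicit false

namespace Pool.Agent.H557.SI

open Polynomial Finset

/-- bias in short progressions -/
theorem bias_shortB (hst : S_steps2) : ∃ C₀ : ℝ, 0 < C₀ ∧ ∀ (K H L W k q s : ℕ), 12960000 ≤ K → H * H ≤ K → W ≤ K →
    K ≤ k → k ≤ K + H → ∀ T : Finset ℕ, (∀ ℓ ∈ T, ℓ.Prime ∧ ℓ ≤ K ∧ K + H < 2 * ℓ ∧ 2 * W ≤ ℓ ∧
          ¬ Bad L W (K / 5 + 1) k ℓ ∧ ¬ ℓ ∣ q) → (K : ℝ) ≤ 80 * ((T.card : ℝ) * Real.log K) →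
    1 ≤ s → (8 : ℝ) ^ s ≤ K → ∀ (r0 : ℤ) (N : ℕ),
    Real.exp ((2 * C₀ + 3) * (K / s)) / 2 ≤ N →
    ∀ B : Finset ℕ, B.Nonempty → B.card ≤ L → (∀ d ∈ B, 5 * d ≤ K) →
    |av 0 N (fun m => ∑ d ∈ B, cc k (r0 + q * m + d))| ≤
      2 * Real.exp (-(W / (50 * 8 ^ s * Real.log K))) := by
  obtain ⟨C₀, hC₀, hsteps⟩ := hst
  refine ⟨C₀, hC₀, ?_⟩
  intro K H L W k q s hKbig hHH hWK hk1 hk2 T hT hTbig hs hsK r0 N hN B hBne hBL hB5
  have hKr : (12960000 : ℝ) ≤ K := by exact_mod_cast hKbig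
  have hK0 : (0 : ℝ) < K := by linarith
  have hWr : (W : ℝ) ≤ K := by exact_mod_cast hWK
  obtain ⟨hlog1, hlog2, hlog3⟩ := log_sizes hKr
  have hlg0 : 0 < Real.log K := by linarith
  obtain ⟨y, hy⟩ : ∃ y : ℝ, y = (K : ℝ) / s := ⟨_, rfl⟩
  rw [← hy] at hN
  have hs1 : (1 : ℝ) ≤ s := by exact_mod_cast hs
  have hy1 : (K : ℝ) / s ≤ y := by rw [hy]
  have hy2 : y ≤ K := by rw [hy]; exact div_le_self hK0.le hs1
  have hy0 : 0 ≤ y := le_trans (by positivity) hy1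
  obtain ⟨τ, hτ⟩ : ∃ τ : ℕ, τ = ⌈y / (100 * Real.log K)⌉₊ := ⟨_, rfl⟩
  have hτ1 : y / (100 * Real.log K) ≤ τ := by rw [hτ]; exact Nat.le_ceil _
  have hτ2 : (τ : ℝ) ≤ y / (100 * Real.log K) + 1 := by
    rw [hτ]
    exact (Nat.ceil_lt_add_one (by positivity)).le
  have hτT : τ ≤ T.card := by
    have h1 : (τ : ℝ) ≤ T.card := by
      refine hτ2.trans ?_
      have h2 : y / (100 * Real.log K) ≤ K / (100 * Real.log K) :=
        div_le_div_of_nonneg_right hy2 (by positivity)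
      have h3 : (K : ℝ) / (80 * Real.log K) ≤ T.card := by
        rw [div_le_iff₀ (by positivity)]
        linarith
      have h4 : (K : ℝ) / (100 * Real.log K) + 1 ≤ K / (80 * Real.log K) := by
        have h5 : (K : ℝ) / (80 * Real.log K) = K / (100 * Real.log K) + K / (400 * Real.log K) := by
          field_simp
          norm_num
        have h6 : 1 ≤ (K : ℝ) / (400 * Real.log K) := by
          rw [le_div_iff₀ (by positivity)]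
          linarith
        linarith
      linarith
    exact_mod_cast h1
  obtain ⟨T', hT'T, hT'card⟩ := Finset.exists_subset_card_eq hτT
  have hkH : k ≤ 2 * K := by
    have : H ≤ K := by nlinarith
    omega
  have hsk : 8 ^ s ≤ k := by
    have h2 : 8 ^ s ≤ K := by exact_mod_cast hsK
    omega
  have hT2 : ∀ ℓ ∈ T', ℓ.Prime ∧ ℓ ≤ k ∧ k < 2 * ℓ ∧ ℓ ≠ 2 := by
    intro ℓ hℓ
    obtain ⟨h1, h2, h3, -⟩ := hT ℓ (hT'T hℓ)
    exact ⟨h1, by omega, by omega, by omega⟩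
  obtain ⟨Λs, hlen, hΛ, hdvd⟩ := hsteps k s (by omega) hs hsk T' hT2
  obtain ⟨Mx, hMx⟩ : ∃ Mx : ℕ, Mx = ⌊Real.exp (C₀ * (k / s))⌋₊ := ⟨_, rfl⟩
  have hMx1 : (Mx : ℝ) ≤ Real.exp (C₀ * (k / s)) := by
    rw [hMx]
    exact Nat.floor_le (Real.exp_pos _).le
  have hMx2 : ∀ Λ ∈ Λs, Λ ≤ Mx := by
    intro Λ hΛm
    obtain ⟨h1, -, h2⟩ := hΛ Λ hΛm
    rw [hMx]
    apply Nat.le_floor
    have h3 : (0 : ℝ) < Λ := by exact_mod_cast h1
    exact (Real.log_le_iff_le_exp h3).mp h2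
  have hN0 : 0 < N := by
    have : (0 : ℝ) < N := lt_of_lt_of_le (by positivity) hN
    exact_mod_cast this
  have hBM : ∀ d ∈ B, d ≤ K / 5 := by
    intro d hd
    have := hB5 d hd
    omega
  have hcore := bias_core (L := L) (W := W) (Dp := K / 5 + 1) (k := k) (q := q) T' hT2
    (fun ℓ hℓ => (hT ℓ (hT'T hℓ)).2.2.2.2.1) (fun ℓ hℓ => (hT ℓ (hT'T hℓ)).2.2.2.2.2) Λs
    (fun Λ hΛm => (hΛ Λ hΛm).2.1) Mx hMx2 hdvd (by omega) (A := AB (K / 5) B)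
    (AB_ne_zero hBM hBne) (Nat.lt_succ_of_le (natDegree_AB hBM))
    ((card_support_AB hBM).trans hBL) (r0 + (K / 5 : ℕ)) N hN0
  have hfun : (fun m : ℤ => act (AB (K / 5) B) (cc k) (r0 + (K / 5 : ℕ) + q * m)) =
      fun m => ∑ d ∈ B, cc k (r0 + q * m + d) := by
    funext m
    rw [← act_AB hBM]
    congr 1
    ring
  rw [hfun, hlen, hT'card] at hcore
  have hprod := prod_le_exp' (T := T') (W := W) (K := K) (s := s) (by
    intro ℓ hℓ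
    obtain ⟨h1, h2, h3, h4, -⟩ := hT ℓ (hT'T hℓ)
    exact ⟨h1.pos, h2, h4⟩)
  rw [hT'card] at hprod
  have hPi : ((∏ ℓ ∈ T', ℓ : ℕ) : ℝ) ≤ (K : ℝ) ^ τ := by
    have h1 : ∏ ℓ ∈ T', ℓ ≤ K ^ τ := by
      rw [← hT'card]
      exact Finset.prod_le_pow_card T' (fun ℓ => ℓ) K fun ℓ hℓ => (hT ℓ (hT'T hℓ)).2.1
    exact_mod_cast h1
  have hkr : (k : ℝ) ≤ 2 * K := by exact_mod_cast hkH
  have hnum := numB (K := (K : ℝ)) (C₀ := C₀) (y := y) (W := W) (τ := τ) (Pi := ∏ ℓ ∈ T', ℓ)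
    (Mx := Mx) (N := N) (k := k) (s := s) hC₀ hKr hWr hs hsK hy hτ2 hPi hkr hMx1 hN
  have hsum : |av 0 N (fun m => ∑ d ∈ B, cc k (r0 + q * m + d))| ^ (2 ^ s) ≤
      2 * Real.exp (-(2 * W * τ / (2 ^ s * K))) := by
    linarith
  have hroot := root_le (abs_nonneg _) hsum
  refine hroot.trans ?_
  apply mul_le_mul_of_nonneg_left _ (by norm_num)
  apply Real.exp_le_exp.mpr
  rw [neg_le_neg_iff]
  exact num2B hKr hs hy hτ1

end Pool.Agent.H557.SI
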